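import Pool.Agent.H93.SV.Lad

/-!
Continuous ladders in `HOD`.
-/

set_option autoImplicit false
set_option linter.unusedVariables false

namespace Pool.Agent.H93.SV

open ZFSet Gss969 Pool.Agent.H310.HD Pool.Agent.H93.HM Pool.Agent.H93.SC

universe u

/-- Continuity of the ladders. -/
def LCont (l : Ordinal.{u}) (F : Ordinal.{u} → Ordinal.{u} → Ordinal.{u})
    (γ : Ordinal.{u} → Ordinal.{u}) : Prop :=
  ∀ r < l, (∀ j < γ r, Order.succ j < γ r) → (∀ j i, j ≤ i → i < γ r → F r j ≤ F r i) ∧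
    ∀ i < γ r, (∀ j < i, Order.succ j < i) → ∀ v < F r i, ∃ j < i, v < F r j

/-- The ladder at `x` has no last element. -/
def Lm (e A x : ZFSet.{u}) : Prop := ∀ j ∈ e, ∀ w ∈ e, pair x (pair j w) ∈ A →
  ∃ j' ∈ e, ∃ w' ∈ e, j ∈ j' ∧ pair x (pair j' w') ∈ A

theorem dfn_Lm (a b c : ℕ) : Dfn Gd.{u} (fun v => Lm (v a) (v b) (v c)) := by
  unfold Lm
  exact Dfn.ball Gd_Trs _ (Dfn.ball Gd_Trs _ (Dfn.imp (dfn_pm3 _ _ _ _) (Dfn.bex Gd_Trs _
    (Dfn.bex Gd_Trs _ ((Dfn.mem _ _).and (dfn_pm3 _ _ _ _))))))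

theorem lm_iff {l r : Ordinal.{u}} {A : ZFSet.{u}} {F : Ordinal.{u} → Ordinal.{u} → Ordinal.{u}}
    {γ : Ordinal.{u} → Ordinal.{u}} (hL : Lad l A F γ) (hr : r < l) :
    Lm l.toZFSet A r.toZFSet ↔ ∀ j < γ r, Order.succ j < γ r := by
  have hγl : γ r < l := (hL.le r hr).trans_lt hr
  constructor
  · intro h j hj
    obtain ⟨j', hj', w', hw', h1, h2⟩ := h _ (tz_mem.2 (hj.trans hγl)) _
      (tz_mem.2 ((hL.lt r hr j hj).trans hr)) ((hL.mem _ _ _).2 ⟨hr, hj, rfl⟩)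
    obtain ⟨j', _, rfl⟩ := Ordinal.mem_toZFSet_iff.1 hj'
    obtain ⟨w', _, rfl⟩ := Ordinal.mem_toZFSet_iff.1 hw'
    exact (Order.succ_le_of_lt (tz_mem.1 h1)).trans_lt ((hL.mem _ _ _).1 h2).2.1
  · intro h j hj w hw h1
    obtain ⟨j, _, rfl⟩ := Ordinal.mem_toZFSet_iff.1 hj
    obtain ⟨w, _, rfl⟩ := Ordinal.mem_toZFSet_iff.1 hw
    have h2 := h j ((hL.mem _ _ _).1 h1).2.1
    exact ⟨_, tz_mem.2 (h2.trans hγl), _, tz_mem.2 ((hL.lt r hr _ h2).trans hr),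
      tz_mem.2 (Order.lt_succ j), (hL.mem _ _ _).2 ⟨hr, h2, rfl⟩⟩

theorem exists_lad2 (l : Ordinal.{u}) : ∃ A F γ, Lad l A F γ ∧ LCont l F γ := by
  classical
  obtain ⟨A, F, γ, hL⟩ := exists_lad l
  obtain ⟨F', hF'⟩ : ∃ F' : Ordinal.{u} → Ordinal.{u} → Ordinal.{u}, F' = fun r i =>
      if (∀ j < γ r, Order.succ j < γ r) then ⨆ j : Set.Iio i, Order.succ (F r j.1) else F r i :=
    ⟨_, rfl⟩
  have h1 : ∀ r, (∀ j < γ r, Order.succ j < γ r) → ∀ i v, v < F' r i ↔ ∃ j < i, v ≤ F r j := by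
    intro r hr i v
    rw [hF']
    simp only [if_pos hr]
    rw [Ordinal.lt_iSup_iff]
    constructor
    · rintro ⟨⟨j, hj⟩, h⟩
      exact ⟨j, hj, Order.lt_succ_iff.1 h⟩
    · rintro ⟨j, hj, h⟩
      exact ⟨⟨j, hj⟩, Order.lt_succ_iff.2 h⟩
  have h2 : ∀ r, ¬ (∀ j < γ r, Order.succ j < γ r) → ∀ i, F' r i = F r i := by
    intro r hr i
    rw [hF']
    simp only [if_neg hr]
  have hlt : ∀ r < l, ∀ i < γ r, F' r i < r := by
    intro r hr i hi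
    by_cases hlim : ∀ j < γ r, Order.succ j < γ r
    · by_contra h3
      push Not at h3
      have hfm : ∀ j y : Ordinal.{u}, pair j.toZFSet y.toZFSet ∈ ZFSet.sep (fun p => ∃ x y,
          p = pair x y ∧ pair r.toZFSet (pair x y) ∈ A) (prod i.toZFSet r.toZFSet) ↔
          j < i ∧ y = F r j := by
        intro j y
        rw [mem_rel (B := fun x y => pair r.toZFSet (pair x y) ∈ A), tz_mem, tz_mem, hL.mem]
        constructor
        · rintro ⟨h4, _, _, _, h5⟩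
          exact ⟨h4, h5⟩
        · rintro ⟨h4, rfl⟩
          exact ⟨h4, hL.lt r hr j (h4.trans hi), hr, h4.trans hi, rfl⟩
      refine hL.min r hr i hi ⟨_, HOD_rel (A := fun x y v => pair (v 0) (pair x y) ∈ v 1)
        (dfn_pm3 _ _ _ _) i r [r.toZFSet, A] ?_, ⟨fun p hp => (mem_sep.1 hp).1, fun x hx => ?_⟩,
        fun x hx => ?_⟩
      · intro p hp
        simp only [List.mem_cons, List.not_mem_nil, or_false] at hp
        rcases hp with rfl | rfl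
        · exact OD_ord _
        · exact hL.hod.od
      · obtain ⟨j, hj, rfl⟩ := Ordinal.mem_toZFSet_iff.1 hx
        refine ⟨_, (hfm j _).2 ⟨hj, rfl⟩, fun y hy => ?_⟩
        obtain ⟨y, _, rfl⟩ := Ordinal.mem_toZFSet_iff.1 (mem_rel.1 hy).2.1
        rw [((hfm j y).1 hy).2]
      · obtain ⟨x, hx', rfl⟩ := Ordinal.mem_toZFSet_iff.1 hx
        obtain ⟨j, hj, h4⟩ := (h1 r hlim i x).1 (hx'.trans_le h3)
        refine ⟨_, tz_mem.2 hj, _, tz_mem.2 (hL.lt r hr j (hj.trans hi)), (hfm j _).2 ⟨hj, rfl⟩, ?_⟩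
        rcases h4.lt_or_eq with h5 | h5
        · exact Or.inl (tz_mem.2 h5)
        · exact Or.inr (by rw [h5])
    · rw [h2 r hlim]
      exact hL.lt r hr i hi
  obtain ⟨A', hA'⟩ : ∃ A' : ZFSet.{u}, A' = ZFSet.sep (fun p => ∃ x q, p = pair x q ∧ ∃ y z,
      q = pair y z ∧ ((∃ w ∈ l.toZFSet, pair x (pair y w) ∈ A) ∧
        ((Lm l.toZFSet A x ∧ ∀ v ∈ l.toZFSet, (v ∈ z ↔ ∃ i ∈ y, ∃ w ∈ l.toZFSet,
          pair x (pair i w) ∈ A ∧ (v ∈ w ∨ v = w))) ∨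
        (¬ Lm l.toZFSet A x ∧ pair x (pair y z) ∈ A))))
      (prod l.toZFSet (prod l.toZFSet l.toZFSet)) := ⟨_, rfl⟩
  refine ⟨A', F', γ, ⟨?_, hL.le, hlt, fun r hr x hx => ?_, hL.min, fun r i z => ?_⟩,
    fun r hr hlim => ⟨fun j i hji hi => ?_, fun i hi hi' v hv => ?_⟩⟩
  · rw [hA']
    refine HOD_rel3 (A := fun x y z v => (∃ w ∈ v 0, pair x (pair y w) ∈ v 1) ∧
      ((Lm (v 0) (v 1) x ∧ ∀ a ∈ v 0, (a ∈ z ↔ ∃ i ∈ y, ∃ w ∈ v 0,
        pair x (pair i w) ∈ v 1 ∧ (a ∈ w ∨ a = w))) ∨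
      (¬ Lm (v 0) (v 1) x ∧ pair x (pair y z) ∈ v 1))) ?_ l l l [l.toZFSet, A] ?_
    · refine Dfn.and (Dfn.bex Gd_Trs _ (dfn_pm3 _ _ _ _)) (Dfn.or (Dfn.and (dfn_Lm _ _ _) ?_)
        (Dfn.and (dfn_Lm _ _ _).not (dfn_pm3 _ _ _ _)))
      exact Dfn.ball Gd_Trs _ (Dfn.iff (Dfn.mem _ _) (Dfn.bex Gd_Trs _ (Dfn.bex Gd_Trs _
        ((dfn_pm3 _ _ _ _).and ((Dfn.mem _ _).or (Dfn.eq _ _))))))
    · intro p hp
      simp only [List.mem_cons, List.not_mem_nil, or_false] at hp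
      rcases hp with rfl | rfl
      · exact OD_ord _
      · exact hL.hod.od
  · obtain ⟨i, hi, h3⟩ := hL.cof r hr x hx
    by_cases hlim : ∀ j < γ r, Order.succ j < γ r
    · exact ⟨_, hlim i hi, ((h1 r hlim _ x).2 ⟨i, Order.lt_succ i, h3⟩).le⟩
    · refine ⟨i, hi, ?_⟩
      rwa [h2 r hlim]
  · rw [hA', mem_rel3, tz_mem, tz_mem, tz_mem]
    have hsup : ∀ r < l, (∀ j < γ r, Order.succ j < γ r) → ∀ i < γ r, ∀ v : Ordinal.{u},
        (v < F' r i ↔ ∃ i' ∈ i.toZFSet, ∃ w ∈ l.toZFSet, pair r.toZFSet (pair i' w) ∈ A ∧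
          (v.toZFSet ∈ w ∨ v.toZFSet = w)) := by
      intro r hr hlim i hi v
      rw [h1 r hlim]
      constructor
      · rintro ⟨j, hj, h3⟩
        refine ⟨_, tz_mem.2 hj, _, tz_mem.2 ((hL.lt r hr j (hj.trans hi)).trans hr),
          (hL.mem _ _ _).2 ⟨hr, hj.trans hi, rfl⟩, ?_⟩
        rcases h3.lt_or_eq with h5 | h5
        · exact Or.inl (tz_mem.2 h5)
        · exact Or.inr (by rw [h5])
      · rintro ⟨j, hj, w, hw, h3, h4⟩
        obtain ⟨j, hj', rfl⟩ := Ordinal.mem_toZFSet_iff.1 hj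
        obtain ⟨w, _, rfl⟩ := Ordinal.mem_toZFSet_iff.1 hw
        obtain ⟨_, _, h5⟩ := (hL.mem _ _ _).1 h3
        rw [h5] at h4
        refine ⟨j, hj', ?_⟩
        rcases h4 with h4 | h4
        · exact (tz_mem.1 h4).le
        · exact (Ordinal.toZFSet_injective h4).le
    constructor
    · rintro ⟨hr, hi, hz, ⟨w, hw, h3⟩, h4⟩
      obtain ⟨w, _, rfl⟩ := Ordinal.mem_toZFSet_iff.1 hw
      have hi' := ((hL.mem _ _ _).1 h3).2.1
      refine ⟨hr, hi', ?_⟩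
      rcases h4 with ⟨h5, h6⟩ | ⟨h5, h6⟩
      · rw [lm_iff hL hr] at h5
        refine le_antisymm (le_of_forall_lt fun v hv => ?_) (le_of_forall_lt fun v hv => ?_)
        · exact (hsup r hr h5 i hi' v).2 ((h6 _ (tz_mem.2 (hv.trans hz))).1 (tz_mem.2 hv))
        · exact tz_mem.1 ((h6 _ (tz_mem.2 ((hv.trans (hlt r hr i hi')).trans hr))).2
            ((hsup r hr h5 i hi' v).1 hv))
      · rw [lm_iff hL hr] at h5
        rw [h2 r h5]
        exact ((hL.mem _ _ _).1 h6).2.2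
    · rintro ⟨hr, hi, rfl⟩
      have h3 := hlt r hr i hi
      refine ⟨hr, (hi.trans_le (hL.le r hr)).trans hr, h3.trans hr, ⟨_, tz_mem.2
        ((hL.lt r hr i hi).trans hr), (hL.mem _ _ _).2 ⟨hr, hi, rfl⟩⟩, ?_⟩
      by_cases hlim : ∀ j < γ r, Order.succ j < γ r
      · refine Or.inl ⟨(lm_iff hL hr).2 hlim, fun v hv => ?_⟩
        obtain ⟨v, hv', rfl⟩ := Ordinal.mem_toZFSet_iff.1 hv
        rw [tz_mem]
        exact hsup r hr hlim i hi v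
      · refine Or.inr ⟨fun h4 => hlim ((lm_iff hL hr).1 h4), ?_⟩
        rw [h2 r hlim]
        exact (hL.mem _ _ _).2 ⟨hr, hi, rfl⟩
  · refine le_of_forall_lt fun v hv => ?_
    obtain ⟨j', hj', h3⟩ := (h1 r hlim j v).1 hv
    exact (h1 r hlim i v).2 ⟨j', hj'.trans_le hji, h3⟩
  · obtain ⟨j, hj, h3⟩ := (h1 r hlim i v).1 hv
    exact ⟨_, hi' j hj, (h1 r hlim _ v).2 ⟨j, Order.lt_succ j, h3⟩⟩

end Pool.Agent.H93.SV
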