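import Pool.Agent.H93.SV.Unif

/-!
Recursion in `HOD`.
-/

set_option autoImplicit false
set_option linter.unusedVariables false

namespace Pool.Agent.H93.SV

open ZFSet Gss969 Pool.Agent.H310.HD Pool.Agent.H93.HM Pool.Agent.H93.SC

universe u

variable {K L i j : Ordinal.{u}} {f g : Ordinal.{u} → ZFSet.{u}}

/-- The relation coding the sets `f j`, `j < i`. -/
noncomputable def Rl (L : Ordinal.{u}) (f : Ordinal.{u} → ZFSet.{u}) (i : Ordinal.{u}) : ZFSet.{u} :=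
  ZFSet.sep (fun p => ∃ x v, p = pair x v ∧ v ∈ f (rank x)) (prod i.toZFSet L.toZFSet)

theorem mem_Rl {v : ZFSet.{u}} : pair j.toZFSet v ∈ Rl L f i ↔ j < i ∧ v ∈ L.toZFSet ∧ v ∈ f j := by
  unfold Rl
  rw [mem_rel (B := fun x v => v ∈ f (rank x)), Ordinal.rank_toZFSet, tz_mem]

theorem Rl_ext {G : ZFSet.{u}} (hG : G ⊆ prod i.toZFSet L.toZFSet)
    (h : ∀ j < i, ∀ v ∈ L.toZFSet, (pair (Ordinal.toZFSet j) v ∈ G ↔ v ∈ f j)) :
    G = Rl L f i := by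
  ext p
  constructor
  · intro hp
    obtain ⟨x, hx, v, hv, rfl⟩ := mem_prod.1 (hG hp)
    obtain ⟨j, hj, rfl⟩ := Ordinal.mem_toZFSet_iff.1 hx
    exact mem_Rl.2 ⟨hj, hv, (h j hj v hv).1 hp⟩
  · intro hp
    have h1 := hp
    unfold Rl at h1
    obtain ⟨h2, _⟩ := mem_sep.1 h1
    obtain ⟨x, hx, v, hv, rfl⟩ := mem_prod.1 h2
    obtain ⟨j, hj, rfl⟩ := Ordinal.mem_toZFSet_iff.1 hx
    exact (h j hj v hv).2 (mem_Rl.1 hp).2.2

theorem Rl_sub : Rl L f i ⊆ prod i.toZFSet L.toZFSet := fun p hp => by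
  unfold Rl at hp
  exact (mem_sep.1 hp).1

theorem Rl_congr (h : ∀ j < i, f j = g j) : Rl L f i = Rl L g i :=
  Rl_ext Rl_sub fun j hj v hv => by rw [mem_Rl, h j hj]; exact ⟨fun h => h.2.2, fun h => ⟨hj, hv, h⟩⟩

/-- **Recursion in `HOD`.** -/
theorem set_rec {A : ZFSet.{u} → ZFSet.{u} → ZFSet.{u} → (ℕ → ZFSet.{u}) → Prop}
    (hA : Dfn Gd.{u} (fun v => A (v 0) (v 1) (v 2) (fun n => v (n + 3))))
    (ps : List ZFSet.{u}) (hps : ∀ p ∈ ps, OD p)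
    (hun : ∀ G j T T', T ⊆ L.toZFSet → T' ⊆ L.toZFSet → A G j T (pl ps) → A G j T' (pl ps) →
      T = T')
    (hex : ∀ j < K, ∀ f : Ordinal.{u} → ZFSet.{u},
      (∀ i < j, f i ⊆ L.toZFSet ∧ A (Rl L f i) (Ordinal.toZFSet i) (f i) (pl ps)) →
      (∀ i ≤ j, HOD (Rl L f i)) →
      ∃ T, T ⊆ L.toZFSet ∧ A (Rl L f j) (Ordinal.toZFSet j) T (pl ps)) :
    ∃ f : Ordinal.{u} → ZFSet.{u},
      (∀ i < K, f i ⊆ L.toZFSet ∧ A (Rl L f i) (Ordinal.toZFSet i) (f i) (pl ps)) ∧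
      ∀ i ≤ K, HOD (Rl L f i) := by
  classical
  obtain ⟨f, hf⟩ : ∃ f : Ordinal.{u} → ZFSet.{u}, ∀ j, f j =
      if h : ∃ T, T ⊆ L.toZFSet ∧ A (Rl L f j) j.toZFSet T (pl ps) then h.choose else ∅ := by
    refine ⟨WellFounded.fix (C := fun _ => ZFSet.{u}) (wellFounded_lt (α := Ordinal.{u}))
      fun j ih => if h : ∃ T, T ⊆ L.toZFSet ∧ A (Rl L (fun i => if hi : i < j then ih i hi else ∅) j)
        j.toZFSet T (pl ps) then h.choose else ∅, fun j => ?_⟩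
    rw [WellFounded.fix_eq]
    have h1 : ∀ F : Ordinal.{u} → ZFSet.{u}, Rl L (fun i => if hi : i < j then F i else ∅) j =
        Rl L F j := fun F => Rl_congr fun i hi => by
      show (if hi : i < j then F i else ∅) = F i
      rw [dif_pos hi]
    have h2 := h1 (WellFounded.fix (C := fun _ => ZFSet.{u}) (wellFounded_lt (α := Ordinal.{u}))
      fun j ih => if h : ∃ T, T ⊆ L.toZFSet ∧ A (Rl L (fun i => if hi : i < j then ih i hi else ∅) j)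
        j.toZFSet T (pl ps) then h.choose else ∅)
    rw [h2]
  have hf' : ∀ j, (∃ T, T ⊆ L.toZFSet ∧ A (Rl L f j) j.toZFSet T (pl ps)) →
      f j ⊆ L.toZFSet ∧ A (Rl L f j) j.toZFSet (f j) (pl ps) := by
    intro j h
    have h1 := hf j
    rw [dif_pos h] at h1
    have h2 := h.choose_spec
    rw [← h1] at h2
    exact h2
  have hHOD : ∀ i : Ordinal.{u}, (∀ j < i, f j ⊆ L.toZFSet ∧
      A (Rl L f j) (Ordinal.toZFSet j) (f j) (pl ps)) → HOD (Rl L f i) := by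
    intro i hi
    refine HOD_def (R := fun y x => y ⊆ x 0 ∧ ∀ j ∈ x 1, ∃ G', G' ⊆ x 0 ∧
      ((∀ p ∈ G', p ∈ y ∧ ∃ a ∈ j, ∃ v ∈ x 2, p = pair a v) ∧
      ((∀ a ∈ j, ∀ v ∈ x 2, pair a v ∈ y → pair a v ∈ G') ∧
      ∃ T, T ⊆ x 2 ∧ ((∀ v ∈ x 2, (v ∈ T ↔ pair j v ∈ y)) ∧
        A G' j T (fun n => x (n + 3)))))) ?_
      (prod i.toZFSet L.toZFSet :: i.toZFSet :: L.toZFSet :: ps) ?_ (fun y => ?_) fun p hp => ?_
    · refine (dfn_sub Gd_Trs _ _).and (Dfn.ball Gd_Trs _ (Dfn.exsub Gd_Lvl _ (Dfn.and ?_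
        (Dfn.and ?_ (Dfn.exsub Gd_Lvl _ (Dfn.and ?_ ?_))))))
      · exact Dfn.ball Gd_Trs _ ((Dfn.mem _ _).and (Dfn.bex Gd_Trs _ (Dfn.bex Gd_Trs _
          (dfn_pair Gd_Trs _ _ _))))
      · exact Dfn.ball Gd_Trs _ (Dfn.ball Gd_Trs _ (Dfn.imp (dfn_pm Gd_Trs _ _ _)
          (dfn_pm Gd_Trs _ _ _)))
      · exact Dfn.ball Gd_Trs _ (Dfn.iff (Dfn.mem _ _) (dfn_pm Gd_Trs _ _ _))
      · exact Dfn_reindex hA (fun n => if n = 0 then 1 else if n = 1 then 2 else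
          if n = 2 then 0 else n + 4)
    · intro p hp
      rw [List.mem_cons, List.mem_cons, List.mem_cons] at hp
      rcases hp with rfl | rfl | rfl | hp
      · exact (HOD_prod _ _).od
      · exact OD_ord _
      · exact OD_ord _
      · exact hps p hp
    · show (y ⊆ prod i.toZFSet L.toZFSet ∧ ∀ j ∈ i.toZFSet, ∃ G', G' ⊆ prod i.toZFSet L.toZFSet ∧
        ((∀ p ∈ G', p ∈ y ∧ ∃ a ∈ j, ∃ v ∈ L.toZFSet, p = pair a v) ∧
        ((∀ a ∈ j, ∀ v ∈ L.toZFSet, pair a v ∈ y → pair a v ∈ G') ∧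
        ∃ T, T ⊆ L.toZFSet ∧ ((∀ v ∈ L.toZFSet, (v ∈ T ↔ pair j v ∈ y)) ∧
          A G' j T (pl ps))))) ↔ _
      constructor
      · rintro ⟨h1, h2⟩
        refine Rl_ext h1 fun j => ?_
        induction j using WellFoundedLT.induction with
        | ind j ih =>
          intro hj
          obtain ⟨G', hG', h3, h4, T, hT, h5, h6⟩ := h2 _ (tz_mem.2 hj)
          have h7 : G' = Rl L f j := by
            refine Rl_ext (fun p hp => ?_) fun a ha v hv => ?_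
            · obtain ⟨_, a, ha, v, hv, rfl⟩ := h3 p hp
              exact pair_mem_prod.2 ⟨ha, hv⟩
            · rw [← ih a ha (ha.trans hj) v hv]
              exact ⟨fun h => (h3 _ h).1, fun h => h4 _ (tz_mem.2 ha) v hv h⟩
          rw [h7] at h6
          have h8 := hun _ _ _ _ hT (hi j hj).1 h6 (hi j hj).2
          intro v hv
          rw [← h5 v hv, h8]
      · rintro rfl
        refine ⟨Rl_sub, fun j hj => ?_⟩
        obtain ⟨j, hj', rfl⟩ := Ordinal.mem_toZFSet_iff.1 hj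
        refine ⟨Rl L f j, fun p hp => ?_, fun p hp => ?_, fun a ha v hv h => ?_, f j, (hi j hj').1,
          fun v hv => ?_, (hi j hj').2⟩
        · obtain ⟨a, ha, v, hv, rfl⟩ := mem_prod.1 (Rl_sub hp)
          obtain ⟨a, ha', rfl⟩ := Ordinal.mem_toZFSet_iff.1 ha
          exact pair_mem_prod.2 ⟨tz_mem.2 (ha'.trans hj'), hv⟩
        · obtain ⟨a, ha, v, hv, rfl⟩ := mem_prod.1 (Rl_sub hp)
          obtain ⟨a, ha', rfl⟩ := Ordinal.mem_toZFSet_iff.1 ha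
          exact ⟨mem_Rl.2 ⟨ha'.trans hj', hv, (mem_Rl.1 hp).2.2⟩, _, ha, v, hv, rfl⟩
        · obtain ⟨a, ha', rfl⟩ := Ordinal.mem_toZFSet_iff.1 ha
          exact mem_Rl.2 ⟨ha', hv, (mem_Rl.1 h).2.2⟩
        · rw [mem_Rl]
          exact ⟨fun h => ⟨hj', hv, h⟩, fun h => h.2.2⟩
    · obtain ⟨a, ha, v, hv, rfl⟩ := mem_prod.1 (Rl_sub hp)
      obtain ⟨a, ha', rfl⟩ := Ordinal.mem_toZFSet_iff.1 ha
      obtain ⟨v, hv', rfl⟩ := Ordinal.mem_toZFSet_iff.1 hv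
      exact HOD_pair (HOD_ord _) (HOD_ord _)
  have hmain : ∀ j, j < K → f j ⊆ L.toZFSet ∧ A (Rl L f j) (Ordinal.toZFSet j) (f j) (pl ps) := by
    intro j
    induction j using WellFoundedLT.induction with
    | ind j ih =>
      intro hj
      have h1 := fun i (hi : i < j) => ih i hi (hi.trans hj)
      exact hf' j (hex j hj f h1 fun i hi => hHOD i fun i' hi' => h1 i' (hi'.trans_le hi))
  exact ⟨f, hmain, fun i hi => hHOD i fun j hj => hmain j (hj.trans_le hi)⟩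

end Pool.Agent.H93.SV
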