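import Pool.Agent.H93.SV.Lad
import Pool.Agent.H93.SV.Rec

/-!
Club guessing in `HOD`.
-/

set_option autoImplicit false
set_option linter.unusedVariables false

namespace Pool.Agent.H93.SV

open ZFSet Gss969 Pool.Agent.H310.HD Pool.Agent.H93.HM Pool.Agent.H93.SC

universe u

variable {Λ K ρ α : Ordinal.{u}} {A E : ZFSet.{u}} {F : Ordinal.{u} → Ordinal.{u} → Ordinal.{u}}
  {γ : Ordinal.{u} → Ordinal.{u}}

/-- `v` is the largest element of `E` which is at most an element of the ladder at `a`. -/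
def Dl (E A r a v : ZFSet.{u}) : Prop := v ∈ E ∧ ∃ i ∈ r, ∃ z ∈ a, pair a (pair i z) ∈ A ∧
  ((v ∈ z ∨ v = z) ∧ ∀ w ∈ E, (w ∈ z ∨ w = z) → (w ∈ v ∨ w = v))

theorem dfn_Dl (a b c d e : ℕ) : Dfn Gd.{u} (fun v => Dl (v a) (v b) (v c) (v d) (v e)) := by
  unfold Dl
  refine (Dfn.mem _ _).and (Dfn.bex Gd_Trs _ (Dfn.bex Gd_Trs _ ((dfn_pm3 _ _ _ _).and
    (((Dfn.mem _ _).or (Dfn.eq _ _)).and (Dfn.ball Gd_Trs _ (Dfn.imp
      ((Dfn.mem _ _).or (Dfn.eq _ _)) ((Dfn.mem _ _).or (Dfn.eq _ _))))))))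

theorem le_tz {x y : Ordinal.{u}} : (x.toZFSet ∈ y.toZFSet ∨ x.toZFSet = y.toZFSet) ↔ x ≤ y := by
  constructor
  · rintro (h | h)
    · exact (tz_mem.1 h).le
    · exact (Ordinal.toZFSet_injective h).le
  · intro h
    rcases h.lt_or_eq with h | h
    · exact Or.inl (tz_mem.2 h)
    · exact Or.inr (by rw [h])

theorem dl_iff (hL : Lad Λ A F γ) (hE : E ⊆ Λ.toZFSet) (hα : α < Λ) {v : Ordinal.{u}} :
    Dl E A ρ.toZFSet α.toZFSet v.toZFSet ↔ v.toZFSet ∈ E ∧ ∃ i < ρ, i < γ α ∧ v ≤ F α i ∧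
      ∀ w : Ordinal.{u}, w.toZFSet ∈ E → w ≤ F α i → w ≤ v := by
  constructor
  · rintro ⟨h1, i, hi, z, hz, h2, h3, h4⟩
    obtain ⟨i, hi', rfl⟩ := Ordinal.mem_toZFSet_iff.1 hi
    obtain ⟨z, hz', rfl⟩ := Ordinal.mem_toZFSet_iff.1 hz
    obtain ⟨_, h5, h6⟩ := (hL.mem _ _ _).1 h2
    refine ⟨h1, i, hi', h5, ?_, fun w hw hw' => le_tz.1 (h4 _ hw (le_tz.2 ?_))⟩
    · rw [← h6]
      exact le_tz.1 h3
    · rw [h6]
      exact hw'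
  · rintro ⟨h1, i, hi, h2, h3, h4⟩
    refine ⟨h1, _, tz_mem.2 hi, _, tz_mem.2 (hL.lt α hα i h2), (hL.mem _ _ _).2 ⟨hα, h2, rfl⟩,
      le_tz.2 h3, fun w hw hw' => ?_⟩
    obtain ⟨w, _, rfl⟩ := Ordinal.mem_toZFSet_iff.1 (hE hw)
    exact le_tz.2 (h4 w hw (le_tz.1 hw'))

/-- `Y` is a closed unbounded subset of `L` which is not guessed. -/
def Bad (Y R L : ZFSet.{u}) : Prop := ∃ E S, R = pair E S ∧ ∃ A r, S = pair A r ∧
  (Club Y L ∧ ∀ a ∈ L, Cf r a → (∀ x ∈ a, ∃ v ∈ a, Dl E A r a v ∧ x ∈ v) →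
    ∃ v ∈ a, Dl E A r a v ∧ ¬ v ∈ Y)

theorem dfn_Bad : Dfn Gd.{u} (fun v => Bad (v 0) (v 1) (v 2)) := by
  unfold Bad
  refine Dfn_unpair Gd_Trs 1 (A := fun E S v => ∃ A r, S = pair A r ∧
    (Club (v 0) (v 2) ∧ ∀ a ∈ v 2, Cf r a → (∀ x ∈ a, ∃ w ∈ a, Dl E A r a w ∧ x ∈ w) →
      ∃ w ∈ a, Dl E A r a w ∧ ¬ w ∈ v 0)) ?_
  refine Dfn_unpair Gd_Trs 0 (A := fun A r v =>
    (Club (v 2) (v 4) ∧ ∀ a ∈ v 4, Cf r a → (∀ x ∈ a, ∃ w ∈ a, Dl (v 1) A r a w ∧ x ∈ w) →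
      ∃ w ∈ a, Dl (v 1) A r a w ∧ ¬ w ∈ v 2)) ?_
  refine ((dfn_Club _ _).mono Gd_Lvl).and (Dfn.ball Gd_Trs _ (Dfn.imp (dfn_Cf _ _) (Dfn.imp ?_ ?_)))
  · exact Dfn.ball Gd_Trs _ (Dfn.bex Gd_Trs _ ((dfn_Dl _ _ _ _ _).and (Dfn.mem _ _)))
  · exact Dfn.bex Gd_Trs _ ((dfn_Dl _ _ _ _ _).and (Dfn.mem _ _).not)

theorem bad_iff {Y E S A r L : ZFSet.{u}} (hS : S = pair A r) : Bad Y (pair E S) L ↔
    (Club Y L ∧ ∀ a ∈ L, Cf r a → (∀ x ∈ a, ∃ v ∈ a, Dl E A r a v ∧ x ∈ v) →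
      ∃ v ∈ a, Dl E A r a v ∧ ¬ v ∈ Y) := by
  subst hS
  constructor
  · rintro ⟨E', S', h1, A', r', h2, h3⟩
    rw [pair_inj] at h1
    obtain ⟨rfl, rfl⟩ := h1
    rw [pair_inj] at h2
    obtain ⟨rfl, rfl⟩ := h2
    exact h3
  · intro h
    exact ⟨_, _, rfl, _, _, rfl, h⟩

/-- The intersection. -/
noncomputable def Ij (L : Ordinal.{u}) (f : Ordinal.{u} → ZFSet.{u}) (j : Ordinal.{u}) : ZFSet.{u} :=
  ZFSet.sep (fun x => ∀ i < j, x ∈ f i) L.toZFSet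

/-- **Club guessing in `HOD`.** -/
theorem club_guess (hΛ : RegUnc Λ.toZFSet) (hK : Rg K) (hKΛ : K < Λ) (hρK : ρ < K)
    (hρ : Cf ρ.toZFSet ρ.toZFSet) (hρ0 : 0 < ρ) (hL : Lad Λ A F γ) :
    ∃ E, HOD E ∧ E ⊆ Λ.toZFSet ∧ Club E Λ.toZFSet ∧ ∀ E', HOD E' → E' ⊆ Λ.toZFSet →
      Club E' Λ.toZFSet → ∃ α < Λ, Cf ρ.toZFSet α.toZFSet ∧
        (∀ x < α, ∃ v < α, Dl E A ρ.toZFSet α.toZFSet v.toZFSet ∧ x < v) ∧
        ∀ v < α, Dl E A ρ.toZFSet α.toZFSet (Ordinal.toZFSet v) → v.toZFSet ∈ E' := by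
  classical
  by_contra hcon
  push Not at hcon
  have hΛr := hodReg_of_regUnc hΛ
  have hlim := hΛr.2.1
  have huc : Uc Λ Λ := RegUnc.uc hΛ
  have hωΛ : Ordinal.omega0 < Λ := hΛ.om_lt
  obtain ⟨ρ', hρ'⟩ := exists_rho Λ.toZFSet
  obtain ⟨ζ, hζ, hU⟩ := exists_Gd (max (max Λ ρ') (max (rank A) ρ))
  have hin : ∀ x : ZFSet.{u}, rank x ≤ max (max Λ ρ') (max (rank A) ρ) → x ∈ V_ ζ := by
    intro x hx
    rw [mem_vonNeumann]
    exact hx.trans_lt hζ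
  have hΛU : Λ.toZFSet ∈ V_ ζ := hin _ (by
    rw [Ordinal.rank_toZFSet]; exact (le_max_left _ _).trans (le_max_left _ _))
  have hρ'U : ρ'.toZFSet ∈ V_ ζ := hin _ (by
    rw [Ordinal.rank_toZFSet]; exact (le_max_right _ _).trans (le_max_left _ _))
  have hAU : A ∈ V_ ζ := hin _ ((le_max_left _ _).trans (le_max_right _ _))
  have hρU : ρ.toZFSet ∈ V_ ζ := hin _ (by
    rw [Ordinal.rank_toZFSet]; exact (le_max_right _ _).trans (le_max_right _ _))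
  have hEU : ∀ E, E ⊆ Λ.toZFSet → E ∈ V_ ζ := fun E hE => hin _ ((rank_mono hE).trans (by
    rw [Ordinal.rank_toZFSet]; exact (le_max_left _ _).trans (le_max_left _ _)))
  obtain ⟨S, hS⟩ : ∃ S, S = pair A ρ.toZFSet := ⟨_, rfl⟩
  have hSU : S ∈ V_ ζ := by rw [hS]; exact Lvl_pair (Gd_Lvl hU) hAU hρU
  have hSO : OD S := by rw [hS]; exact (HOD_pair hL.hod (HOD_ord _)).od
  have hIsub : ∀ f j, Ij Λ f j ⊆ Λ.toZFSet := fun f j x hx => (mem_sep.1 hx).1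
  have hImem : ∀ f j (v : ZFSet.{u}), v ∈ Ij Λ f j ↔ v ∈ Λ.toZFSet ∧ ∀ i < j, v ∈ f i :=
    fun f j v => mem_sep
  have hIclub : ∀ f : Ordinal.{u} → ZFSet.{u}, ∀ j < Λ, (∀ i < j, f i ⊆ Λ.toZFSet) →
      (∀ i < j, Club (f i) Λ.toZFSet) → Club (Ij Λ f j) Λ.toZFSet := fun f j hj h1 h2 =>
    club_inter hlim huc hωΛ hj h1 h2
  have hIHOD : ∀ f : Ordinal.{u} → ZFSet.{u}, ∀ j, HOD (Rl Λ f j) → HOD (Ij Λ f j) := by
    intro f j hj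
    have h1 : Ij Λ f j = ZFSet.sep (fun v => ∀ i ∈ j.toZFSet, pair i v ∈ Rl Λ f j) Λ.toZFSet := by
      ext v
      rw [hImem, mem_sep]
      refine and_congr_right fun hv => ⟨fun h i hi => ?_, fun h i hi => ?_⟩
      · obtain ⟨i, hi', rfl⟩ := Ordinal.mem_toZFSet_iff.1 hi
        exact mem_Rl.2 ⟨hi', hv, h i hi'⟩
      · exact (mem_Rl.1 (h _ (tz_mem.2 hi))).2.2
    rw [h1]
    refine HOD_sepG (A := fun v x => ∀ i ∈ x 0, pair i v ∈ x 1)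
      (Dfn.ball Gd_Trs _ (dfn_pm Gd_Trs _ _ _)) (HOD_ord Λ) [j.toZFSet, Rl Λ f j] ?_
    intro p hp
    simp only [List.mem_cons, List.not_mem_nil, or_false] at hp
    rcases hp with rfl | rfl
    · exact OD_ord _
    · exact hj.od
  obtain ⟨P, hP⟩ : ∃ P, P = pair Λ.toZFSet ρ'.toZFSet := ⟨_, rfl⟩
  have hstep : ∀ G j T, (T ⊆ Λ.toZFSet ∧ ∃ E, E ⊆ Λ.toZFSet ∧ ((∀ v ∈ Λ.toZFSet,
      (v ∈ E ↔ ∀ i ∈ Ordinal.toZFSet j, pair i v ∈ G)) ∧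
      Ch Bad (V_ ζ) P Λ.toZFSet (pair E S) T)) → ∀ f : Ordinal.{u} → ZFSet.{u}, G = Rl Λ f j →
      Ch Bad (V_ ζ) P Λ.toZFSet (pair (Ij Λ f j) S) T := by
    rintro G j T ⟨_, E, hE, h1, h2⟩ f rfl
    have h3 : E = Ij Λ f j := by
      ext v
      rw [hImem]
      constructor
      · intro hv
        refine ⟨hE hv, fun i hi => ?_⟩
        exact (mem_Rl.1 ((h1 v (hE hv)).1 hv _ (tz_mem.2 hi))).2.2
      · rintro ⟨hv, h4⟩
        refine (h1 v hv).2 fun i hi => ?_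
        obtain ⟨i, hi', rfl⟩ := Ordinal.mem_toZFSet_iff.1 hi
        exact mem_Rl.2 ⟨hi', hv, h4 i hi'⟩
    rwa [h3] at h2
  obtain ⟨f, hf1, hf2⟩ := set_rec (K := K) (L := Λ) (A := fun G j T v => ∃ E, E ⊆ v 0 ∧
      ((∀ w ∈ v 0, (w ∈ E ↔ ∀ i ∈ j, pair i w ∈ G)) ∧ Ch Bad (v 1) (v 2) (v 0) (pair E (v 3)) T))
    (by
      refine Dfn.exsub Gd_Lvl _ (Dfn.and (Dfn.ball Gd_Trs _ (Dfn.iff (Dfn.mem _ _)
        (Dfn.ball Gd_Trs _ (dfn_pm Gd_Trs _ _ _)))) ?_)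
      exact Dfn_pairG 0 7 (A := fun p w => Ch Bad (w 5) (w 6) (w 4) p (w 3))
        (dfn_Ch dfn_Bad _ _ _ _ _))
    [Λ.toZFSet, V_ ζ, P, S] (by
      intro p hp
      simp only [List.mem_cons, List.not_mem_nil, or_false] at hp
      rcases hp with rfl | rfl | rfl | rfl
      · exact OD_ord _
      · exact OD_lev ζ
      · rw [hP]; exact (HOD_pair (HOD_ord _) (HOD_ord _)).od
      · exact hSO)
    (by
      rintro G j T T' hT hT' ⟨E, hE, h1, h2⟩ ⟨E', hE', h1', h2'⟩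
      have h3 : E = E' := by
        ext v
        constructor
        · intro hv
          exact (h1' v (hE hv)).2 ((h1 v (hE hv)).1 hv)
        · intro hv
          exact (h1 v (hE' hv)).2 ((h1' v (hE' hv)).1 hv)
      rw [← h3] at h2'
      exact Ch.unique h2 h2')
    (by
      intro j hj f hf hR
      have h1 : ∀ i < j, Ch Bad (V_ ζ) P Λ.toZFSet (pair (Ij Λ f i) S) (f i) := fun i hi =>
        hstep _ _ _ (hf i hi) f rfl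
      have h2 : ∀ i < j, Club (f i) Λ.toZFSet := fun i hi => ((bad_iff hS).1 (h1 i hi).prop).1
      have h3 := hIclub f j (hj.trans hKΛ) (fun i hi => (hf i hi).1) h2
      have h4 := hIHOD f j (hR j le_rfl)
      obtain ⟨E', hE', h5, h6, h7⟩ := hcon _ h4 (hIsub f j) h3
      obtain ⟨T, hT⟩ := exists_ch dfn_Bad hU (Lvl_pair (Gd_Lvl hU) (hEU _ (hIsub f j)) hSU) hΛU
        hρ'U hρ' ⟨E', h5, hE', (bad_iff hS).2 ⟨h6, fun a ha hCf hub => by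
          obtain ⟨a, ha', rfl⟩ := Ordinal.mem_toZFSet_iff.1 ha
          obtain ⟨v, hv, h8, h9⟩ := h7 a ha' hCf fun x hx => by
            obtain ⟨v, hv, h8, h9⟩ := hub _ (tz_mem.2 hx)
            obtain ⟨v, hv', rfl⟩ := Ordinal.mem_toZFSet_iff.1 hv
            exact ⟨v, hv', h8, tz_mem.1 h9⟩
          exact ⟨_, tz_mem.2 hv, h8, h9⟩⟩⟩
      rw [← hP] at hT
      refine ⟨T, hT.sub, Ij Λ f j, hIsub f j, fun v hv => ?_, hT⟩
      rw [hImem]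
      constructor
      · rintro ⟨_, h8⟩ i hi
        obtain ⟨i, hi', rfl⟩ := Ordinal.mem_toZFSet_iff.1 hi
        exact mem_Rl.2 ⟨hi', hv, h8 i hi'⟩
      · intro h8
        exact ⟨hv, fun i hi => (mem_Rl.1 (h8 _ (tz_mem.2 hi))).2.2⟩)
  have hfC : ∀ i < K, Ch Bad (V_ ζ) P Λ.toZFSet (pair (Ij Λ f i) S) (f i) := fun i hi =>
    hstep _ _ _ (hf1 i hi) f rfl
  have hfc : ∀ i < K, Club (f i) Λ.toZFSet := fun i hi => ((bad_iff hS).1 (hfC i hi).prop).1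
  -- the final set
  obtain ⟨Z, hZ⟩ : ∃ Z, Z = Ij Λ f K := ⟨_, rfl⟩
  have hZc : Club Z Λ.toZFSet := by
    rw [hZ]; exact hIclub f K hKΛ (fun i hi => (hf1 i hi).1) hfc
  have hZO : HOD Z := by rw [hZ]; exact hIHOD f K (hf2 K le_rfl)
  have hZI : ∀ j < K, ∀ v ∈ Z, v ∈ Ij Λ f j := by
    intro j hj v hv
    rw [hZ, hImem] at hv
    rw [hImem]
    exact ⟨hv.1, fun i hi => hv.2 i (hi.trans hj)⟩
  have henum := enum_all hZO.od (κ := Λ) (fun ξ hξ => by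
    obtain ⟨c, hc, h1⟩ := hZc.2.1 _ (tz_mem.2 hξ)
    obtain ⟨c, hc', rfl⟩ := Ordinal.mem_toZFSet_iff.1 (hZc.1 hc)
    exact ⟨c, hc', tz_mem.1 h1, hc⟩) hΛr.2.2
  have hρΛ : ρ < Λ := hρK.trans hKΛ
  obtain ⟨hEn, hTb⟩ := enum_gr (W := Z) (l := Λ) (k := ρ) fun i hi => henum i (hi.trans hρΛ)
  obtain ⟨T, hT⟩ : ∃ T : Set Ordinal.{u}, T = {v | v.toZFSet ∈ Z ∨ Λ ≤ v} := ⟨_, rfl⟩
  rw [← hT] at hEn hTb henum
  have hmono := Ordinal.enumOrd_strictMono hTb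
  have hXZ : ∀ i < Λ, (Ordinal.enumOrd T i).toZFSet ∈ Z := by
    intro i hi
    have h1 := Ordinal.enumOrd_mem hTb i
    have h2 := henum i hi
    rw [hT] at h1
    rcases h1 with h1 | h1
    · rw [hT]; exact h1
    · rw [← hT] at h1
      exact absurd h1 (not_le.2 h2)
  obtain ⟨b, hb, hb'⟩ := huc ρ hρΛ (Ordinal.enumOrd T) fun i hi => henum i (hi.trans hρΛ)
  obtain ⟨α, hα1, hα2⟩ := WellFounded.has_min (wellFounded_lt (α := Ordinal.{u}))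
    {b | ∀ i < ρ, Ordinal.enumOrd T i < b} ⟨b, hb'⟩
  have hαΛ : α < Λ := (not_lt.1 (hα2 b hb')).trans_lt hb
  have hρlim := hρ.lim
  have hα3 : ∀ x < α, ∃ i < ρ, x < Ordinal.enumOrd T i := by
    intro x hx
    by_contra h1
    push Not at h1
    refine hα2 x (fun i hi => ?_) hx
    exact (hmono (Order.lt_succ i)).trans_le (h1 _ (hρlim i hi))
  have hCf : Cf ρ.toZFSet α.toZFSet := (cf_mono (δ := ρ) (s := α) (u := Ordinal.enumOrd T) hα1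
    (fun x y hxy _ => hmono.monotone hxy) hα3 ρ).1 hρ
  have hγρ : γ α ≤ ρ := by
    by_contra h1
    push Not at h1
    refine hL.min α hαΛ ρ h1 ⟨_, (OD_enum hZO.od hEn).hod_func hEn.1, ⟨fun p hp => ?_,
      hEn.1.2⟩, fun x hx => ?_⟩
    · obtain ⟨x, hx, y, hy, rfl⟩ := mem_prod.1 (hEn.1.1 hp)
      obtain ⟨x, hx', rfl⟩ := Ordinal.mem_toZFSet_iff.1 hx
      rw [pair_mem_gr, Ordinal.rank_toZFSet] at hp
      rw [← hp.2]
      exact pair_mem_prod.2 ⟨hx, tz_mem.2 (hα1 x hx')⟩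
    · obtain ⟨x, hx', rfl⟩ := Ordinal.mem_toZFSet_iff.1 hx
      obtain ⟨i, hi, h2⟩ := hα3 x hx'
      refine ⟨_, tz_mem.2 hi, _, tz_mem.2 (hα1 i hi), ?_, Or.inl (tz_mem.2 h2)⟩
      rw [pair_mem_gr, Ordinal.rank_toZFSet]
      exact ⟨tz_mem.2 hi, rfl⟩
  -- stabilization
  obtain ⟨w, hw⟩ : ∃ w : Ordinal.{u} → Ordinal.{u} → Ordinal.{u}, w = fun i j =>
      sInf {b | ∀ v : Ordinal.{u}, v.toZFSet ∈ Ij Λ f j → v ≤ F α i → v < b} := ⟨_, rfl⟩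
  have hw1 : ∀ i j v, Ordinal.toZFSet v ∈ Ij Λ f j → v ≤ F α i → v < w i j := by
    intro i j v hv hv'
    have h1 := csInf_mem (s := {b | ∀ v : Ordinal.{u}, v.toZFSet ∈ Ij Λ f j → v ≤ F α i → v < b})
      ⟨Order.succ (F α i), fun v _ h => Order.lt_succ_iff.2 h⟩
    rw [hw]
    exact h1 v hv hv'
  have hw2 : ∀ i j b, (∀ v : Ordinal.{u}, v.toZFSet ∈ Ij Λ f j → v ≤ F α i → v < b) →
      w i j ≤ b := by
    intro i j b h1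
    rw [hw]
    exact csInf_le' h1
  have hw3 : ∀ i j j', j ≤ j' → w i j' ≤ w i j := by
    intro i j j' hjj
    refine hw2 i j' _ fun v hv hv' => hw1 i j v ?_ hv'
    rw [hImem] at hv ⊢
    exact ⟨hv.1, fun i' hi' => hv.2 i' (hi'.trans_le hjj)⟩
  have hst : ∀ i, ∃ j < K, ∀ j', j ≤ j' → j' < K → w i j' = w i j := by
    intro i
    obtain ⟨b, ⟨j, hj, rfl⟩, h1⟩ := WellFounded.has_min (wellFounded_lt (α := Ordinal.{u}))
      {b | ∃ j < K, b = w i j} ⟨_, 0, hK.1, rfl⟩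
    exact ⟨j, hj, fun j' hj' hj'K => le_antisymm (hw3 i j j' hj')
      (not_lt.1 (h1 _ ⟨j', hj'K, rfl⟩))⟩
  choose J hJ1 hJ2 using hst
  obtain ⟨j0, hj0, hj0'⟩ := hK.2.2 ρ hρK J fun i _ => hJ1 i
  have hj0s : Order.succ j0 < K := hK.2.1 j0 hj0
  have hD : ∀ v < α, Dl (Ij Λ f j0) A ρ.toZFSet α.toZFSet (Ordinal.toZFSet v) →
      v.toZFSet ∈ f j0 := by
    intro v hv h1
    obtain ⟨h2, i, hi, hiγ, h3, h4⟩ := (dl_iff hL (hIsub f j0) hαΛ).1 h1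
    have h5 : w i (Order.succ j0) = w i j0 := by
      rw [hJ2 i j0 (hj0' i hi).le hj0, hJ2 i _ ((hj0' i hi).le.trans (Order.le_succ _)) hj0s]
    by_contra h6
    have h7 : w i (Order.succ j0) ≤ v := by
      refine hw2 i _ _ fun v' hv' hv'' => ?_
      have h8 : v'.toZFSet ∈ Ij Λ f j0 := by
        rw [hImem] at hv' ⊢
        exact ⟨hv'.1, fun i' hi' => hv'.2 i' (hi'.trans (Order.lt_succ _))⟩
      refine lt_of_le_of_ne (h4 v' h8 hv'') fun h9 => h6 ?_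
      rw [← h9]
      exact ((hImem _ _ _).1 hv').2 j0 (Order.lt_succ _)
    rw [h5] at h7
    exact absurd (hw1 i j0 v h2 h3) (not_lt.2 h7)
  have hub : ∀ x < α, ∃ v < α, Dl (Ij Λ f j0) A ρ.toZFSet α.toZFSet (Ordinal.toZFSet v) ∧
      x < v := by
    intro x hx
    obtain ⟨k, hk, h1⟩ := hα3 x hx
    have h2 := hZI j0 hj0 _ (hXZ k (hk.trans hρΛ))
    obtain ⟨e, he⟩ : ∃ e, e = Ordinal.enumOrd T k := ⟨_, rfl⟩
    have heα : e < α := by rw [he]; exact hα1 k hk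
    rw [← he] at h1 h2
    obtain ⟨i, hi, h3⟩ := hL.cof α hαΛ e heα
    have hFα := hL.lt α hαΛ i hi
    obtain ⟨s, hs1, hs2⟩ := WellFounded.has_min (wellFounded_lt (α := Ordinal.{u}))
      {b | ∀ v : Ordinal.{u}, v.toZFSet ∈ Ij Λ f j0 → v ≤ F α i → v ≤ b}
      ⟨F α i, fun v _ h => h⟩
    have hsF : s ≤ F α i := not_lt.1 (hs2 _ fun v _ h => h)
    have hes : e ≤ s := hs1 e h2 h3
    have hsI : s.toZFSet ∈ Ij Λ f j0 := by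
      by_contra h4
      refine h4 ((hIclub f j0 (hj0.trans hKΛ) (fun i hi => (hf1 i (hi.trans hj0)).1)
        fun i hi => hfc i (hi.trans hj0)).2.2 _ (tz_mem.2 ((hsF.trans_lt hFα).trans hαΛ))
        ⟨_, tz_mem.2 (h1.trans_le hes), rfl⟩ fun y hy => ?_)
      obtain ⟨y, hy', rfl⟩ := Ordinal.mem_toZFSet_iff.1 hy
      have h5 : ¬ ∀ v : Ordinal.{u}, v.toZFSet ∈ Ij Λ f j0 → v ≤ F α i → v ≤ y :=
        fun h6 => hs2 y h6 hy'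
      push Not at h5
      obtain ⟨v, hv, hv', h6⟩ := h5
      refine ⟨_, hv, tz_mem.2 (lt_of_le_of_ne (hs1 v hv hv') fun h7 => h4 ?_), tz_mem.2 h6⟩
      rw [← h7]
      exact hv
    exact ⟨s, hsF.trans_lt hFα, (dl_iff hL (hIsub f j0) hαΛ).2 ⟨hsI, i, hi.trans_le hγρ, hi, hsF,
      fun w hw hw' => hs1 w hw hw'⟩, h1.trans_le hes⟩
  obtain ⟨_, h1⟩ := (bad_iff hS).1 (hfC j0 hj0).prop
  obtain ⟨v, hv, h2, h3⟩ := h1 _ (tz_mem.2 hαΛ) hCf fun x hx => by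
    obtain ⟨x, hx', rfl⟩ := Ordinal.mem_toZFSet_iff.1 hx
    obtain ⟨v, hv, h2, h3⟩ := hub x hx'
    exact ⟨_, tz_mem.2 hv, h2, tz_mem.2 h3⟩
  obtain ⟨v, hv', rfl⟩ := Ordinal.mem_toZFSet_iff.1 hv
  exact h3 (hD v hv' h2)

end Pool.Agent.H93.SV
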