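import Pool.Agent.H93.SV.Rec
import Pool.Agent.H93.SV.CG

/-!
Continuous sequences in `HOD` with closure properties.
-/

set_option autoImplicit false
set_option linter.unusedVariables false

namespace Pool.Agent.H93.SV

open ZFSet Gss969 Pool.Agent.H310.HD Pool.Agent.H93.HM Pool.Agent.H93.SC

universe u

variable {Λ η : Ordinal.{u}} {N : ZFSet.{u}}

/-- The condition on the next value. -/
def Nx (Q : ZFSet.{u} → ZFSet.{u} → ZFSet.{u} → ZFSet.{u} → Prop) (e L N G j y : ZFSet.{u}) : Prop :=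
  ∀ k ∈ j, ∃ w ∈ e, (∀ t ∈ e, (t ∈ w ↔ pair k t ∈ G)) ∧ (w ∈ y ∧ ((∀ m ∈ j, m ∈ k ∨ m = k) →
    ((∃ n ∈ N, w ∈ n ∧ (n ∈ y ∨ n = y)) ∧ ∀ α ∈ L, (∃ a ∈ e, Q G α k a) →
      ∃ a ∈ e, (a ∈ y ∨ a = y) ∧ Q G α k a)))

theorem dfn_Nx {Q : ZFSet.{u} → ZFSet.{u} → ZFSet.{u} → ZFSet.{u} → (ℕ → ZFSet.{u}) → Prop}
    (hQ : Dfn Gd.{u} (fun v => Q (v 0) (v 1) (v 2) (v 3) (fun n => v (n + 4))))
    (a b c d f g : ℕ) (s : ℕ → ℕ) : Dfn Gd.{u} (fun v => Nx (fun G α k x => Q G α k x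
      (fun n => v (s n))) (v a) (v b) (v c) (v d) (v f) (v g)) := by
  unfold Nx
  refine Dfn.ball Gd_Trs _ (Dfn.bex Gd_Trs _ (Dfn.and ?_ ((Dfn.mem _ _).and (Dfn.imp ?_
    (Dfn.and ?_ (Dfn.ball Gd_Trs _ (Dfn.imp ?_ ?_)))))))
  · exact Dfn.ball Gd_Trs _ (Dfn.iff (Dfn.mem _ _) (dfn_pm Gd_Trs _ _ _))
  · exact Dfn.ball Gd_Trs _ ((Dfn.mem _ _).or (Dfn.eq _ _))
  · exact Dfn.bex Gd_Trs _ ((Dfn.mem _ _).and ((Dfn.mem _ _).or (Dfn.eq _ _)))
  · refine Dfn.bex Gd_Trs _ ?_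
    exact Dfn_reindex hQ (fun n => if n = 0 then d + 4 else if n = 1 then 1 else
      if n = 2 then 3 else if n = 3 then 0 else s (n - 4) + 4)
  · refine Dfn.bex Gd_Trs _ (((Dfn.mem _ _).or (Dfn.eq _ _)).and ?_)
    exact Dfn_reindex hQ (fun n => if n = 0 then d + 4 else if n = 1 then 1 else
      if n = 2 then 3 else if n = 3 then 0 else s (n - 4) + 4)

/-- **Continuous sequences with closure properties.** -/
theorem exists_xi {Q : ZFSet.{u} → ZFSet.{u} → ZFSet.{u} → ZFSet.{u} → (ℕ → ZFSet.{u}) → Prop}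
    (hQ : Dfn Gd.{u} (fun v => Q (v 0) (v 1) (v 2) (v 3) (fun n => v (n + 4))))
    (qs : List ZFSet.{u}) (hqs : ∀ p ∈ qs, OD p) (hη : HODReg η) (hΛη : Λ < η) (hN : HOD N)
    (hNu : ∀ ξ < η, ∃ n < η, ξ < n ∧ n.toZFSet ∈ N) (hNη : N ⊆ η.toZFSet)
    (hΛlim : ∀ i < Λ, Order.succ i < Λ) :
    ∃ ξ : Ordinal.{u} → Ordinal.{u}, (∀ i < Λ, ξ i < η) ∧ (∀ i j, i < j → j < Λ → ξ i < ξ j) ∧
      (∀ j < Λ, (∀ i < j, Order.succ i < j) → ∀ v < ξ j, ∃ i < j, v ≤ ξ i) ∧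
      (∀ j < Λ, (∃ n, n.toZFSet ∈ N ∧ ξ j < n ∧ n ≤ ξ (Order.succ j)) ∧
        ∀ α < Λ, (∃ a < η, Q (Rl η (fun i => (ξ i).toZFSet) (Order.succ j)) (Ordinal.toZFSet α)
          (Ordinal.toZFSet j) (Ordinal.toZFSet a) (pl qs)) → ∃ a < η, a ≤ ξ (Order.succ j) ∧
          Q (Rl η (fun i => (ξ i).toZFSet) (Order.succ j)) (Ordinal.toZFSet α)
            (Ordinal.toZFSet j) (Ordinal.toZFSet a) (pl qs)) ∧
      HOD (Rl η (fun i => (ξ i).toZFSet) Λ) ∧ ∃ x < η, (∀ i < Λ, ξ i < x) ∧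
        ∀ y < x, ∃ i < Λ, y ≤ ξ i := by
  classical
  obtain ⟨QQ, hQQ⟩ : ∃ QQ : ZFSet.{u} → ZFSet.{u} → ZFSet.{u} → ZFSet.{u} → Prop, QQ =
    fun G α k a => Q G α k a (pl qs) := ⟨_, rfl⟩
  have hpsO : ∀ p ∈ (η.toZFSet :: Λ.toZFSet :: N :: qs), OD p := by
    intro p hp
    rw [List.mem_cons, List.mem_cons, List.mem_cons] at hp
    rcases hp with rfl | rfl | rfl | hp
    · exact OD_ord _
    · exact OD_ord _
    · exact hN.od
    · exact hqs p hp
  -- bounds of sequences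
  have hbd : ∀ j < η, ∀ f : Ordinal.{u} → ZFSet.{u}, HOD (Rl η f j) → (∀ i < j, ∃ x < η,
      f i = Ordinal.toZFSet x) → ∃ b < η, ∀ i < j, f i ∈ b.toZFSet := by
    intro j hj f hR hf
    obtain ⟨b, hb, h1⟩ := reg_bdd hη hj (A := fun i t v => ∀ w ∈ v 0,
      (∀ s ∈ v 0, (s ∈ w ↔ pair i s ∈ v 1)) → w ∈ t)
      (Dfn.ball Gd_Trs _ (Dfn.imp (Dfn.ball Gd_Trs _ (Dfn.iff (Dfn.mem _ _)
        (dfn_pm Gd_Trs _ _ _))) (Dfn.mem _ _))) [η.toZFSet, Rl η f j] (by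
        intro p hp
        simp only [List.mem_cons, List.not_mem_nil, or_false] at hp
        rcases hp with rfl | rfl
        · exact OD_ord _
        · exact hR.od) (by
        intro i hi
        obtain ⟨x, hx, h1⟩ := hf i hi
        refine ⟨_, hη.2.1 x hx, fun w hw h2 => ?_⟩
        have h3 : w = f i := by
          obtain ⟨w, hw', rfl⟩ := Ordinal.mem_toZFSet_iff.1 hw
          ext s
          constructor
          · intro hs
            exact (mem_Rl.1 ((h2 s ((isOrdinal_toZFSet η).1.mem_trans hs hw)).1 hs)).2.2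
          · intro hs
            have h4 : s ∈ η.toZFSet := by
              rw [h1] at hs
              exact (isOrdinal_toZFSet η).1.mem_trans hs (tz_mem.2 hx)
            exact (h2 s h4).2 (mem_Rl.2 ⟨hi, h4, hs⟩)
        rw [h3, h1]
        exact tz_mem.2 (Order.lt_succ x))
    refine ⟨b, hb, fun i hi => ?_⟩
    obtain ⟨t, ht, h2⟩ := h1 i hi
    obtain ⟨x, hx, h3⟩ := hf i hi
    have h4 := h2 (f i) (by rw [h3]; exact tz_mem.2 hx) fun s hs =>
      ⟨fun h => mem_Rl.2 ⟨hi, hs, h⟩, fun h => (mem_Rl.1 h).2.2⟩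
    exact (isOrdinal_toZFSet b).1.mem_trans h4 (tz_mem.2 ht)
  obtain ⟨f, hf1, hf2⟩ := set_rec (K := Λ) (L := η) (A := fun G j T v => T ∈ v 0 ∧
      (Nx (fun G α k a => Q G α k a (fun n => v (n + 3))) (v 0) (v 1) (v 2) G j T ∧
        ∀ y ∈ T, ¬ Nx (fun G α k a => Q G α k a (fun n => v (n + 3))) (v 0) (v 1) (v 2) G j y))
    (by
      refine (Dfn.mem _ _).and (Dfn.and (dfn_Nx hQ 3 4 5 0 1 2 (fun n => n + 6)) ?_)
      exact Dfn.ball Gd_Trs _ (dfn_Nx hQ 4 5 6 1 2 0 (fun n => n + 7)).not)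
    (η.toZFSet :: Λ.toZFSet :: N :: qs) hpsO
    (by
      rintro G j T T' hT hT' ⟨h1, h2, h3⟩ ⟨h1', h2', h3'⟩
      obtain ⟨x, hx, rfl⟩ := Ordinal.mem_toZFSet_iff.1 h1
      obtain ⟨x', hx', rfl⟩ := Ordinal.mem_toZFSet_iff.1 h1'
      rcases lt_trichotomy x x' with h4 | h4 | h4
      · exact absurd h2 (h3' _ (tz_mem.2 h4))
      · rw [h4]
      · exact absurd h2' (h3 _ (tz_mem.2 h4)))
    (by
      intro j hj f hf hR
      have hfx : ∀ i < j, ∃ x < η, f i = Ordinal.toZFSet x := by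
        intro i hi
        obtain ⟨x, hx, h1⟩ := Ordinal.mem_toZFSet_iff.1 (hf i hi).2.1
        exact ⟨x, hx, h1.symm⟩
      obtain ⟨b, hb, h1⟩ := hbd j (hj.trans hΛη) f (hR j le_rfl) hfx
      have h2 : ∃ y < η, Nx QQ η.toZFSet Λ.toZFSet N (Rl η f j) j.toZFSet
          (Ordinal.toZFSet y) := by
        by_cases hlast : ∃ k < j, ∀ m < j, m ≤ k
        · obtain ⟨k, hk, hlast⟩ := hlast
          obtain ⟨x, hx, h3⟩ := hfx k hk
          obtain ⟨n, hn, h4, h5⟩ := hNu x hx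
          obtain ⟨c, hc, h6⟩ := reg_bdd hη hΛη (A := fun α t v => ∀ a ∈ v 0,
            Q (v 1) α (v 2) a (fun n => v (n + 3)) → ∃ a ∈ t, Q (v 1) α (v 2) a
              (fun n => v (n + 3)))
            (by
              refine Dfn.ball Gd_Trs _ (Dfn.imp ?_ (Dfn.bex Gd_Trs _ ?_))
              · exact Dfn_reindex hQ (fun n => if n = 0 then 4 else if n = 1 then 1 else
                  if n = 2 then 5 else if n = 3 then 0 else n + 2)
              · exact Dfn_reindex hQ (fun n => if n = 0 then 5 else if n = 1 then 2 else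
                  if n = 2 then 6 else if n = 3 then 0 else n + 3))
            (η.toZFSet :: Rl η f j :: k.toZFSet :: qs) (by
              intro p hp
              rw [List.mem_cons, List.mem_cons, List.mem_cons] at hp
              rcases hp with rfl | rfl | rfl | hp
              · exact OD_ord _
              · exact (hR j le_rfl).od
              · exact OD_ord _
              · exact hqs p hp) (by
              intro α hα
              by_cases hex : ∃ a ∈ η.toZFSet, QQ (Rl η f j) (Ordinal.toZFSet α) k.toZFSet a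
              · obtain ⟨a, ha, h7⟩ := hex
                obtain ⟨a, ha', rfl⟩ := Ordinal.mem_toZFSet_iff.1 ha
                refine ⟨_, hη.2.1 a ha', fun a' _ _ => ⟨_, tz_mem.2 (Order.lt_succ a), ?_⟩⟩
                rw [hQQ] at h7
                exact h7
              · refine ⟨0, hη.1, fun a ha h7 => absurd ⟨a, ha, ?_⟩ hex⟩
                rw [hQQ]
                exact h7)
          refine ⟨max (max b n) c, max_lt (max_lt hb hn) hc, fun m hm => ?_⟩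
          obtain ⟨m, hm', rfl⟩ := Ordinal.mem_toZFSet_iff.1 hm
          obtain ⟨x', hx', h7⟩ := hfx m hm'
          refine ⟨f m, by rw [h7]; exact tz_mem.2 hx', fun t ht => ?_, ?_, fun hmax => ?_⟩
          · exact ⟨fun h => mem_Rl.2 ⟨hm', ht, h⟩, fun h => (mem_Rl.1 h).2.2⟩
          · have h8 := h1 m hm'
            rw [h7, tz_mem] at h8 ⊢
            exact h8.trans_le ((le_max_left _ _).trans (le_max_left _ _))
          · have h8 : m = k := by
              refine le_antisymm (hlast m hm') ?_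
              rcases hmax _ (tz_mem.2 hk) with h9 | h9
              · exact (tz_mem.1 h9).le
              · exact (Ordinal.toZFSet_injective h9).le
            subst h8
            have h9 : x' = x := Ordinal.toZFSet_injective (h7.symm.trans h3)
            refine ⟨⟨n.toZFSet, h5, ?_, le_tz.2 ((le_max_right _ _).trans (le_max_left _ _))⟩,
              fun α hα hex => ?_⟩
            · rw [h3]
              exact tz_mem.2 h4
            · obtain ⟨α, hα', rfl⟩ := Ordinal.mem_toZFSet_iff.1 hα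
              obtain ⟨a, ha, h10⟩ := hex
              obtain ⟨t, ht, h11⟩ := h6 α hα'
              rw [hQQ] at h10
              obtain ⟨a', ha', h12⟩ := h11 a ha h10
              obtain ⟨a', ha'', rfl⟩ := Ordinal.mem_toZFSet_iff.1 ha'
              have h13 : a' < c := ha''.trans ht
              refine ⟨_, tz_mem.2 (h13.trans hc), le_tz.2 (h13.le.trans (le_max_right _ _)), ?_⟩
              rw [hQQ]
              exact h12
        · refine ⟨b, hb, fun m hm => ?_⟩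
          obtain ⟨m, hm', rfl⟩ := Ordinal.mem_toZFSet_iff.1 hm
          obtain ⟨x', hx', h7⟩ := hfx m hm'
          refine ⟨f m, by rw [h7]; exact tz_mem.2 hx', fun t ht => ?_, h1 m hm', fun hmax => ?_⟩
          · exact ⟨fun h => mem_Rl.2 ⟨hm', ht, h⟩, fun h => (mem_Rl.1 h).2.2⟩
          · exact absurd ⟨m, hm', fun k hk => le_tz.1 (hmax _ (tz_mem.2 hk))⟩ hlast
      obtain ⟨y, ⟨hy, h3⟩, hmin⟩ := WellFounded.has_min (wellFounded_lt (α := Ordinal.{u}))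
        {y | y < η ∧ Nx QQ η.toZFSet Λ.toZFSet N (Rl η f j) j.toZFSet (Ordinal.toZFSet y)} h2
      rw [hQQ] at h3
      refine ⟨y.toZFSet, ord_sub hy.le, tz_mem.2 hy, h3, fun z hz h4 => ?_⟩
      obtain ⟨z, hz', rfl⟩ := Ordinal.mem_toZFSet_iff.1 hz
      refine hmin z ⟨hz'.trans hy, ?_⟩ hz'
      rw [hQQ]
      exact h4)
  obtain ⟨ξ, hξ⟩ : ∃ ξ : Ordinal.{u} → Ordinal.{u}, ξ = fun i => rank (f i) := ⟨_, rfl⟩
  have hfξ : ∀ i < Λ, ξ i < η ∧ f i = (ξ i).toZFSet := by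
    intro i hi
    obtain ⟨x, hx, h1⟩ := Ordinal.mem_toZFSet_iff.1 (hf1 i hi).2.1
    rw [hξ]
    simp only
    rw [← h1, Ordinal.rank_toZFSet]
    exact ⟨hx, rfl⟩
  have hRl : ∀ i ≤ Λ, Rl η f i = Rl η (fun i => (ξ i).toZFSet) i := fun i hi =>
    Rl_congr fun j hj => (hfξ j (hj.trans_le hi)).2
  have hA : ∀ j < Λ, Nx QQ η.toZFSet Λ.toZFSet N (Rl η f j) j.toZFSet (Ordinal.toZFSet (ξ j)) ∧
      ∀ y < ξ j, ¬ Nx QQ η.toZFSet Λ.toZFSet N (Rl η f j) j.toZFSet (Ordinal.toZFSet y) := by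
    intro j hj
    obtain ⟨_, _, h2, h3⟩ := hf1 j hj
    rw [(hfξ j hj).2] at h2 h3
    rw [hQQ]
    exact ⟨h2, fun y hy => h3 _ (tz_mem.2 hy)⟩
  have hW : ∀ j ≤ Λ, ∀ k < j, ∀ w ∈ η.toZFSet, (∀ t ∈ η.toZFSet,
      (t ∈ w ↔ pair (Ordinal.toZFSet k) t ∈ Rl η f j)) → w = (ξ k).toZFSet := by
    intro j hj k hk w hw h1
    obtain ⟨h2, h3⟩ := hfξ k (hk.trans_le hj)
    rw [← h3]
    ext s
    constructor
    · intro hs
      exact (mem_Rl.1 ((h1 s ((isOrdinal_toZFSet η).1.mem_trans hs hw)).1 hs)).2.2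
    · intro hs
      have h4 : s ∈ η.toZFSet := by
        rw [h3] at hs
        exact (isOrdinal_toZFSet η).1.mem_trans hs (tz_mem.2 h2)
      exact (h1 s h4).2 (mem_Rl.2 ⟨hk, h4, hs⟩)
  have hmono : ∀ i j, i < j → j < Λ → ξ i < ξ j := by
    intro i j hij hj
    obtain ⟨w, hw, h1, h2, _⟩ := (hA j hj).1 _ (tz_mem.2 hij)
    rw [hW j hj.le i hij w hw h1] at h2
    exact tz_mem.1 h2
  refine ⟨ξ, fun i hi => (hfξ i hi).1, hmono, fun j hj hlim v hv => ?_, fun j hj => ?_, ?_, ?_⟩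
  · by_contra h1
    push Not at h1
    refine (hA j hj).2 v hv fun k hk => ?_
    obtain ⟨k, hk', rfl⟩ := Ordinal.mem_toZFSet_iff.1 hk
    obtain ⟨h2, h3⟩ := hfξ k (hk'.trans hj)
    refine ⟨f k, by rw [h3]; exact tz_mem.2 h2, fun t ht => ?_, ?_, fun hmax => ?_⟩
    · exact ⟨fun h => mem_Rl.2 ⟨hk', ht, h⟩, fun h => (mem_Rl.1 h).2.2⟩
    · rw [h3]
      exact tz_mem.2 (h1 k hk')
    · exact absurd (le_tz.1 (hmax _ (tz_mem.2 (hlim k hk')))) (not_le.2 (Order.lt_succ k))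
  · have hj' := hΛlim j hj
    obtain ⟨w, hw, h1, h2, h3⟩ := (hA _ hj').1 _ (tz_mem.2 (Order.lt_succ j))
    rw [hW _ hj'.le j (Order.lt_succ j) w hw h1] at h2 h3
    obtain ⟨⟨n, hn, h4, h5⟩, h6⟩ := h3 fun m hm => by
      obtain ⟨m, hm', rfl⟩ := Ordinal.mem_toZFSet_iff.1 hm
      exact le_tz.2 (Order.lt_succ_iff.1 hm')
    obtain ⟨n, hn', rfl⟩ := Ordinal.mem_toZFSet_iff.1 (hNη hn)
    refine ⟨⟨n, hn, tz_mem.1 h4, le_tz.1 h5⟩, fun α hα hex => ?_⟩
    rw [← hRl _ hj'.le] at hex ⊢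
    obtain ⟨a, ha, h7⟩ := hex
    obtain ⟨a', ha', h8, h9⟩ := h6 _ (tz_mem.2 hα) ⟨_, tz_mem.2 ha, by rw [hQQ]; exact h7⟩
    obtain ⟨a', ha'', rfl⟩ := Ordinal.mem_toZFSet_iff.1 ha'
    rw [hQQ] at h9
    exact ⟨a', ha'', le_tz.1 h8, h9⟩
  · rw [← hRl Λ le_rfl]
    exact hf2 Λ le_rfl
  · obtain ⟨b, hb, h1⟩ := hbd Λ hΛη f (hf2 Λ le_rfl) fun i hi => ⟨_, hfξ i hi⟩
    have h2 : ∀ i < Λ, ξ i < b := by
      intro i hi
      have h3 := h1 i hi
      rw [(hfξ i hi).2] at h3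
      exact tz_mem.1 h3
    obtain ⟨x, hx1, hx2⟩ := WellFounded.has_min (wellFounded_lt (α := Ordinal.{u}))
      {b | ∀ i < Λ, ξ i < b} ⟨b, h2⟩
    refine ⟨x, (not_lt.1 (hx2 b h2)).trans_lt hb, hx1, fun y hy => ?_⟩
    by_contra h3
    push Not at h3
    exact hx2 y h3 hy

end Pool.Agent.H93.SV
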