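import Pool.Agent.H93.SV.Th
import Pool.Agent.H93.SV.Xi
import Pool.Agent.H93.SV.Lad2

/-!
The number of classes is bounded.
-/

set_option autoImplicit false
set_option linter.unusedVariables false

namespace Pool.Agent.H93.SV

open ZFSet Gss969 Pool.Agent.H310.HD Pool.Agent.H93.HM Pool.Agent.H93.SC

universe u

variable {κ η μ ζ Λ : Ordinal.{u}} {A H N : ZFSet.{u}}
  {F : Ordinal.{u} → Ordinal.{u} → Ordinal.{u}}
  {γ : Ordinal.{u} → Ordinal.{u}} {h p : Ordinal.{u} → Ordinal.{u} → Ordinal.{u}}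

/-- The value at `a` is above the values at the guessed points. -/
def Qr (κ η H A L B E r s G α k a : ZFSet.{u}) : Prop := ¬ StK κ η H (fun d q => Dm η A d q ∧
  ∃ g ∈ L, (g ∈ k ∨ g = k) ∧ (g ∈ α ∧ (Dl E B r α g ∧ ∃ w ∈ η,
    (∀ t ∈ η, (t ∈ w ↔ pair g t ∈ G)) ∧ ∃ j ∈ s, Th η A H a d q j ∧ ¬ Th η A H w d q j)))

theorem dfn_Qr : Dfn Gd.{u} (fun v => Qr (v 4) (v 5) (v 6) (v 7) (v 8) (v 9) (v 10) (v 11) (v 12)
    (v 0) (v 1) (v 2) (v 3)) := by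
  unfold Qr
  refine Dfn.not (dfn_StK 4 5 6 (A := fun d q v => Dm (v 5) (v 7) d q ∧
    ∃ g ∈ v 8, (g ∈ v 2 ∨ g = v 2) ∧ (g ∈ v 1 ∧ (Dl (v 10) (v 9) (v 11) (v 1) g ∧ ∃ w ∈ v 5,
      (∀ t ∈ v 5, (t ∈ w ↔ pair g t ∈ v 0)) ∧ ∃ j ∈ v 12, Th (v 5) (v 7) (v 6) (v 3) d q j ∧
        ¬ Th (v 5) (v 7) (v 6) w d q j))) ?_)
  refine (dfn_Dm _ _ _ _).and (Dfn.bex Gd_Trs _ (((Dfn.mem _ _).or (Dfn.eq _ _)).and
    ((Dfn.mem _ _).and ((dfn_Dl _ _ _ _ _).and (Dfn.bex Gd_Trs _ (Dfn.and ?_ ?_))))))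
  · exact Dfn.ball Gd_Trs _ (Dfn.iff (Dfn.mem _ _) (dfn_pm Gd_Trs _ _ _))
  · exact Dfn.bex Gd_Trs _ ((dfn_Th _ _ _ _ _ _ _).and (Dfn.not (dfn_Th _ _ _ _ _ _ _)))

theorem qr_iff (hcf : Cf μ.toZFSet κ.toZFSet) (hω : Ordinal.omega0 < μ) (hL : Lad η A F γ)
    (hH : ∀ α δ y : Ordinal.{u}, pair α.toZFSet (pair δ.toZFSet y.toZFSet) ∈ H ↔
      α < η ∧ δ < κ ∧ y = h δ α) (hh : ∀ δ < κ, ∀ α < η, h δ α < η)
    {f : Ordinal.{u} → Ordinal.{u}} (hfη : ∀ δ < κ, f δ < η) (hk : KV κ η h f)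
    (hpζ : ∀ α δ, p α δ ≤ ζ)
    (hp3 : ∀ α δ, ∀ j ≤ ζ, ((∃ i < j, i < γ (f δ) ∧ h δ α ≤ F (f δ) i) ↔ p α δ < j))
    {α β a ρ : Ordinal.{u}} {B E : ZFSet.{u}} {ξ : Ordinal.{u} → Ordinal.{u}}
    (hξ : ∀ i < Λ, ξ i < η) (hα : α < Λ) (hβ : β < Λ) (ha : a < η) :
    Qr κ.toZFSet η.toZFSet H A Λ.toZFSet B E ρ.toZFSet (Order.succ ζ).toZFSet
      (Rl η (fun i => (ξ i).toZFSet) (Order.succ β)) α.toZFSet β.toZFSet a.toZFSet ↔
    ¬ StatL {δ | γ (f δ) ≤ δ ∧ ∃ g ≤ β, g < α ∧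
      Dl E B ρ.toZFSet α.toZFSet (Ordinal.toZFSet g) ∧ p a δ < p (ξ g) δ} κ := by
  unfold Qr
  rw [stK_iff hcf hω hH hh hfη hk]
  refine not_congr ⟨fun h1 => h1.mono fun δ hδ h2 => ?_, fun h1 => h1.mono fun δ hδ h2 => ?_⟩
  · obtain ⟨h3, g, hg, h4, h5, h6, w, hw, h7, j, hj, h8, h9⟩ := h2
    obtain ⟨g, hg', rfl⟩ := Ordinal.mem_toZFSet_iff.1 hg
    obtain ⟨w, hw', rfl⟩ := Ordinal.mem_toZFSet_iff.1 hw
    obtain ⟨j, hj', rfl⟩ := Ordinal.mem_toZFSet_iff.1 hj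
    have hgβ := le_tz.1 h4
    have h10 : w = ξ g := by
      refine Ordinal.toZFSet_injective ?_
      ext t
      constructor
      · intro ht
        exact (mem_Rl.1 ((h7 t ((isOrdinal_toZFSet η).1.mem_trans ht hw)).1 ht)).2.2
      · intro ht
        have h11 : t ∈ η.toZFSet := (isOrdinal_toZFSet η).1.mem_trans ht (tz_mem.2 (hξ g hg'))
        exact (h7 t h11).2 (mem_Rl.2 ⟨Order.lt_succ_iff.2 hgβ, h11, ht⟩)
    rw [h10] at h9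
    rw [th_iff hL hH hh hδ ha (hfη δ hδ), hp3 _ _ j (Order.lt_succ_iff.1 hj')] at h8
    rw [th_iff hL hH hh hδ (hξ g hg') (hfη δ hδ), hp3 _ _ j (Order.lt_succ_iff.1 hj')] at h9
    exact ⟨(dm_iff hL (hfη δ hδ)).1 h3, g, hgβ, tz_mem.1 h5, h6, h8.trans_le (not_lt.1 h9)⟩
  · obtain ⟨h3, g, hgβ, h5, h6, h7⟩ := h2
    have hg' := hgβ.trans_lt hβ
    have h8 : Order.succ (p a δ) ≤ ζ := (Order.succ_le_of_lt h7).trans (hpζ _ _)
    refine ⟨(dm_iff hL (hfη δ hδ)).2 h3, _, tz_mem.2 hg', le_tz.2 hgβ, tz_mem.2 h5, h6, _,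
      tz_mem.2 (hξ g hg'), fun t ht => ⟨fun h9 => mem_Rl.2 ⟨Order.lt_succ_iff.2 hgβ, ht, h9⟩,
        fun h9 => (mem_Rl.1 h9).2.2⟩, _, tz_mem.2 (Order.lt_succ_iff.2 h8), ?_, ?_⟩
    · rw [th_iff hL hH hh hδ ha (hfη δ hδ), hp3 _ _ _ h8]
      exact Order.lt_succ _
    · rw [th_iff hL hH hh hδ (hξ g hg') (hfη δ hδ), hp3 _ _ _ h8]
      exact not_lt.2 (Order.succ_le_of_lt h7)

/-- The length of the ladder at a limit of a sequence in `HOD`. -/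
theorem gam_eq (hL : Lad η A F γ) (hΛ : RegUnc Λ.toZFSet) {ξ : Ordinal.{u} → Ordinal.{u}}
    {x : Ordinal.{u}} (hξη : ∀ i < Λ, ξ i < η)
    (hO : HOD (Rl η (fun i => (ξ i).toZFSet) Λ)) (hx : x < η) (hx1 : ∀ i < Λ, ξ i < x)
    (hx2 : ∀ y < x, ∃ i < Λ, y ≤ ξ i) (hm : ∀ i j, i < j → j < Λ → ξ i < ξ j) : γ x = Λ := by
  refine le_antisymm ?_ ?_
  · by_contra h1
    push Not at h1
    have hgm : ∀ i y : Ordinal.{u}, pair i.toZFSet y.toZFSet ∈ ZFSet.sep (fun p => ∃ a b,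
        p = pair a b ∧ ∀ t ∈ η.toZFSet, (t ∈ b ↔ pair a t ∈ Rl η (fun i => (ξ i).toZFSet) Λ))
        (prod Λ.toZFSet x.toZFSet) ↔ i < Λ ∧ y = ξ i := by
      intro i y
      rw [mem_rel (B := fun a b => ∀ t ∈ η.toZFSet, (t ∈ b ↔ pair a t ∈
        Rl η (fun i => (ξ i).toZFSet) Λ)), tz_mem, tz_mem]
      constructor
      · rintro ⟨h2, h3, h4⟩
        refine ⟨h2, Ordinal.toZFSet_injective ?_⟩
        ext t
        constructor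
        · intro ht
          exact (mem_Rl.1 ((h4 t ((isOrdinal_toZFSet η).1.mem_trans ht
            (tz_mem.2 (h3.trans hx)))).1 ht)).2.2
        · intro ht
          have h11 : t ∈ η.toZFSet := (isOrdinal_toZFSet η).1.mem_trans ht (tz_mem.2 (hξη i h2))
          exact (h4 t h11).2 (mem_Rl.2 ⟨h2, h11, ht⟩)
      · rintro ⟨h2, rfl⟩
        exact ⟨h2, hx1 i h2, fun t ht => ⟨fun h3 => mem_Rl.2 ⟨h2, ht, h3⟩,
          fun h3 => (mem_Rl.1 h3).2.2⟩⟩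
    refine hL.min x hx Λ h1 ⟨_, HOD_rel (A := fun a b v => ∀ t ∈ v 0, (t ∈ b ↔ pair a t ∈ v 1))
      ?_ Λ x [η.toZFSet, Rl η (fun i => (ξ i).toZFSet) Λ] ?_, ⟨fun p hp => (mem_sep.1 hp).1,
        fun a ha => ?_⟩, fun a ha => ?_⟩
    · exact Dfn.ball Gd_Trs _ (Dfn.iff (Dfn.mem _ _) (dfn_pm Gd_Trs _ _ _))
    · intro p hp
      simp only [List.mem_cons, List.not_mem_nil, or_false] at hp
      rcases hp with rfl | rfl
      · exact OD_ord _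
      · exact hO.od
    · obtain ⟨i, hi, rfl⟩ := Ordinal.mem_toZFSet_iff.1 ha
      refine ⟨_, (hgm i _).2 ⟨hi, rfl⟩, fun y hy => ?_⟩
      obtain ⟨y, _, rfl⟩ := Ordinal.mem_toZFSet_iff.1 (mem_rel.1 hy).2.1
      rw [((hgm i y).1 hy).2]
    · obtain ⟨y, hy, rfl⟩ := Ordinal.mem_toZFSet_iff.1 ha
      obtain ⟨i, hi, h2⟩ := hx2 y hy
      refine ⟨_, tz_mem.2 hi, _, tz_mem.2 (hx1 i hi), (hgm i _).2 ⟨hi, rfl⟩, le_tz.2 h2⟩
  · by_contra h1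
    push Not at h1
    have h2 : ∀ j < γ x, ∃ i < Λ, F x j ≤ ξ i := fun j hj => hx2 _ (hL.lt x hx j hj)
    choose! g hg1 hg2 using h2
    obtain ⟨b, hb, h3⟩ := RegUnc.uc hΛ _ h1 g hg1
    obtain ⟨j, hj, h4⟩ := hL.cof x hx (ξ b) (hx1 b hb)
    exact absurd (h4.trans (hg2 j hj)) (not_le.2 (hm _ _ (h3 j hj) hb))

/-- The points where the sequence agrees with the ladder form a closed unbounded set. -/
theorem club_agree (hL : Lad η A F γ) (hC : LCont η F γ) (hΛ : RegUnc Λ.toZFSet)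
    {ξ : Ordinal.{u} → Ordinal.{u}} {x : Ordinal.{u}} (hξη : ∀ i < Λ, ξ i < η)
    (hO : HOD (Rl η (fun i => (ξ i).toZFSet) Λ)) (hx : x < η) (hx1 : ∀ i < Λ, ξ i < x)
    (hx2 : ∀ y < x, ∃ i < Λ, y ≤ ξ i) (hm : ∀ i j, i < j → j < Λ → ξ i < ξ j)
    (hcont : ∀ j < Λ, (∀ i < j, Order.succ i < j) → ∀ v < ξ j, ∃ i < j, v ≤ ξ i) :
    ∃ E, HOD E ∧ E ⊆ Λ.toZFSet ∧ Club E Λ.toZFSet ∧ ∀ i : Ordinal.{u}, i.toZFSet ∈ E →
      (∀ j < i, Order.succ j < i) ∧ F x i = ξ i := by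
  have hγ : γ x = Λ := gam_eq hL hΛ hξη hO hx hx1 hx2 hm
  have hΛlim : ∀ i < Λ, Order.succ i < Λ := fun i hi => hΛ.succ_lt hi
  obtain ⟨hc1, hc2⟩ := hC x hx (by rw [hγ]; exact hΛlim)
  rw [hγ] at hc1 hc2
  obtain ⟨E, hE⟩ : ∃ E : ZFSet.{u}, E = ZFSet.sep (fun i => (∀ j ∈ i, ∃ k ∈ i, j ∈ k) ∧
      ∃ w ∈ η.toZFSet, pair x.toZFSet (pair i w) ∈ A ∧ ∀ t ∈ η.toZFSet, (t ∈ w ↔
        pair i t ∈ Rl η (fun i => (ξ i).toZFSet) Λ)) Λ.toZFSet := ⟨_, rfl⟩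
  have hEm : ∀ i : Ordinal.{u}, i.toZFSet ∈ E ↔ i < Λ ∧ (∀ j < i, Order.succ j < i) ∧
      F x i = ξ i := by
    intro i
    rw [hE, mem_sep, tz_mem]
    refine and_congr_right fun hi => and_congr ⟨fun h1 j hj => ?_, fun h1 j hj => ?_⟩
      ⟨fun h1 => ?_, fun h1 => ?_⟩
    · obtain ⟨k, hk, h2⟩ := h1 _ (tz_mem.2 hj)
      obtain ⟨k, hk', rfl⟩ := Ordinal.mem_toZFSet_iff.1 hk
      exact (Order.succ_le_of_lt (tz_mem.1 h2)).trans_lt hk'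
    · obtain ⟨j, hj', rfl⟩ := Ordinal.mem_toZFSet_iff.1 hj
      exact ⟨_, tz_mem.2 (h1 j hj'), tz_mem.2 (Order.lt_succ j)⟩
    · obtain ⟨w, hw, h2, h3⟩ := h1
      obtain ⟨w, hw', rfl⟩ := Ordinal.mem_toZFSet_iff.1 hw
      rw [← ((hL.mem _ _ _).1 h2).2.2]
      refine Ordinal.toZFSet_injective ?_
      ext t
      constructor
      · intro ht
        exact (mem_Rl.1 ((h3 t ((isOrdinal_toZFSet η).1.mem_trans ht hw)).1 ht)).2.2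
      · intro ht
        have h11 : t ∈ η.toZFSet := (isOrdinal_toZFSet η).1.mem_trans ht (tz_mem.2 (hξη i hi))
        exact (h3 t h11).2 (mem_Rl.2 ⟨hi, h11, ht⟩)
    · exact ⟨_, tz_mem.2 (hξη i hi), (hL.mem _ _ _).2 ⟨hx, by rw [hγ]; exact hi, h1.symm⟩,
        fun t ht => ⟨fun h3 => mem_Rl.2 ⟨hi, ht, h3⟩, fun h3 => (mem_Rl.1 h3).2.2⟩⟩
  refine ⟨E, ?_, fun y hy => ?_, ⟨fun y hy => ?_, fun y hy => ?_, fun a ha hne hl => ?_⟩,
    fun i hi => ((hEm i).1 hi).2⟩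
  · rw [hE]
    refine HOD_sepG (A := fun i v => (∀ j ∈ i, ∃ k ∈ i, j ∈ k) ∧ ∃ w ∈ v 0,
      pair (v 1) (pair i w) ∈ v 2 ∧ ∀ t ∈ v 0, (t ∈ w ↔ pair i t ∈ v 3)) ?_ (HOD_ord Λ)
      [η.toZFSet, x.toZFSet, A, Rl η (fun i => (ξ i).toZFSet) Λ] ?_
    · refine Dfn.and (Dfn.ball Gd_Trs _ (Dfn.bex Gd_Trs _ (Dfn.mem _ _))) (Dfn.bex Gd_Trs _
        ((dfn_pm3 _ _ _ _).and (Dfn.ball Gd_Trs _ (Dfn.iff (Dfn.mem _ _)
          (dfn_pm Gd_Trs _ _ _)))))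
    · intro p hp
      simp only [List.mem_cons, List.not_mem_nil, or_false] at hp
      rcases hp with rfl | rfl | rfl | rfl
      · exact OD_ord _
      · exact OD_ord _
      · exact hL.hod.od
      · exact hO.od
  · rw [hE] at hy
    exact (mem_sep.1 hy).1
  · rw [hE] at hy
    exact (mem_sep.1 hy).1
  · obtain ⟨i0, hi0, rfl⟩ := Ordinal.mem_toZFSet_iff.1 hy
    have h1 : ∀ i < Λ, ∃ b < Λ, i < b ∧ F x i ≤ ξ b ∧ ξ i ≤ F x b := by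
      intro i hi
      obtain ⟨b1, hb1, h2⟩ := hx2 _ (hL.lt x hx i (by rw [hγ]; exact hi))
      obtain ⟨b2, hb2, h3⟩ := hL.cof x hx _ (hx1 i hi)
      rw [hγ] at hb2
      obtain ⟨b, hb⟩ : ∃ b, b = max (Order.succ i) (max b1 b2) := ⟨_, rfl⟩
      have hbΛ : b < Λ := by rw [hb]; exact max_lt (hΛlim i hi) (max_lt hb1 hb2)
      have hb1' : b1 ≤ b := by rw [hb]; exact (le_max_left _ _).trans (le_max_right _ _)
      have hb2' : b2 ≤ b := by rw [hb]; exact (le_max_right _ _).trans (le_max_right _ _)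
      refine ⟨b, hbΛ, by rw [hb]; exact (Order.lt_succ i).trans_le (le_max_left _ _), ?_, ?_⟩
      · rcases hb1'.lt_or_eq with h4 | h4
        · exact h2.trans (hm _ _ h4 hbΛ).le
        · rw [← h4]; exact h2
      · exact h3.trans (hc1 _ _ hb2' hbΛ)
    choose! B hB1 hB2 hB3 hB4 using h1
    let G : ℕ → Ordinal.{u} := fun n => Nat.rec (Order.succ i0) (fun _ γ => B γ) n
    have hG : ∀ n, G n < Λ := by
      intro n
      induction n with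
      | zero => exact hΛlim _ hi0
      | succ n ih => exact hB1 _ ih
    have hGs : ∀ n, G n < G (n + 1) := fun n => hB2 _ (hG n)
    obtain ⟨a, ha, ha1, ha2⟩ := exists_supU (RegUnc.uc hΛ) hΛ.om_lt hG hGs
    have halim : ∀ j < a, Order.succ j < a := by
      intro j hj
      obtain ⟨n, hn⟩ := ha2 j hj
      exact (Order.succ_le_of_lt hn).trans_lt (ha1 n)
    refine ⟨_, (hEm a).2 ⟨ha, halim, ?_⟩, tz_mem.2 ((Order.lt_succ i0).trans (ha1 0))⟩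
    refine le_antisymm (le_of_forall_lt fun v hv => ?_) (le_of_forall_lt fun v hv => ?_)
    · obtain ⟨j, hj, h2⟩ := hc2 a ha halim v hv
      obtain ⟨n, hn⟩ := ha2 j hj
      have h3 := hc1 _ _ hn.le (hG n)
      have h4 := hB3 _ (hG n)
      exact ((h2.trans_le h3).trans_le h4).trans (hm _ _ (ha1 (n + 1)) ha)
    · obtain ⟨j, hj, h2⟩ := hcont a ha halim v hv
      obtain ⟨n, hn⟩ := ha2 j hj
      have h3 := hm _ _ hn (hG n)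
      have h4 := hB4 _ (hG n)
      exact ((h2.trans_lt h3).trans_le h4).trans_le (hc1 _ _ (ha1 (n + 1)).le ha)
  · obtain ⟨i, hi, rfl⟩ := Ordinal.mem_toZFSet_iff.1 ha
    have h1 : ∀ j < i, ∃ k < i, j < k ∧ k.toZFSet ∈ E := by
      intro j hj
      obtain ⟨c, hc, h2, h3⟩ := hl _ (tz_mem.2 hj)
      obtain ⟨c, hc', rfl⟩ := Ordinal.mem_toZFSet_iff.1 h2
      exact ⟨c, hc', tz_mem.1 h3, hc⟩
    have hilim : ∀ j < i, Order.succ j < i := by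
      intro j hj
      obtain ⟨k, hk, h2, _⟩ := h1 j hj
      exact (Order.succ_le_of_lt h2).trans_lt hk
    refine (hEm i).2 ⟨hi, hilim, ?_⟩
    refine le_antisymm (le_of_forall_lt fun v hv => ?_) (le_of_forall_lt fun v hv => ?_)
    · obtain ⟨j, hj, h2⟩ := hc2 i hi hilim v hv
      obtain ⟨k, hk, h3, h4⟩ := h1 j hj
      have h5 := hc1 _ _ h3.le (hk.trans hi)
      rw [((hEm k).1 h4).2.2] at h5
      exact (h2.trans_le h5).trans (hm _ _ hk hi)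
    · obtain ⟨j, hj, h2⟩ := hcont i hi hilim v hv
      obtain ⟨k, hk, h3, h4⟩ := h1 j hj
      have h5 := hm _ _ h3 (hk.trans hi)
      rw [← ((hEm k).1 h4).2.2] at h5
      exact (h2.trans_lt h5).trans_le (hc1 _ _ hk.le hi)

/-- **The number of classes is bounded.** -/
theorem nbdd (hcf : Cf μ.toZFSet κ.toZFSet) (hω : Ordinal.omega0 < μ) (hκη : κ < η)
    (hreg : HODReg η) (hL : Lad η A F γ) (hC : LCont η F γ) (hHO : HOD H)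
    (hH : ∀ α δ y : Ordinal.{u}, pair α.toZFSet (pair δ.toZFSet y.toZFSet) ∈ H ↔
      α < η ∧ δ < κ ∧ y = h δ α) (hh : ∀ δ < κ, ∀ α < η, h δ α < η)
    (htail : ∀ α < η, ∀ β < α, ∃ t < κ, ∀ δ, t < δ → h δ β < h δ α)
    (hstepF : ∀ x < η, ∀ i < γ x, ∀ δ, i < δ → h δ (F x i) < h δ x)
    {f : Ordinal.{u} → Ordinal.{u}} (hfη : ∀ δ < κ, f δ < η) (hk : KV κ η h f)
    (hκc : IsCard κ.toZFSet) (hμκ : μ < κ) (hζ : ζ < κ) (hpζ : ∀ α δ, p α δ ≤ ζ)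
    (hp3 : ∀ α δ, ∀ j ≤ ζ, ((∃ i < j, i < γ (f δ) ∧ h δ α ≤ F (f δ) i) ↔ p α δ < j))
    (hpm : ∀ α β δ, h δ α ≤ h δ β → p α δ ≤ p β δ) (hNO : HOD N) (hNη : N ⊆ η.toZFSet)
    (hND : ∀ n < η, n.toZFSet ∈ N → ∀ β < n, StatL {δ | γ (f δ) ≤ δ ∧ p β δ ≠ p n δ} κ) :
    ∃ ξ < η, ∀ x < η, x.toZFSet ∈ N → x ≤ ξ := by
  classical
  by_contra hcon
  push Not at hcon
  have hlim := hcf.lim
  have huc := hcf.uc
  obtain ⟨D, hD⟩ := club_small hcf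
  have hμ0 : Cardinal.aleph0 ≤ μ.card := by
    have := Ordinal.card_le_card hω.le
    rwa [Ordinal.card_omega0] at this
  obtain ⟨σ, hσ⟩ : ∃ σ, σ = max μ.card (Order.succ ζ).card := ⟨_, rfl⟩
  have hσ0 : Cardinal.aleph0 ≤ σ := by rw [hσ]; exact hμ0.trans (le_max_left _ _)
  have hσκ : σ < κ.card := by
    rw [hσ]
    exact max_lt (hκc.card_lt hμκ) (hκc.card_lt (hlim ζ hζ))
  have hnext : ∀ c : Cardinal.{u}, Cardinal.aleph0 ≤ c → c < κ.card →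
      Cardinal.aleph0 ≤ Order.succ c ∧ Order.succ c < κ.card := by
    intro c hc1 hc2
    have h1 := hκc.card_lt (lim_ord hκc hcf hμκ hc1 hc2)
    rw [Cardinal.card_ord] at h1
    exact ⟨hc1.trans (Order.le_succ _), h1⟩
  have hro : ∀ c : Cardinal.{u}, Cardinal.aleph0 ≤ c → RegUnc (Order.succ c).ord.toZFSet :=
    fun c hc => regUnc_ord (Cardinal.isRegular_succ hc) (hc.trans_lt (Order.lt_succ _))
  obtain ⟨σ1, hσ1⟩ : ∃ σ1, σ1 = Order.succ σ := ⟨_, rfl⟩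
  obtain ⟨σ2, hσ2⟩ : ∃ σ2, σ2 = Order.succ σ1 := ⟨_, rfl⟩
  obtain ⟨h10, h11⟩ := hnext σ hσ0 hσκ
  rw [← hσ1] at h10 h11
  obtain ⟨h20, h21⟩ := hnext σ1 h10 h11
  rw [← hσ2] at h20 h21
  obtain ⟨ρ, hρ⟩ : ∃ ρ, ρ = (Order.succ σ).ord := ⟨_, rfl⟩
  obtain ⟨K, hK⟩ : ∃ K, K = (Order.succ σ1).ord := ⟨_, rfl⟩
  obtain ⟨Λ, hΛ⟩ : ∃ Λ, Λ = (Order.succ σ2).ord := ⟨_, rfl⟩
  have hρr : RegUnc ρ.toZFSet := by rw [hρ]; exact hro σ hσ0
  have hKr : RegUnc K.toZFSet := by rw [hK]; exact hro σ1 h10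
  have hΛr : RegUnc Λ.toZFSet := by rw [hΛ]; exact hro σ2 h20
  have hΛκ : Λ < κ := by rw [hΛ]; exact lim_ord hκc hcf hμκ h20 h21
  have hρK : ρ < K := by
    rw [hρ, hK, ← hσ1]
    exact Cardinal.ord_lt_ord.2 (Order.lt_succ _)
  have hKΛ : K < Λ := by
    rw [hK, hΛ, ← hσ2]
    exact Cardinal.ord_lt_ord.2 (Order.lt_succ _)
  have hΛlim : ∀ i < Λ, Order.succ i < Λ := fun i hi => hΛr.succ_lt hi
  have hρlim : ∀ i < ρ, Order.succ i < ρ := fun i hi => hρr.succ_lt hi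
  have hΛη : Λ < η := hΛκ.trans hκη
  -- club guessing
  obtain ⟨A1, F1, γ1, hL1⟩ := exists_lad Λ
  obtain ⟨E0, hE0O, hE0s, hE0c, hguess⟩ := club_guess hΛr (RegUnc.rg hKr) hKΛ hρK
    (cf_of_regUnc hρr) hρr.pos hL1
  -- the sequence
  obtain ⟨ξ, hξη, hξm, hξc, hξ4, hξO, x, hx, hx1, hx2⟩ := exists_xi
    (Q := fun G α k a v => Qr (v 0) (v 1) (v 2) (v 3) (v 4) (v 5) (v 6) (v 7) (v 8) G α k a)
    dfn_Qr [κ.toZFSet, η.toZFSet, H, A, Λ.toZFSet, A1, E0, ρ.toZFSet, (Order.succ ζ).toZFSet]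
    (by
      intro q hq
      simp only [List.mem_cons, List.not_mem_nil, or_false] at hq
      rcases hq with rfl | rfl | rfl | rfl | rfl | rfl | rfl | rfl | rfl
      · exact OD_ord _
      · exact OD_ord _
      · exact hHO.od
      · exact hL.hod.od
      · exact OD_ord _
      · exact hL1.hod.od
      · exact hE0O.od
      · exact OD_ord _
      · exact OD_ord _) hreg hΛη hNO (fun ξ hξ => by
      obtain ⟨n, hn, h1, h2⟩ := hcon ξ hξ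
      exact ⟨n, hn, h2, h1⟩) hNη hΛlim
  have hξ4' : ∀ j < Λ, (∃ n : Ordinal.{u}, n.toZFSet ∈ N ∧ ξ j < n ∧ n ≤ ξ (Order.succ j)) ∧
      ∀ α < Λ, (∃ a < η, Qr κ.toZFSet η.toZFSet H A Λ.toZFSet A1 E0 ρ.toZFSet
        (Order.succ ζ).toZFSet (Rl η (fun i => (ξ i).toZFSet) (Order.succ j))
          (Ordinal.toZFSet α) (Ordinal.toZFSet j) (Ordinal.toZFSet a)) →
        ∃ a < η, a ≤ ξ (Order.succ j) ∧ Qr κ.toZFSet η.toZFSet H A Λ.toZFSet A1 E0 ρ.toZFSet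
        (Order.succ ζ).toZFSet (Rl η (fun i => (ξ i).toZFSet) (Order.succ j))
          (Ordinal.toZFSet α) (Ordinal.toZFSet j) (Ordinal.toZFSet a) := hξ4
  have hγ : γ x = Λ := gam_eq hL hΛr hξη hξO hx hx1 hx2 hξm
  obtain ⟨E, hEO, hEs, hEc, hEm⟩ := club_agree hL hC hΛr hξη hξO hx hx1 hx2 hξm hξc
  obtain ⟨α, hα, hαc, hub, hCE⟩ := hguess E hEO hEs hEc
  have hqr : ∀ β < Λ, ∀ a < η, (Qr κ.toZFSet η.toZFSet H A Λ.toZFSet A1 E0 ρ.toZFSet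
      (Order.succ ζ).toZFSet (Rl η (fun i => (ξ i).toZFSet) (Order.succ β))
          (Ordinal.toZFSet α) (Ordinal.toZFSet β) (Ordinal.toZFSet a) ↔
      ¬ StatL {δ | γ (f δ) ≤ δ ∧ ∃ g ≤ β, g < α ∧
        Dl E0 A1 ρ.toZFSet α.toZFSet (Ordinal.toZFSet g) ∧ p a δ < p (ξ g) δ} κ) :=
    fun β hβ a ha => qr_iff hcf hω hL hH hh hfη hk hpζ hp3 hξη hα hβ ha
  -- the guessed points
  obtain ⟨W, hW⟩ : ∃ W : ZFSet.{u}, W = ZFSet.sep (fun v => Dl E0 A1 ρ.toZFSet α.toZFSet v)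
    α.toZFSet := ⟨_, rfl⟩
  have hWm : ∀ v : Ordinal.{u}, v.toZFSet ∈ W ↔ v < α ∧
      Dl E0 A1 ρ.toZFSet α.toZFSet v.toZFSet := by
    intro v
    rw [hW, mem_sep, tz_mem]
  obtain ⟨T, hT⟩ : ∃ T : Set Ordinal.{u}, T = {v | v.toZFSet ∈ W ∨ α ≤ v} := ⟨_, rfl⟩
  have hTb : ¬ BddAbove T := by rw [hT]; exact notBdd_aux W
  have hmono := Ordinal.enumOrd_strictMono hTb
  obtain ⟨X, hX⟩ : ∃ X : Ordinal.{u} → Ordinal.{u}, X = Ordinal.enumOrd T := ⟨_, rfl⟩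
  rw [← hX] at hmono
  have hXα : ∀ i < ρ, X i < α := by
    intro i
    induction i using WellFoundedLT.induction with
    | ind i ih =>
      intro hi
      obtain ⟨b, hb, hb'⟩ := hαc.uc i hi X fun j hj => ih j hj (hj.trans hi)
      obtain ⟨v, hv, h1, h2⟩ := hub b hb
      have h3 : v ∈ T := by
        rw [hT]
        exact Or.inl ((hWm v).2 ⟨hv, h1⟩)
      rw [hX] at hb' ⊢
      exact (Ordinal.enumOrd_le_of_forall_lt h3 fun j hj => (hb' j hj).trans h2).trans_lt hv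
  have hXD : ∀ i < ρ, Dl E0 A1 ρ.toZFSet α.toZFSet (X i).toZFSet := by
    intro i hi
    have h1 := Ordinal.enumOrd_mem hTb i
    rw [← hX] at h1
    rw [hT] at h1
    rcases h1 with h1 | h1
    · exact ((hWm _).1 h1).2
    · exact absurd h1 (not_le.2 (hXα i hi))
  have hXΛ : ∀ i < ρ, X i < Λ := fun i hi => (hXα i hi).trans hα
  have hXE : ∀ i < ρ, (∀ j < X i, Order.succ j < X i) ∧ F x (X i) = ξ (X i) := fun i hi =>
    hEm _ (hCE _ (hXα i hi) (hXD i hi))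
  have hX2 : ∀ i < ρ, Order.succ (Order.succ (X i)) < X (Order.succ i) := by
    intro i hi
    have h1 := (hXE _ (hρlim i hi)).1
    exact h1 _ (h1 _ (hmono (Order.lt_succ i)))
  -- the suprema
  obtain ⟨q, hq⟩ : ∃ q : Ordinal.{u} → Ordinal.{u} → Ordinal.{u}, q = fun i δ =>
      sInf {b | ∀ g ≤ X i, g < α → Dl E0 A1 ρ.toZFSet α.toZFSet (Ordinal.toZFSet g) →
        p (ξ g) δ ≤ b} := ⟨_, rfl⟩
  have hq1 : ∀ i δ, ∀ g ≤ X i, g < α → Dl E0 A1 ρ.toZFSet α.toZFSet (Ordinal.toZFSet g) →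
      p (ξ g) δ ≤ q i δ := by
    intro i δ
    have h1 := csInf_mem (s := {b | ∀ g ≤ X i, g < α → Dl E0 A1 ρ.toZFSet α.toZFSet
      (Ordinal.toZFSet g) → p (ξ g) δ ≤ b}) ⟨ζ, fun g _ _ _ => hpζ _ _⟩
    rw [hq]
    exact h1
  have hq2 : ∀ i δ b, (∀ g ≤ X i, g < α → Dl E0 A1 ρ.toZFSet α.toZFSet (Ordinal.toZFSet g) →
      p (ξ g) δ ≤ b) → q i δ ≤ b := by
    intro i δ b h1
    rw [hq]
    exact csInf_le' h1
  have hqζ : ∀ i δ, q i δ ≤ ζ := fun i δ => hq2 i δ ζ fun g _ _ _ => hpζ _ _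
  have hqm : ∀ i j δ, i ≤ j → q i δ ≤ q j δ := fun i j δ hij => hq2 i δ _
    fun g hg h1 h2 => hq1 j δ g (hg.trans (hmono.monotone hij)) h1 h2
  have hle : ∀ a b : Ordinal.{u}, a ≤ b → b < η → ∃ t < κ, ∀ δ, t < δ → p a δ ≤ p b δ := by
    intro a b hab hb
    rcases hab.lt_or_eq with h1 | h1
    · obtain ⟨t, ht, h2⟩ := htail b hb a h1
      exact ⟨t, ht, fun δ hδ => hpm _ _ _ (h2 δ hδ).le⟩
    · exact ⟨0, bot_le.trans_lt hζ, fun δ _ => by rw [h1]⟩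
  have hstep : ∀ i < ρ, ∃ m < μ, q i (D m) < q (Order.succ i) (D m) := by
    intro i hi
    have hi' := hρlim i hi
    have hXi := hXΛ i hi
    have hXs := hΛlim _ hXi
    have hXss := hΛlim _ hXs
    -- the bound at `x`
    have h1 : ¬ StatL {δ | γ (f δ) ≤ δ ∧ ∃ g ≤ X i, g < α ∧
        Dl E0 A1 ρ.toZFSet α.toZFSet (Ordinal.toZFSet g) ∧ p x δ < p (ξ g) δ} κ := by
      refine not_stat_bdd hlim hΛκ fun δ hδ hΛδ h2 => ?_
      obtain ⟨_, g, hg, h3, h4, h5⟩ := h2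
      have hgΛ := h3.trans hα
      have h6 := hstepF x hx g (by rw [hγ]; exact hgΛ) δ (hgΛ.trans hΛδ)
      rw [(hEm g (hCE g h3 h4)).2] at h6
      exact absurd (hpm _ _ δ h6.le) (not_le.2 h5)
    obtain ⟨a, ha, haξ, h2⟩ := (hξ4' (X i) hXi).2 α hα ⟨x, hx, (hqr _ hXi x hx).2 h1⟩
    rw [hqr _ hXi a ha] at h2
    obtain ⟨n, hnN, hn1, hn2⟩ := (hξ4' _ hXs).1
    have hn : n < η := hn2.trans_lt (hξη _ hXss)
    have h3 := hND n hn hnN _ hn1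
    have h4 : StatL {δ | δ ∈ {δ | γ (f δ) ≤ δ ∧ p (ξ (Order.succ (X i))) δ ≠ p n δ} ∧
        ¬ ∃ g ≤ X i, g < α ∧ Dl E0 A1 ρ.toZFSet α.toZFSet (Ordinal.toZFSet g) ∧
          p a δ < p (ξ g) δ} κ := by
      rcases statTwo hlim huc hω h3 (fun δ => ∃ g ≤ X i, g < α ∧
        Dl E0 A1 ρ.toZFSet α.toZFSet (Ordinal.toZFSet g) ∧ p a δ < p (ξ g) δ) with h5 | h5
      · exact (h2 (h5.mono fun δ _ h6 => ⟨h6.1.1, h6.2⟩)).elim
      · exact h5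
    have h5 : n ≤ ξ (X (Order.succ i)) := hn2.trans (hξm _ _ (hX2 i hi) (hXΛ _ hi')).le
    obtain ⟨t1, ht1, h6⟩ := hle _ _ haξ (hξη _ hXs)
    obtain ⟨t2, ht2, h7⟩ := hle _ _ hn1.le hn
    obtain ⟨t3, ht3, h8⟩ := hle _ _ h5 (hξη _ (hXΛ _ hi'))
    obtain ⟨δ, hδ, ⟨⟨⟨_, h9⟩, h10⟩, h11⟩, h12⟩ := stat_tail hlim hcf hω
      (max_lt ht1 (max_lt ht2 ht3)) h4 _ (fun z hz => (mem_sep.1 hz).1) hD
    obtain ⟨_, m, hm, h13⟩ := mem_sep.1 h12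
    have h14 := Ordinal.toZFSet_injective h13
    push Not at h10
    have h15 := h6 δ ((le_max_left _ _).trans_lt h11)
    have h16 := h7 δ (((le_max_left _ _).trans (le_max_right _ _)).trans_lt h11)
    have h17 := h8 δ (((le_max_right _ _).trans (le_max_right _ _)).trans_lt h11)
    have h18 : q i δ ≤ p a δ := hq2 i δ _ h10
    have h19 := hq1 (Order.succ i) δ _ le_rfl (hXα _ hi') (hXD _ hi')
    refine ⟨m, hm, ?_⟩
    rw [← h14]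
    exact (h18.trans_lt (h15.trans_lt (lt_of_le_of_ne h16 h9))).trans_le (h17.trans h19)
  choose! m hm1 hm2 using hstep
  have key : ∀ i j, i < j → j < ρ → m i = m j →
      q i (D (m i)) = q j (D (m j)) → False := by
    intro i j hij hj h1 h2
    have h3 := hm2 i (hij.trans hj)
    rw [h2, ← h1] at h3
    exact absurd (h3.trans_le (hqm _ _ _ (Order.succ_le_of_lt hij))) (lt_irrefl _)
  have hinj : Cardinal.mk (Set.Iio ρ) ≤
      Cardinal.mk (Set.Iio μ × Set.Iio (Order.succ ζ)) := by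
    refine Cardinal.mk_le_of_injective (f := fun i => (⟨m i.1, hm1 i.1 i.2⟩,
      ⟨q i.1 (D (m i.1)), Order.lt_succ_iff.2 (hqζ _ _)⟩)) ?_
    rintro ⟨i, hi⟩ ⟨j, hj⟩ hij
    have hij1 : m i = m j := congrArg (fun q => q.1.1) hij
    have hij2 : q i (D (m i)) = q j (D (m j)) := congrArg (fun q => q.2.1) hij
    rcases lt_trichotomy i j with h3 | h3 | h3
    · exact (key i j h3 hj hij1 hij2).elim
    · exact Subtype.ext h3
    · exact (key j i h3 hi hij1.symm hij2.symm).elim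
  rw [Cardinal.mk_prod, Cardinal.lift_id, Cardinal.lift_id, Cardinal.mk_Iio_ordinal,
    Cardinal.mk_Iio_ordinal, Cardinal.mk_Iio_ordinal, ← Cardinal.lift_mul,
    Cardinal.lift_le, hρ, Cardinal.card_ord] at hinj
  have h1 : μ.card * (Order.succ ζ).card ≤ σ := by
    rw [← Cardinal.mul_eq_self hσ0]
    exact mul_le_mul' (by rw [hσ]; exact le_max_left _ _) (by rw [hσ]; exact le_max_right _ _)
  exact absurd (hinj.trans h1) (not_le.2 (Order.lt_succ _))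

end Pool.Agent.H93.SV
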