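import Pool.Agent.H93.SV.CG

/-!
Club guessing.
-/

set_option autoImplicit false
set_option linter.unusedVariables false

namespace Pool.Agent.H93.SV

open ZFSet Gss969 Pool.Agent.H310.HD Pool.Agent.H93.HM Pool.Agent.H93.SC

universe u

variable {Λ K ρ α κ η : Ordinal.{u}} {e : Ordinal.{u} → Ordinal.{u} → Ordinal.{u}}

/-- `v` is the largest element of `E` which is at most an element of the ladder at `α`. -/
def Dv (E : ZFSet.{u}) (ρ : Ordinal.{u}) (e : Ordinal.{u} → Ordinal.{u} → Ordinal.{u})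
    (α v : Ordinal.{u}) : Prop :=
  v.toZFSet ∈ E ∧ ∃ i < ρ, v ≤ e α i ∧ ∀ w : Ordinal.{u}, w.toZFSet ∈ E → w ≤ e α i → w ≤ v

open Classical in
/-- A sequence of sets, each depending on the intersection of the previous ones. -/
noncomputable def fV (L : Ordinal.{u}) (ch : ZFSet.{u} → ZFSet.{u}) : Ordinal.{u} → ZFSet.{u} :=
  WellFounded.fix (C := fun _ => ZFSet.{u}) (wellFounded_lt (α := Ordinal.{u})) fun j ih =>
    ch (Ij L (fun i => if h : i < j then ih i h else ∅) j)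

theorem fV_eq (L : Ordinal.{u}) (ch : ZFSet.{u} → ZFSet.{u}) (j : Ordinal.{u}) :
    fV L ch j = ch (Ij L (fV L ch) j) := by
  classical
  rw [fV, WellFounded.fix_eq]
  congr 1
  unfold Ij
  ext v
  rw [mem_sep, mem_sep]
  refine and_congr_right fun _ => forall_congr' fun i => forall_congr' fun hi => ?_
  simp only [dif_pos hi]

/-- **Club guessing.** -/
theorem cg_V (hΛ : RegUnc Λ.toZFSet) (hK : Rg K) (hKΛ : K < Λ) (hρK : ρ < K)
    (hρ : Cf ρ.toZFSet ρ.toZFSet)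
    (he1 : ∀ α < Λ, Cf ρ.toZFSet α.toZFSet → ∀ i < ρ, e α i < α)
    (he2 : ∀ α < Λ, Cf ρ.toZFSet α.toZFSet → ∀ x < α, ∃ i < ρ, x ≤ e α i) :
    ∃ E, E ⊆ Λ.toZFSet ∧ Club E Λ.toZFSet ∧ ∀ E', E' ⊆ Λ.toZFSet →
      Club E' Λ.toZFSet → ∃ α < Λ, Cf ρ.toZFSet α.toZFSet ∧
        (∀ x < α, ∃ v < α, Dv E ρ e α v ∧ x < v) ∧
        ∀ v < α, Dv E ρ e α v → v.toZFSet ∈ E' := by
  classical
  by_contra hcon
  push Not at hcon
  have hlim : ∀ x < Λ, Order.succ x < Λ := fun x hx => hΛ.succ_lt hx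
  have huc : Uc Λ Λ := RegUnc.uc hΛ
  have hωΛ : Ordinal.omega0 < Λ := hΛ.om_lt
  have hIsub : ∀ f j, Ij Λ f j ⊆ Λ.toZFSet := fun f j x hx => (mem_sep.1 hx).1
  have hImem : ∀ f j (v : ZFSet.{u}), v ∈ Ij Λ f j ↔ v ∈ Λ.toZFSet ∧ ∀ i < j, v ∈ f i :=
    fun f j v => mem_sep
  have hIclub : ∀ f : Ordinal.{u} → ZFSet.{u}, ∀ j < Λ, (∀ i < j, f i ⊆ Λ.toZFSet) →
      (∀ i < j, Club (f i) Λ.toZFSet) → Club (Ij Λ f j) Λ.toZFSet := fun f j hj h1 h2 =>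
    club_inter hlim huc hωΛ hj h1 h2
  choose! ch hch1 hch2 hch3 using hcon
  obtain ⟨f, hf⟩ : ∃ f : Ordinal.{u} → ZFSet.{u}, f = fV Λ ch := ⟨_, rfl⟩
  have hfe : ∀ j, f j = ch (Ij Λ f j) := by
    intro j
    rw [hf]
    exact fV_eq _ _ _
  have hfc : ∀ j < K, f j ⊆ Λ.toZFSet ∧ Club (f j) Λ.toZFSet ∧ Club (Ij Λ f j) Λ.toZFSet := by
    intro j
    induction j using WellFoundedLT.induction with
    | ind j ih =>
      intro hj
      have h1 := hIclub f j (hj.trans hKΛ) (fun i hi => (ih i hi (hi.trans hj)).1)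
        fun i hi => (ih i hi (hi.trans hj)).2.1
      refine ⟨?_, ?_, h1⟩
      · rw [hfe j]
        exact hch1 _ (hIsub f j) h1
      · rw [hfe j]
        exact hch2 _ (hIsub f j) h1
  -- the final set
  obtain ⟨Z, hZ⟩ : ∃ Z, Z = Ij Λ f K := ⟨_, rfl⟩
  have hZc : Club Z Λ.toZFSet := by
    rw [hZ]; exact hIclub f K hKΛ (fun i hi => (hfc i hi).1) fun i hi => (hfc i hi).2.1
  have hZI : ∀ j < K, ∀ v ∈ Z, v ∈ Ij Λ f j := by
    intro j hj v hv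
    rw [hZ, hImem] at hv
    rw [hImem]
    exact ⟨hv.1, fun i hi => hv.2 i (hi.trans hj)⟩
  have hρΛ : ρ < Λ := hρK.trans hKΛ
  obtain ⟨T, hT⟩ : ∃ T : Set Ordinal.{u}, T = {v | v.toZFSet ∈ Z ∨ Λ ≤ v} := ⟨_, rfl⟩
  have hTb : ¬ BddAbove T := by rw [hT]; exact notBdd_aux Z
  have hmono := Ordinal.enumOrd_strictMono hTb
  have henum : ∀ i < Λ, Ordinal.enumOrd T i < Λ := by
    intro i
    induction i using WellFoundedLT.induction with
    | ind i ih =>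
      intro hi
      obtain ⟨b, hb, hb'⟩ := huc i hi (Ordinal.enumOrd T) fun j hj => ih j hj (hj.trans hi)
      obtain ⟨c, hc, hbc⟩ := hZc.2.1 _ (tz_mem.2 hb)
      obtain ⟨v, hv, rfl⟩ := Ordinal.mem_toZFSet_iff.1 (hZc.1 hc)
      exact (Ordinal.enumOrd_le_of_forall_lt (show v ∈ T by rw [hT]; exact Or.inl hc)
        fun j hj => (hb' j hj).trans (tz_mem.1 hbc)).trans_lt hv
  have hXZ : ∀ i < Λ, (Ordinal.enumOrd T i).toZFSet ∈ Z := by
    intro i hi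
    have h1 := Ordinal.enumOrd_mem hTb i
    have h2 := henum i hi
    rw [hT] at h1
    rcases h1 with h1 | h1
    · rw [hT]; exact h1
    · rw [← hT] at h1
      exact absurd h1 (not_le.2 h2)
  obtain ⟨b, hb, hb'⟩ := huc ρ hρΛ (Ordinal.enumOrd T) fun i hi => henum i (hi.trans hρΛ)
  obtain ⟨α, hα1, hα2⟩ := WellFounded.has_min (wellFounded_lt (α := Ordinal.{u}))
    {b | ∀ i < ρ, Ordinal.enumOrd T i < b} ⟨b, hb'⟩
  have hαΛ : α < Λ := (not_lt.1 (hα2 b hb')).trans_lt hb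
  have hρlim := hρ.lim
  have hα3 : ∀ x < α, ∃ i < ρ, x < Ordinal.enumOrd T i := by
    intro x hx
    by_contra h1
    push Not at h1
    refine hα2 x (fun i hi => ?_) hx
    exact (hmono (Order.lt_succ i)).trans_le (h1 _ (hρlim i hi))
  have hCf : Cf ρ.toZFSet α.toZFSet := (cf_mono (δ := ρ) (s := α) (u := Ordinal.enumOrd T) hα1
    (fun x y hxy _ => hmono.monotone hxy) hα3 ρ).1 hρ
  -- stabilization
  obtain ⟨w, hw⟩ : ∃ w : Ordinal.{u} → Ordinal.{u} → Ordinal.{u}, w = fun i j =>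
      sInf {b | ∀ v : Ordinal.{u}, v.toZFSet ∈ Ij Λ f j → v ≤ e α i → v < b} := ⟨_, rfl⟩
  have hw1 : ∀ i j v, Ordinal.toZFSet v ∈ Ij Λ f j → v ≤ e α i → v < w i j := by
    intro i j v hv hv'
    have h1 := csInf_mem (s := {b | ∀ v : Ordinal.{u}, v.toZFSet ∈ Ij Λ f j → v ≤ e α i → v < b})
      ⟨Order.succ (e α i), fun v _ h => Order.lt_succ_iff.2 h⟩
    rw [hw]
    exact h1 v hv hv'
  have hw2 : ∀ i j b, (∀ v : Ordinal.{u}, v.toZFSet ∈ Ij Λ f j → v ≤ e α i → v < b) →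
      w i j ≤ b := by
    intro i j b h1
    rw [hw]
    exact csInf_le' h1
  have hw3 : ∀ i j j', j ≤ j' → w i j' ≤ w i j := by
    intro i j j' hjj
    refine hw2 i j' _ fun v hv hv' => hw1 i j v ?_ hv'
    rw [hImem] at hv ⊢
    exact ⟨hv.1, fun i' hi' => hv.2 i' (hi'.trans_le hjj)⟩
  have hst : ∀ i, ∃ j < K, ∀ j', j ≤ j' → j' < K → w i j' = w i j := by
    intro i
    obtain ⟨b, ⟨j, hj, rfl⟩, h1⟩ := WellFounded.has_min (wellFounded_lt (α := Ordinal.{u}))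
      {b | ∃ j < K, b = w i j} ⟨_, 0, hK.1, rfl⟩
    exact ⟨j, hj, fun j' hj' hj'K => le_antisymm (hw3 i j j' hj')
      (not_lt.1 (h1 _ ⟨j', hj'K, rfl⟩))⟩
  choose J hJ1 hJ2 using hst
  obtain ⟨j0, hj0, hj0'⟩ := hK.2.2 ρ hρK J fun i _ => hJ1 i
  have hj0s : Order.succ j0 < K := hK.2.1 j0 hj0
  have hD : ∀ v < α, Dv (Ij Λ f j0) ρ e α v → v.toZFSet ∈ f j0 := by
    rintro v hv ⟨h2, i, hi, h3, h4⟩
    have h5 : w i (Order.succ j0) = w i j0 := by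
      rw [hJ2 i j0 (hj0' i hi).le hj0, hJ2 i _ ((hj0' i hi).le.trans (Order.le_succ _)) hj0s]
    by_contra h6
    have h7 : w i (Order.succ j0) ≤ v := by
      refine hw2 i _ _ fun v' hv' hv'' => ?_
      have h8 : v'.toZFSet ∈ Ij Λ f j0 := by
        rw [hImem] at hv' ⊢
        exact ⟨hv'.1, fun i' hi' => hv'.2 i' (hi'.trans (Order.lt_succ _))⟩
      refine lt_of_le_of_ne (h4 v' h8 hv'') fun h9 => h6 ?_
      rw [← h9]
      exact ((hImem _ _ _).1 hv').2 j0 (Order.lt_succ _)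
    rw [h5] at h7
    exact absurd (hw1 i j0 v h2 h3) (not_lt.2 h7)
  have hub : ∀ x < α, ∃ v < α, Dv (Ij Λ f j0) ρ e α v ∧ x < v := by
    intro x hx
    obtain ⟨k, hk, h1⟩ := hα3 x hx
    have h2 := hZI j0 hj0 _ (hXZ k (hk.trans hρΛ))
    obtain ⟨e', he⟩ : ∃ e', e' = Ordinal.enumOrd T k := ⟨_, rfl⟩
    have heα : e' < α := by rw [he]; exact hα1 k hk
    rw [← he] at h1 h2
    obtain ⟨i, hi, h3⟩ := he2 α hαΛ hCf e' heα
    have hFα := he1 α hαΛ hCf i hi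
    obtain ⟨s, hs1, hs2⟩ := WellFounded.has_min (wellFounded_lt (α := Ordinal.{u}))
      {b | ∀ v : Ordinal.{u}, v.toZFSet ∈ Ij Λ f j0 → v ≤ e α i → v ≤ b}
      ⟨e α i, fun v _ h => h⟩
    have hsF : s ≤ e α i := not_lt.1 (hs2 _ fun v _ h => h)
    have hes : e' ≤ s := hs1 e' h2 h3
    have hsI : s.toZFSet ∈ Ij Λ f j0 := by
      by_contra h4
      refine h4 ((hfc j0 hj0).2.2.2.2 _ (tz_mem.2 ((hsF.trans_lt hFα).trans hαΛ))
        ⟨_, tz_mem.2 (h1.trans_le hes), rfl⟩ fun y hy => ?_)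
      obtain ⟨y, hy', rfl⟩ := Ordinal.mem_toZFSet_iff.1 hy
      have h5 : ¬ ∀ v : Ordinal.{u}, v.toZFSet ∈ Ij Λ f j0 → v ≤ e α i → v ≤ y :=
        fun h6 => hs2 y h6 hy'
      push Not at h5
      obtain ⟨v, hv, hv', h6⟩ := h5
      refine ⟨_, hv, tz_mem.2 (lt_of_le_of_ne (hs1 v hv hv') fun h7 => h4 ?_), tz_mem.2 h6⟩
      rw [← h7]
      exact hv
    exact ⟨s, hsF.trans_lt hFα, ⟨hsI, i, hi, hsF, fun w hw hw' => hs1 w hw hw'⟩,
      h1.trans_le hes⟩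
  obtain ⟨v, hv, h2, h3⟩ := hch3 _ (hIsub f j0) (hfc j0 hj0).2.2 α hαΛ hCf hub
  rw [← hfe j0] at h3
  exact h3 (hD v hv h2)

open Classical in
/-- A continuous sequence. -/
noncomputable def xV (nx : Ordinal.{u} → (Ordinal.{u} → Ordinal.{u}) → Ordinal.{u}) :
    Ordinal.{u} → Ordinal.{u} :=
  WellFounded.fix (C := fun _ => Ordinal.{u}) (wellFounded_lt (α := Ordinal.{u})) fun i ih =>
    ⨆ j : Set.Iio i, nx j.1 (fun y => if h : y ≤ j.1 then ih y (h.trans_lt j.2) else 0)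

open Classical in
/-- The restriction. -/
noncomputable def cut (j : Ordinal.{u}) (g : Ordinal.{u} → Ordinal.{u}) (y : Ordinal.{u}) :
    Ordinal.{u} := if y ≤ j then g y else 0

theorem lt_xV {nx : Ordinal.{u} → (Ordinal.{u} → Ordinal.{u}) → Ordinal.{u}} {i v : Ordinal.{u}} :
    v < xV nx i ↔ ∃ j < i, v < nx j (cut j (xV nx)) := by
  classical
  rw [xV, WellFounded.fix_eq, Ordinal.lt_iSup_iff]
  constructor
  · rintro ⟨⟨j, hj⟩, h⟩
    exact ⟨j, hj, h⟩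
  · rintro ⟨j, hj, h⟩
    exact ⟨⟨j, hj⟩, h⟩

/-- Continuous sequences with closure properties. -/
theorem exists_xiV (hη : RegUnc η.toZFSet) (hΛη : Λ < η)
    (nx : Ordinal.{u} → (Ordinal.{u} → Ordinal.{u}) → Ordinal.{u})
    (hnx : ∀ j g, (∀ i ≤ j, g i < η) → nx j g < η ∧ g j < nx j g) :
    ∃ ξ : Ordinal.{u} → Ordinal.{u}, (∀ i < Λ, ξ i < η) ∧ (∀ i j, i < j → j < Λ → ξ i < ξ j) ∧
      (∀ j < Λ, (∀ i < j, Order.succ i < j) → ∀ v < ξ j, ∃ i < j, v < ξ i) ∧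
      (∀ j < Λ, nx j (cut j ξ) ≤ ξ (Order.succ j)) := by
  classical
  have h1 : ∀ i < η, xV nx i < η := by
    intro i
    induction i using WellFoundedLT.induction with
    | ind i ih =>
      intro hi
      have h2 : ∀ j < i, nx j (cut j (xV nx)) < η := by
        intro j hj
        refine (hnx j _ fun k hk => ?_).1
        unfold cut
        rw [if_pos hk]
        exact ih k (hk.trans_lt hj) ((hk.trans_lt hj).trans hi)
      obtain ⟨b, hb, h3⟩ := RegUnc.uc hη i hi _ h2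
      refine lt_of_le_of_lt ?_ hb
      by_contra h4
      push Not at h4
      obtain ⟨j, hj, h5⟩ := lt_xV.1 h4
      exact absurd (h5.trans (h3 j hj)) (lt_irrefl _)
  have h2 : ∀ j < η, xV nx j < nx j (cut j (xV nx)) := by
    intro j hj
    have h3 := (hnx j (cut j (xV nx)) fun k hk => by
      unfold cut
      rw [if_pos hk]
      exact h1 k (hk.trans_lt hj)).2
    unfold cut at h3 ⊢
    rwa [if_pos le_rfl] at h3
  refine ⟨xV nx, fun i hi => h1 i (hi.trans hΛη), fun i j hij hj => ?_, fun j hj hlim v hv => ?_,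
    fun j hj => ?_⟩
  · exact lt_xV.2 ⟨i, hij, h2 i (hij.trans (hj.trans hΛη))⟩
  · obtain ⟨i, hi, h3⟩ := lt_xV.1 hv
    exact ⟨_, hlim i hi, lt_xV.2 ⟨i, Order.lt_succ i, h3⟩⟩
  · refine le_of_forall_lt fun v hv => lt_xV.2 ⟨j, Order.lt_succ j, hv⟩

/-- The limit of a continuous sequence. -/
theorem exists_limV (hη : RegUnc η.toZFSet) (hΛ : RegUnc Λ.toZFSet) (hΛη : Λ < η)
    {ξ : Ordinal.{u} → Ordinal.{u}} (h1 : ∀ i < Λ, ξ i < η)
    (h2 : ∀ i j, i < j → j < Λ → ξ i < ξ j) :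
    ∃ x < η, (∀ i < Λ, ξ i < x) ∧ (∀ y < x, ∃ i < Λ, y < ξ i) ∧ Cf Λ.toZFSet x.toZFSet := by
  obtain ⟨b, hb, hb'⟩ := RegUnc.uc hη Λ hΛη ξ h1
  obtain ⟨x, hx1, hx2⟩ := WellFounded.has_min (wellFounded_lt (α := Ordinal.{u}))
    {b | ∀ i < Λ, ξ i < b} ⟨b, hb'⟩
  have hx3 : ∀ y < x, ∃ i < Λ, y < ξ i := by
    intro y hy
    by_contra h3
    push Not at h3
    refine hx2 y (fun i hi => ?_) hy
    exact (h2 i _ (Order.lt_succ i) (hΛ.succ_lt hi)).trans_le (h3 _ (hΛ.succ_lt hi))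
  refine ⟨x, (not_lt.1 (hx2 b hb')).trans_lt hb, hx1, hx3, ?_⟩
  refine (cf_mono (δ := Λ) (s := x) (u := ξ) hx1 (fun i j hij hj => ?_) hx3 Λ).1
    (cf_of_regUnc hΛ)
  rcases hij.lt_or_eq with h3 | h3
  · exact (h2 i j h3 hj).le
  · rw [h3]

/-- The indices of the elements of a closed unbounded set. -/
theorem club_idx (hΛ : RegUnc Λ.toZFSet) {ξ : Ordinal.{u} → Ordinal.{u}} {x : Ordinal.{u}}
    (hm : ∀ i j, i < j → j < Λ → ξ i < ξ j)
    (hcont : ∀ j < Λ, (∀ i < j, Order.succ i < j) → ∀ v < ξ j, ∃ i < j, v < ξ i)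
    (hx1 : ∀ i < Λ, ξ i < x) (hx2 : ∀ y < x, ∃ i < Λ, y < ξ i) {C : Set Ordinal.{u}}
    (hC1 : ∀ v ∈ C, v < x) (hC2 : ∀ y < x, ∃ v ∈ C, y < v)
    (hC3 : ∀ v < x, (∃ w ∈ C, w < v) → (∀ y < v, ∃ w ∈ C, w < v ∧ y < w) → v ∈ C) :
    ∃ E, E ⊆ Λ.toZFSet ∧ Club E Λ.toZFSet ∧ ∀ i : Ordinal.{u}, i.toZFSet ∈ E →
      (∀ j < i, Order.succ j < i) ∧ ξ i ∈ C := by
  have hΛlim : ∀ i < Λ, Order.succ i < Λ := fun i hi => hΛ.succ_lt hi
  obtain ⟨E, hE⟩ : ∃ E : ZFSet.{u}, E = ZFSet.sep (fun i => (∀ j < rank i, Order.succ j < rank i) ∧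
    ξ (rank i) ∈ C) Λ.toZFSet := ⟨_, rfl⟩
  have hEm : ∀ i : Ordinal.{u}, i.toZFSet ∈ E ↔ i < Λ ∧ (∀ j < i, Order.succ j < i) ∧
      ξ i ∈ C := by
    intro i
    rw [hE, mem_sep, tz_mem, Ordinal.rank_toZFSet]
  have hEs : E ⊆ Λ.toZFSet := fun y hy => by
    rw [hE] at hy
    exact (mem_sep.1 hy).1
  refine ⟨E, hEs, ⟨hEs, fun y hy => ?_, fun a ha hne hl => ?_⟩, fun i hi => ((hEm i).1 hi).2⟩
  · obtain ⟨i0, hi0, rfl⟩ := Ordinal.mem_toZFSet_iff.1 hy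
    have h1 : ∀ i < Λ, ∃ b < Λ, i < b ∧ ∃ c ∈ C, ξ i < c ∧ c < ξ b := by
      intro i hi
      obtain ⟨c, hc, h2⟩ := hC2 _ (hx1 i hi)
      obtain ⟨b, hb, h3⟩ := hx2 c (hC1 c hc)
      refine ⟨b, hb, ?_, c, hc, h2, h3⟩
      by_contra h4
      push Not at h4
      rcases h4.lt_or_eq with h5 | h5
      · exact absurd ((hm _ _ h5 hi).trans (h2.trans h3)) (lt_irrefl _)
      · rw [h5] at h3
        exact absurd (h2.trans h3) (lt_irrefl _)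
    choose! B hB1 hB2 c hc1 hc2 hc3 using h1
    let G : ℕ → Ordinal.{u} := fun n => Nat.rec (Order.succ i0) (fun _ γ => B γ) n
    have hG : ∀ n, G n < Λ := by
      intro n
      induction n with
      | zero => exact hΛlim _ hi0
      | succ n ih => exact hB1 _ ih
    have hGs : ∀ n, G n < G (n + 1) := fun n => hB2 _ (hG n)
    obtain ⟨a, ha, ha1, ha2⟩ := exists_supU (RegUnc.uc hΛ) hΛ.om_lt hG hGs
    have halim : ∀ j < a, Order.succ j < a := by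
      intro j hj
      obtain ⟨n, hn⟩ := ha2 j hj
      exact (Order.succ_le_of_lt hn).trans_lt (ha1 n)
    refine ⟨_, (hEm a).2 ⟨ha, halim, ?_⟩, tz_mem.2 ((Order.lt_succ i0).trans (ha1 0))⟩
    have h5 : ∀ n, c (G n) < ξ a := fun n => (hc3 _ (hG n)).trans (hm _ _ (ha1 (n + 1)) ha)
    refine hC3 _ (hx1 a ha) ⟨_, hc1 _ (hG 0), h5 0⟩ fun y hy => ?_
    obtain ⟨j, hj, h2⟩ := hcont a ha halim y hy
    obtain ⟨n, hn⟩ := ha2 j hj
    exact ⟨_, hc1 _ (hG n), h5 n, (h2.trans (hm _ _ hn (hG n))).trans (hc2 _ (hG n))⟩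
  · obtain ⟨i, hi, rfl⟩ := Ordinal.mem_toZFSet_iff.1 ha
    have h1 : ∀ j < i, ∃ k < i, j < k ∧ k.toZFSet ∈ E := by
      intro j hj
      obtain ⟨c, hc, h2, h3⟩ := hl _ (tz_mem.2 hj)
      obtain ⟨c, hc', rfl⟩ := Ordinal.mem_toZFSet_iff.1 h2
      exact ⟨c, hc', tz_mem.1 h3, hc⟩
    have hilim : ∀ j < i, Order.succ j < i := by
      intro j hj
      obtain ⟨k, hk, h2, _⟩ := h1 j hj
      exact (Order.succ_le_of_lt h2).trans_lt hk
    refine (hEm i).2 ⟨hi, hilim, ?_⟩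
    obtain ⟨y, hy, _⟩ := hne
    obtain ⟨j0, hj0, rfl⟩ := Ordinal.mem_toZFSet_iff.1 hy
    obtain ⟨k0, hk0, _, h4⟩ := h1 j0 hj0
    refine hC3 _ (hx1 i hi) ⟨_, ((hEm k0).1 h4).2.2, hm _ _ hk0 hi⟩ fun y hy => ?_
    obtain ⟨j, hj, h2⟩ := hcont i hi hilim y hy
    obtain ⟨k, hk, h5, h6⟩ := h1 j hj
    exact ⟨_, ((hEm k).1 h6).2.2, hm _ _ hk hi, h2.trans (hm _ _ h5 (hk.trans hi))⟩

end Pool.Agent.H93.SV
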