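import Pool.Agent.H93.SV.StV
import Pool.Agent.H93.SV.Lad2

/-!
The size of the successors below a cardinal whose successor is computed correctly.
-/

set_option autoImplicit false
set_option linter.unusedVariables false

namespace Pool.Agent.H93.SV

open ZFSet Gss969 Pool.Agent.H310.HD Pool.Agent.H93.HM Pool.Agent.H93.SC

universe u

variable {κ η μ ζ Λ : Ordinal.{u}} {A : ZFSet.{u}} {F : Ordinal.{u} → Ordinal.{u} → Ordinal.{u}}
  {γ : Ordinal.{u} → Ordinal.{u}}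

/-- The lengths of the ladders at limits are limits. -/
theorem lim_gam (hL : Lad η A F γ) {x : Ordinal.{u}} (hx : x < η)
    (hxl : ∀ y < x, Order.succ y < x) : ∀ j < γ x, Order.succ j < γ x := by
  intro j hj
  by_contra h1
  have h2 : γ x = Order.succ j := le_antisymm (not_lt.1 h1) (Order.succ_le_of_lt hj)
  have hfm : ∀ i y : Ordinal.{u}, pair i.toZFSet y.toZFSet ∈ ZFSet.sep (fun p => ∃ a b,
      p = pair a b ∧ pair x.toZFSet (pair a b) ∈ A) (prod j.toZFSet x.toZFSet) ↔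
      i < j ∧ y = F x i := by
    intro i y
    rw [mem_rel (B := fun a b => pair x.toZFSet (pair a b) ∈ A), tz_mem, tz_mem, hL.mem]
    constructor
    · rintro ⟨h4, _, _, _, h5⟩
      exact ⟨h4, h5⟩
    · rintro ⟨h4, rfl⟩
      exact ⟨h4, hL.lt x hx i (h4.trans hj), hx, h4.trans hj, rfl⟩
  refine hL.min x hx j hj ⟨_, HOD_rel (A := fun a b v => pair (v 0) (pair a b) ∈ v 1)
    (dfn_pm3 _ _ _ _) j x [x.toZFSet, A] ?_, ⟨fun p hp => (mem_sep.1 hp).1, fun a ha => ?_⟩,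
    fun a ha => ?_⟩
  · intro p hp
    simp only [List.mem_cons, List.not_mem_nil, or_false] at hp
    rcases hp with rfl | rfl
    · exact OD_ord _
    · exact hL.hod.od
  · obtain ⟨i, hi, rfl⟩ := Ordinal.mem_toZFSet_iff.1 ha
    refine ⟨_, (hfm i _).2 ⟨hi, rfl⟩, fun y hy => ?_⟩
    obtain ⟨y, _, rfl⟩ := Ordinal.mem_toZFSet_iff.1 (mem_rel.1 hy).2.1
    rw [((hfm i y).1 hy).2]
  · obtain ⟨y, hy, rfl⟩ := Ordinal.mem_toZFSet_iff.1 ha
    obtain ⟨i, hi, h3⟩ := hL.cof x hx _ (hxl _ (max_lt hy (hL.lt x hx j hj)))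
    have h4 : max y (F x j) < F x i := (Order.lt_succ _).trans_le h3
    have h5 : i < j := by
      rw [h2, Order.lt_succ_iff] at hi
      refine lt_of_le_of_ne hi fun h6 => ?_
      rw [h6] at h4
      exact absurd ((le_max_right _ _).trans_lt h4) (lt_irrefl _)
    exact ⟨_, tz_mem.2 h5, _, tz_mem.2 (hL.lt x hx i hi), (hfm i _).2 ⟨h5, rfl⟩,
      Or.inl (tz_mem.2 ((le_max_left _ _).trans_lt h4))⟩

/-- The ladders at ordinals of cofinality other than `μ`. -/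
theorem club_lad (hL : Lad η A F γ) (hC : LCont η F γ) (hγ : ∀ α < η, γ α ≤ κ)
    (hcf : Cf μ.toZFSet κ.toZFSet) (hμΛ : μ < Λ) {x : Ordinal.{u}}
    (hx : x < η) (hxc : Cf Λ.toZFSet x.toZFSet) :
    ∃ C : Set Ordinal.{u}, (∀ v ∈ C, v < x) ∧ (∀ y < x, ∃ v ∈ C, y < v) ∧
      (∀ v < x, (∃ w ∈ C, w < v) → (∀ y < v, ∃ w ∈ C, w < v ∧ y < w) → v ∈ C) ∧
      ∃ t < κ, ∀ v ∈ C, ∀ δ, t < δ → hh F γ δ v < hh F γ δ x := by
  have hxl := hxc.lim
  obtain ⟨hc1, hc2⟩ := hC x hx (lim_gam hL hx hxl)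
  have hub : ∀ y < x, ∃ i < γ x, y < F x i := by
    intro y hy
    obtain ⟨i, hi, h1⟩ := hL.cof x hx _ (hxl y hy)
    exact ⟨i, hi, (Order.lt_succ y).trans_le h1⟩
  refine ⟨{v | ∃ i < γ x, v = F x i}, ?_, ?_, fun v hv _ h1 => ?_, γ x, ?_, ?_⟩
  · rintro v ⟨i, hi, rfl⟩
    exact hL.lt x hx i hi
  · intro y hy
    obtain ⟨i, hi, h1⟩ := hub y hy
    exact ⟨_, ⟨i, hi, rfl⟩, h1⟩
  · obtain ⟨i, ⟨hi, h2⟩, hmin⟩ := WellFounded.has_min (wellFounded_lt (α := Ordinal.{u}))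
      {i | i < γ x ∧ v ≤ F x i} (hL.cof x hx v hv)
    have h3 : ∀ j < i, F x j < v := by
      intro j hj
      by_contra h4
      exact hmin j ⟨hj.trans hi, not_lt.1 h4⟩ hj
    have h4 : ∀ j < i, Order.succ j < i := by
      intro j hj
      refine lt_of_le_of_ne (Order.succ_le_of_lt hj) fun h5 => ?_
      obtain ⟨w, ⟨k, hk, rfl⟩, h6, h7⟩ := h1 _ (h3 j hj)
      have h8 : k < i := by
        by_contra h9
        exact absurd ((h2.trans (hc1 _ _ (not_lt.1 h9) hk)).trans_lt h6) (lt_irrefl _)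
      rw [← h5, Order.lt_succ_iff] at h8
      exact absurd (h7.trans_le (hc1 _ _ h8 (hj.trans hi))) (lt_irrefl _)
    refine ⟨i, hi, le_antisymm h2 ?_⟩
    by_contra h5
    push Not at h5
    obtain ⟨j, hj, h6⟩ := hc2 i hi h4 v h5
    exact absurd (h6.trans (h3 j hj)) (lt_irrefl _)
  · refine lt_of_le_of_ne (hγ x hx) fun h1 => ?_
    rw [h1] at hc1 hub
    have h2 := (cf_mono (δ := κ) (s := x) (u := F x)
      (fun i hi => hL.lt x hx i (by rw [h1]; exact hi)) hc1 hub μ).1 hcf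
    exact hμΛ.ne (Cf.unique h2 hxc)
  · rintro v ⟨i, hi, rfl⟩ δ hδ
    exact lt_hh.2 ⟨i, hi.trans hδ, hi, hL.lt x hx i hi, le_rfl⟩

/-- The size of the successors if the successor is computed correctly. -/
theorem not_stat_S (hκ : IsCard κ.toZFSet) (hcf : Cf μ.toZFSet κ.toZFSet)
    (hω : Ordinal.omega0 < μ) (hμκ : μ < κ) (hη : HSucc κ η)
    (hηκ : η = (Order.succ κ.card).ord) : ¬ StatL {δ | Ordinal.omega0 < δ ∧ ∃ s, HSucc δ s ∧
      s.card ≤ δ.card} κ := by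
  classical
  intro hS
  have hωκ : Ordinal.omega0 < κ := hω.trans hμκ
  have h0 : Cardinal.aleph0 ≤ κ.card := by
    have := Ordinal.card_le_card hωκ.le
    rwa [Ordinal.card_omega0] at this
  have hκ0 : 0 < κ := Cf.pos (bot_le.trans_lt hω) hcf
  have hηr : RegUnc η.toZFSet := by
    rw [hηκ]
    exact regUnc_ord (Cardinal.isRegular_succ h0) (h0.trans_lt (Order.lt_succ _))
  obtain ⟨A, F, γ, hL, hC⟩ := exists_lad2 η
  have hγ : ∀ α < η, γ α ≤ κ := fun α hα => hL.len hκ0 hα fun θ h1 h2 =>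
    hη.2.2 θ h1 (h2.trans_lt hα)
  obtain ⟨h, hhd⟩ : ∃ h : Ordinal.{u} → Ordinal.{u} → Ordinal.{u}, h = hh F γ := ⟨_, rfl⟩
  have hlt : ∀ δ s, HSucc δ s → ∀ α < η, h δ α < s := fun δ s h1 => by
    rw [hhd]
    exact hh_lt hL h1.2.1 h1.1
  have htail : ∀ α < η, ∀ β < α, ∃ t < κ, ∀ δ, t < δ → h δ β < h δ α := by
    rw [hhd]
    exact hh_tail hL le_rfl hγ
  obtain ⟨S, hSe⟩ : ∃ S : Set Ordinal.{u}, S = {δ | Ordinal.omega0 < δ ∧ ∃ s, HSucc δ s ∧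
      s.card ≤ δ.card} := ⟨_, rfl⟩
  rw [← hSe] at hS
  have h1 : ∀ δ, δ ∈ S → ∃ s, HSucc δ s ∧ ∃ c : Ordinal.{u} → Ordinal.{u}, (∀ y < s, c y < δ) ∧
      ∀ y < s, ∀ y' < s, c y = c y' → y = y' := by
    intro δ hδ
    rw [hSe] at hδ
    obtain ⟨_, s, hs, hc⟩ := hδ
    have h2 : Cardinal.mk (Set.Iio s) ≤ Cardinal.mk (Set.Iio δ) := by
      rw [Cardinal.mk_Iio_ordinal, Cardinal.mk_Iio_ordinal, Cardinal.lift_le]
      exact hc
    obtain ⟨e⟩ := Cardinal.le_def _ _ |>.1 h2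
    refine ⟨s, hs, fun x => if hx : x ∈ Set.Iio s then (e ⟨x, hx⟩).1 else 0, fun y hy => ?_,
      fun y hy y' hy' h3 => ?_⟩
    · have h3 : y ∈ Set.Iio s := hy
      simp only [dif_pos h3]
      exact (e ⟨_, h3⟩).2
    · have h4 : y ∈ Set.Iio s := hy
      have h5 : y' ∈ Set.Iio s := hy'
      simp only [dif_pos h4, dif_pos h5] at h3
      exact congrArg Subtype.val (e.injective (Subtype.ext h3))
  choose! s hs c hc1 hc2 using h1
  have hhs : ∀ δ ∈ S, ∀ α < η, h δ α < s δ := fun δ hδ α hα => hlt δ _ (hs δ hδ) α hα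
  have h2 : ∀ α < η, ∃ ζ < κ, StatL {δ | δ ∈ S ∧ c δ (h δ α) < ζ} κ := fun α hα =>
    fodor_bdd hcf hω hS (f := fun δ => c δ (h δ α)) fun δ hδ _ => hc1 δ hδ _ (hhs δ hδ α hα)
  choose! z hz1 hz2 using h2
  obtain ⟨ζ, hζ, h3⟩ : ∃ ζ < κ, ∀ b < η, ∃ α < η, b ≤ α ∧ z α = ζ := by
    by_contra hcon
    push Not at hcon
    choose! b hb1 hb2 using hcon
    obtain ⟨β, hβ, h4⟩ := RegUnc.uc hηr κ hη.1 b hb1
    exact hb2 _ (hz1 β hβ) β hβ (h4 _ (hz1 β hβ)).le rfl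
  obtain ⟨B, hB⟩ : ∃ B : Ordinal.{u} → Set Ordinal.{u}, B = fun δ =>
      {b | b = s δ ∨ (b < s δ ∧ c δ b < ζ)} := ⟨_, rfl⟩
  have hBm : ∀ δ b, b ∈ B δ ↔ b = s δ ∨ (b < s δ ∧ c δ b < ζ) := by
    intro δ b
    rw [hB]
    exact Iff.rfl
  obtain ⟨p, hp⟩ : ∃ p : Ordinal.{u} → Ordinal.{u} → Ordinal.{u}, p = fun α δ =>
      sInf {b | b ∈ B δ ∧ h δ α ≤ b} := ⟨_, rfl⟩
  have hp1 : ∀ α < η, ∀ δ ∈ S, p α δ ∈ B δ ∧ h δ α ≤ p α δ := by
    intro α hα δ hδ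
    have h4 := csInf_mem (s := {b | b ∈ B δ ∧ h δ α ≤ b})
      ⟨s δ, (hBm _ _).2 (Or.inl rfl), (hhs δ hδ α hα).le⟩
    rw [hp]
    exact h4
  have hp2 : ∀ α δ b, b ∈ B δ → h δ α ≤ b → p α δ ≤ b := by
    intro α δ b hb h4
    rw [hp]
    exact csInf_le' ⟨hb, h4⟩
  obtain ⟨ξ, hξ, h4⟩ := stabV (p := p) (c := fun δ y => if y < s δ then c δ y else ζ)
    hcf hω hη.1 hηr hκ hμκ htail (fun Λ _ hμΛ x hx hxc => by
      rw [hhd]
      exact club_lad hL hC hγ hcf hμΛ hx hxc) hζ (S := S)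
    (fun α hα β hβ δ hδ h5 => hp2 _ _ _ (hp1 β hβ δ hδ).1 (h5.trans (hp1 β hβ δ hδ).2))
    (B := B) (fun α hα δ hδ => (hp1 α hα δ hδ).1) (top := s)
    (fun δ hδ => ⟨(hBm _ _).2 (Or.inl rfl), fun y hy => by
      rcases (hBm _ _).1 hy with h5 | h5
      · exact h5.le
      · exact h5.1.le⟩)
    (fun δ hδ y hy => by
      rcases (hBm _ _).1 hy with h5 | h5
      · rw [h5]
        simp only [lt_irrefl, if_false]
        exact le_rfl
      · simp only [if_pos h5.1]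
        exact h5.2.le)
    (fun δ hδ y hy y' hy' h5 => by
      rcases (hBm _ _).1 hy with h6 | h6
      · rcases (hBm _ _).1 hy' with h7 | h7
        · rw [h6, h7]
        · rw [h6] at h5
          simp only [lt_irrefl, if_false, if_pos h7.1] at h5
          rw [← h5] at h7
          exact absurd h7.2 (lt_irrefl _)
      · rcases (hBm _ _).1 hy' with h7 | h7
        · rw [h7] at h5
          simp only [lt_irrefl, if_false, if_pos h6.1] at h5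
          rw [h5] at h6
          exact absurd h6.2 (lt_irrefl _)
        · simp only [if_pos h6.1, if_pos h7.1] at h5
          exact hc2 δ hδ _ h6.1 _ h7.1 h5)
  obtain ⟨α, hα, hξα, hzα⟩ := h3 ξ hξ
  have hα' : Order.succ α < η := hηr.succ_lt hα
  obtain ⟨t, ht, h5⟩ := htail _ hα' α (Order.lt_succ α)
  have h6 := hz2 α hα
  rw [hzα] at h6
  have h7 := stat_tail hcf.lim hcf hω ht h6
  have h8 : ∀ δ, δ ∈ S → c δ (h δ α) < ζ → t < δ → p α δ ≠ p (Order.succ α) δ := by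
    intro δ hδ h9 h10 h11
    have h12 : p α δ ≤ h δ α := hp2 _ _ _ ((hBm _ _).2 (Or.inr ⟨hhs δ hδ α hα, h9⟩)) le_rfl
    have h13 := (hp1 _ hα' δ hδ).2
    rw [← h11] at h13
    exact absurd ((h13.trans h12).trans_lt (h5 δ h10)) (lt_irrefl _)
  rcases statTwo hcf.lim hcf.uc hω h7 (fun δ => p ξ δ = p α δ) with h9 | h9
  · refine h4 _ hα' (hξα.trans (Order.le_succ α)) (h9.mono fun δ _ h10 => ⟨h10.1.1.1, fun h11 => ?_⟩)
    exact h8 δ h10.1.1.1 h10.1.1.2 h10.1.2 (h10.2.symm.trans h11)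
  · exact h4 _ hα hξα (h9.mono fun δ _ h10 => ⟨h10.1.1.1, h10.2⟩)

end Pool.Agent.H93.SV
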