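import Pool.Agent.H93.SV.Main
import Pool.Agent.H93.SV.ClS
import Pool.Agent.H93.SC.Main

/-!
A theorem of Silver's type on the successors of cardinals in `HOD`.
-/

set_option autoImplicit false
set_option linter.unusedVariables false

namespace Pool.Agent.H93.SV

open ZFSet Gss969 Pool.Agent.H310.HD Pool.Agent.H93.HM Pool.Agent.H93.SC

universe u

variable {κ η μ ν l s δ : Ordinal.{u}}

theorem isCard_ord (hκ : IsCard κ.toZFSet) : κ.card.ord = κ := by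
  refine le_antisymm (Cardinal.ord_card_le κ) ?_
  by_contra hcon
  push Not at hcon
  have := hκ.card_lt hcon
  rw [Cardinal.card_ord] at this
  exact absurd this (lt_irrefl _)

/-- Successors in `HOD` are small. -/
theorem exists_hsucc (hκ : IsCard κ.toZFSet) (hcf : Cf μ.toZFSet κ.toZFSet)
    (hω : Ordinal.omega0 < μ) (hμκ : μ < κ) (hδ : δ < κ) : ∃ s < κ, HSucc δ s := by
  obtain ⟨m, hm⟩ : ∃ m, m = max Ordinal.omega0 δ := ⟨_, rfl⟩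
  have hmκ : m < κ := by rw [hm]; exact max_lt (hω.trans hμκ) hδ
  have h0 : Cardinal.aleph0 ≤ m.card := by
    have := Ordinal.card_le_card (show Ordinal.omega0 ≤ m by rw [hm]; exact le_max_left _ _)
    rwa [Ordinal.card_omega0] at this
  have hreg : RegUnc (Order.succ m.card).ord.toZFSet :=
    regUnc_ord (Cardinal.isRegular_succ h0) (h0.trans_lt (Order.lt_succ _))
  have h3 := lim_ord hκ hcf hμκ h0 (hκ.card_lt hmκ)
  have h4 : δ < (Order.succ m.card).ord := by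
    refine lt_of_le_of_lt (show δ ≤ m by rw [hm]; exact le_max_right _ _) ?_
    rw [Cardinal.lt_ord]
    exact Order.lt_succ _
  obtain ⟨s, ⟨hs1, hs2⟩, hmin⟩ := WellFounded.has_min (wellFounded_lt (α := Ordinal.{u}))
    {s | δ < s ∧ HODReg s} ⟨_, h4, hodReg_of_regUnc hreg⟩
  refine ⟨s, lt_of_le_of_lt (not_lt.1 (hmin _ ⟨h4, hodReg_of_regUnc hreg⟩)) h3, hs1, hs2,
    fun θ hθ hθs hθr => hmin θ ⟨hθ, hθr⟩ hθs⟩

theorem HSucc.unique {s' : Ordinal.{u}} (h : HSucc δ s) (h' : HSucc δ s') : s = s' := by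
  rcases lt_trichotomy s s' with h1 | h1 | h1
  · exact absurd h.2.1 (h'.2.2 _ h.1 h1)
  · exact h1
  · exact absurd h'.2.1 (h.2.2 _ h'.1 h1)

/-- The intersection of two closed unbounded sets. -/
theorem club_two (hcf : Cf μ.toZFSet κ.toZFSet) (hω : Ordinal.omega0 < μ) {C D : ZFSet.{u}}
    (hC1 : C ⊆ κ.toZFSet) (hC2 : Club C κ.toZFSet) (hD1 : D ⊆ κ.toZFSet)
    (hD2 : Club D κ.toZFSet) : ∃ E, E ⊆ κ.toZFSet ∧ Club E κ.toZFSet ∧
      ∀ x ∈ E, x ∈ C ∧ x ∈ D := by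
  classical
  have h2 : (2 : Ordinal.{u}) < μ := lt_trans (by exact_mod_cast Ordinal.natCast_lt_omega0 2) hω
  refine ⟨_, fun x hx => (mem_sep.1 hx).1, club_inter hcf.lim hcf.uc hω h2
    (C := fun i => if i = 0 then C else D) (fun i _ => ?_) (fun i _ => ?_), fun x hx => ?_⟩
  · by_cases h : i = 0
    · simp only [if_pos h]; exact hC1
    · simp only [if_neg h]; exact hD1
  · by_cases h : i = 0
    · simp only [if_pos h]; exact hC2
    · simp only [if_neg h]; exact hD2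
  · have h3 := (mem_sep.1 hx).2
    have h4 := h3 0 (by exact_mod_cast (by norm_num : (0:ℕ) < 2))
    have h5 := h3 1 (by exact_mod_cast (by norm_num : (1:ℕ) < 2))
    simp only [if_true] at h4
    rw [if_neg one_ne_zero] at h5
    exact ⟨h4, h5⟩

/-- Nonstationary sets miss closed unbounded sets. -/
theorem club_of_not_stat {S : Set Ordinal.{u}} (h : ¬ StatL S κ) : ∃ C, C ⊆ κ.toZFSet ∧
    Club C κ.toZFSet ∧ ∀ δ : Ordinal.{u}, δ.toZFSet ∈ C → δ ∉ S := by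
  unfold StatL at h
  push Not at h
  obtain ⟨C, hC1, hC2, h1⟩ := h
  exact ⟨C, hC1, hC2, fun δ hδ hS => h1 δ (tz_mem.1 (hC1 hδ)) hS hδ⟩

/-- **The functions given by a ladder system.** -/
theorem core (hκ : IsCard κ.toZFSet) (hcf : Cf μ.toZFSet κ.toZFSet)
    (hω : Ordinal.omega0 < μ) (hμκ : μ < κ) (hη : HSucc κ η) :
    ∃ h : Ordinal.{u} → Ordinal.{u} → Ordinal.{u},
      (∀ δ s, HSucc δ s → ∀ α < η, h δ α < s) ∧
      (∀ α < η, ∀ β < α, ∃ t < κ, ∀ δ, t < δ → h δ β < h δ α) ∧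
      ∀ ν : Ordinal.{u}, ∀ a b : Ordinal.{u} → Ordinal.{u}, Sq κ η ν a b → ∃ C, C ⊆ κ.toZFSet ∧
        Club C κ.toZFSet ∧ ∀ δ : Ordinal.{u}, δ.toZFSet ∈ C → 0 < δ ∧
          ∀ s, HSucc δ s → hs h a b ν δ = s := by
  have hκ0 : 0 < κ := Cf.pos (bot_le.trans_lt hω) hcf
  obtain ⟨A, F, γ, hL, hC⟩ := exists_lad2 η
  have hγ : ∀ α < η, γ α ≤ κ := fun α hα => hL.len hκ0 hα fun θ h1 h2 =>
    hη.2.2 θ h1 (h2.trans_lt hα)
  have hlt : ∀ δ s, HSucc δ s → ∀ α < η, hh F γ δ α < s := fun δ s h1 =>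
    hh_lt hL h1.2.1 h1.1
  have htail := hh_tail hL le_rfl hγ
  obtain ⟨H, hHO, hH⟩ := exists_H hL κ
  refine ⟨hh F γ, hlt, htail, fun ν a b hq => ?_⟩
  obtain ⟨f, hfd⟩ : ∃ f : Ordinal.{u} → Ordinal.{u}, f = hs (hh F γ) a b ν := ⟨_, rfl⟩
  have hfs : ∀ δ s, HSucc δ s → f δ ≤ s := by
    intro δ s h1
    by_contra h2
    push Not at h2
    rw [hfd] at h2
    obtain ⟨i, hi, _, h3⟩ := lt_hs.1 h2
    exact absurd (hlt δ s h1 _ (hq.a1 i hi)) (not_lt.2 h3)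
  have hf : ∀ δ < κ, f δ < κ := by
    intro δ hδ
    obtain ⟨s, hsκ, h1⟩ := exists_hsucc hκ hcf hω hμκ hδ
    exact (hfs δ s h1).trans_lt hsκ
  have hk : KV κ η (hh F γ) f := by
    rw [hfd]
    exact kv_hs hcf hω htail hq
  have hns := not_stat_T hcf hω hη.1 hη.2.1 hL hC hHO hH
    (fun δ _ α hα => (hh_le α).trans_lt hα) htail (fun x hx i hi δ hδ =>
      lt_hh.2 ⟨i, hδ, hi, hL.lt x hx i hi, le_rfl⟩) hf hk hκ hμκ
  obtain ⟨C, hC1, hC2, hC3⟩ := club_of_not_stat hns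
  obtain ⟨E, hE1, hE2, hE3⟩ := club_two hcf hω hC1 hC2 (fun x hx => (mem_sep.1 hx).1)
    (club_tail hcf.lim hκ0)
  refine ⟨E, hE1, hE2, fun δ hδ => ?_⟩
  obtain ⟨h1, h2⟩ := hE3 _ hδ
  have h3 : 0 < δ := tz_mem.1 (mem_sep.1 h2).2
  refine ⟨h3, fun s h4 => ?_⟩
  have h5 := hC3 δ h1
  rw [← hfd]
  refine le_antisymm (hfs δ s h4) ?_
  by_contra h6
  push Not at h6
  refine h5 (hL.len h3 ((hf δ (tz_mem.1 (hE1 hδ))).trans hη.1) fun θ h7 h8 => ?_)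
  exact h4.2.2 θ h7 (h8.trans_lt h6)

/-- The case of cofinality `ω`. -/
theorem case_om (hκ : IsCard κ.toZFSet) (hcf : Cf μ.toZFSet κ.toZFSet)
    (hω : Ordinal.omega0 < μ) (hμκ : μ < κ) (hη : HSucc κ η)
    (hcη : Cf Ordinal.omega0.toZFSet η.toZFSet) : ∃ C, C ⊆ κ.toZFSet ∧ Club C κ.toZFSet ∧
      ∀ δ s : Ordinal.{u}, δ.toZFSet ∈ C → HSucc δ s → Cf Ordinal.omega0.toZFSet s.toZFSet := by
  have hκ0 : 0 < κ := Cf.pos (bot_le.trans_lt hω) hcf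
  obtain ⟨h, h1, h2, h3⟩ := core hκ hcf hω hμκ hη
  obtain ⟨a, ha1, ha2⟩ := Cf.seq hcη
  obtain ⟨C, hC1, hC2, hC3⟩ := h3 _ _ _ (sq_om hcf hω hκ0 ha1 ha2)
  refine ⟨C, hC1, hC2, fun δ s hδ hsδ => ?_⟩
  obtain ⟨h4, h5⟩ := hC3 δ hδ
  have h6 := h5 s hsδ
  have h7 : CofN Ordinal.omega0.toZFSet s.toZFSet := by
    refine cofN_seq (F := fun i => h δ (a i)) (fun i hi => h1 δ s hsδ _ (ha1 i hi))
      fun x hx => ?_
    have h8 := hsδ.2.1.2.1 x hx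
    rw [← h6] at h8
    obtain ⟨i, hi, _, h9⟩ := lt_hs.1 h8
    exact ⟨i, hi, (Order.lt_succ x).trans_le h9⟩
  obtain ⟨m, _, hm⟩ := exists_Cf hsδ.2.1.2.1
  rcases (Cf.om_le (bot_le.trans_lt hsδ.1) hm).lt_or_eq with h8 | h8
  · exact absurd h7 (hm.2 _ (tz_mem.2 h8))
  · rwa [h8]

/-- The case of cofinality `μ`. -/
theorem case_mu (hκ : IsCard κ.toZFSet) (hcf : Cf μ.toZFSet κ.toZFSet)
    (hω : Ordinal.omega0 < μ) (hμκ : μ < κ) (hη : HSucc κ η)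
    (hcη : Cf μ.toZFSet η.toZFSet) : ∃ C, C ⊆ κ.toZFSet ∧ Club C κ.toZFSet ∧
      ∀ δ s : Ordinal.{u}, δ.toZFSet ∈ C → HSucc δ s →
        ∀ θ : Ordinal.{u}, Cf θ.toZFSet δ.toZFSet ↔ Cf θ.toZFSet s.toZFSet := by
  obtain ⟨h, h1, h2, h3⟩ := core hκ hcf hω hμκ hη
  obtain ⟨a, ha1, ha2, ha3⟩ := exists_incr hcη
  obtain ⟨b, hb1, hb2, hb3⟩ := exists_incr hcf
  obtain ⟨C, hC1, hC2, hC3⟩ := h3 _ _ _ (sq_mu hcf hω ha1 ha2 hb1 hb2 hb3)
  have hT : ∀ j < μ, ∃ T < κ, ∀ i < j, ∀ δ, T < δ → h δ (a i) < h δ (a j) := by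
    intro j hj
    have h4 : ∀ i < j, ∃ t < κ, ∀ δ, t < δ → h δ (a i) < h δ (a j) := fun i hi =>
      h2 _ (ha1 j hj) _ (ha3 i j hi hj)
    choose! t ht1 ht2 using h4
    obtain ⟨T, hT, h5⟩ := hcf.uc j hj t ht1
    exact ⟨T, hT, fun i hi δ hδ => ht2 i hi δ ((h5 i hi).trans hδ)⟩
  choose! T hT1 hT2 using hT
  have hN : ∀ x < κ, ∃ i < μ, x < b i ∧ ∀ j < μ, x < b j → i ≤ j := by
    intro x hx
    obtain ⟨i, ⟨hi, h4⟩, hmin⟩ := WellFounded.has_min (wellFounded_lt (α := Ordinal.{u}))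
      {i | i < μ ∧ x < b i} (by
        obtain ⟨i, hi, h4⟩ := hb2 x hx
        exact ⟨i, hi, h4⟩)
    exact ⟨i, hi, h4, fun j hj h5 => not_lt.1 (hmin j ⟨hj, h5⟩)⟩
  choose! N hN1 hN2 hN3 using hN
  have hNm : ∀ x y, x ≤ y → y < κ → N x ≤ N y := fun x y hxy hy =>
    hN3 x (hxy.trans_lt hy) _ (hN1 y hy) (hxy.trans_lt (hN2 y hy))
  have hD := club_diag hcf.lim hcf.uc hω (Cf.limit hcf) hN1 hNm
    (C := fun i => ZFSet.sep (fun x => (T i).toZFSet ∈ x) κ.toZFSet)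
    (fun i _ x hx => (mem_sep.1 hx).1) fun i hi => club_tail hcf.lim (hT1 i hi)
  obtain ⟨E, hE1, hE2, hE3⟩ := club_two hcf hω hC1 hC2 (fun x hx => (mem_sep.1 hx).1) hD
  refine ⟨E, hE1, hE2, fun δ s hδ hsδ => ?_⟩
  obtain ⟨h4, h5⟩ := hE3 _ hδ
  have hδκ : δ < κ := tz_mem.1 (hE1 hδ)
  have h6 : ∀ x < δ, T (N x) < δ := fun x hx =>
    tz_mem.1 (mem_sep.1 ((mem_sep.1 h5).2 x (tz_mem.2 hx))).2
  have h7 := (hC3 δ h4).2 s hsδ
  refine cf_mono (u := fun x => h δ (a (N x))) (fun x hx => h1 δ s hsδ _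
    (ha1 _ (hN1 x (hx.trans hδκ)))) (fun x y hxy hy => ?_) fun z hz => ?_
  · rcases (hNm x y hxy (hy.trans hδκ)).lt_or_eq with h8 | h8
    · exact (hT2 _ (hN1 y (hy.trans hδκ)) _ h8 δ (h6 y hy)).le
    · show h δ (a (N x)) ≤ h δ (a (N y))
      rw [h8]
  · rw [← h7] at hz
    obtain ⟨i, hi, h8, h9⟩ := lt_hs.1 hz
    have h10 : i < N (b i) := by
      by_contra h11
      push Not at h11
      have h12 := hN2 (b i) (hb1 i hi)
      rcases h11.lt_or_eq with h13 | h13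
      · exact absurd (h12.trans (hb3 _ _ h13 hi)) (lt_irrefl _)
      · rw [h13] at h12
        exact absurd h12 (lt_irrefl _)
    exact ⟨b i, h8, h9.trans_lt (hT2 _ (hN1 _ (hb1 i hi)) i h10 δ (h6 _ h8))⟩

/-- The case where the successor is computed correctly. -/
theorem case_succ (hκ : IsCard κ.toZFSet) (hcf : Cf μ.toZFSet κ.toZFSet)
    (hω : Ordinal.omega0 < μ) (hμκ : μ < κ) (hη : HSucc κ η)
    (hηκ : η = (Order.succ κ.card).ord) : ∃ C, C ⊆ κ.toZFSet ∧ Club C κ.toZFSet ∧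
      ∀ δ s : Ordinal.{u}, δ.toZFSet ∈ C → HSucc δ s →
        Ordinal.omega0 < δ ∧ s = (Order.succ δ.card).ord := by
  obtain ⟨C, hC1, hC2, hC3⟩ := club_of_not_stat (not_stat_S hκ hcf hω hμκ hη hηκ)
  obtain ⟨E, hE1, hE2, hE3⟩ := club_two hcf hω hC1 hC2 (fun x hx => (mem_sep.1 hx).1)
    (club_tail hcf.lim (hω.trans hμκ))
  refine ⟨E, hE1, hE2, fun δ s hδ hs => ?_⟩
  obtain ⟨h1, h2⟩ := hE3 _ hδ
  have h3 : Ordinal.omega0 < δ := tz_mem.1 (mem_sep.1 h2).2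
  refine ⟨h3, ?_⟩
  have h4 : Cardinal.aleph0 ≤ δ.card := by
    have := Ordinal.card_le_card h3.le
    rwa [Ordinal.card_omega0] at this
  have h5 : RegUnc (Order.succ δ.card).ord.toZFSet :=
    regUnc_ord (Cardinal.isRegular_succ h4) (h4.trans_lt (Order.lt_succ _))
  have h6 : δ < (Order.succ δ.card).ord := by
    rw [Cardinal.lt_ord]
    exact Order.lt_succ _
  rcases lt_trichotomy s (Order.succ δ.card).ord with h7 | h7 | h7
  · refine absurd ?_ (hC3 δ h1)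
    refine ⟨h3, s, hs, ?_⟩
    rw [Cardinal.lt_ord] at h7
    exact Order.lt_succ_iff.1 h7
  · exact h7
  · exact absurd (hodReg_of_regUnc h5) (hs.2.2 _ h6 h7)

theorem notStr_succ {δ s : Ordinal.{u}} (h1 : Ordinal.omega0 ≤ δ) (hs : HSucc δ s)
    (h2 : s = (Order.succ δ.card).ord) (b : Bool) : NotStrMeas b s := by
  have h0 : Cardinal.aleph0 ≤ δ.card := by
    have := Ordinal.card_le_card h1
    rwa [Ordinal.card_omega0] at this
  have hreg : RegUnc s.toZFSet := by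
    rw [h2]
    exact regUnc_ord (Cardinal.isRegular_succ h0) (h0.trans_lt (Order.lt_succ _))
  refine notStrMeas_of_sing b hreg ((statL_om hreg hs.1).mono fun α hα h2 => ⟨h2.2, ?_⟩)
  by_contra hcon
  exact hs.2.2 α h2.1 hα ⟨h2.2.lim.1, h2.2.lim.2, hcon⟩

/-- **A theorem of Silver's type.** -/
theorem silver (hκ : IsCard κ.toZFSet) (hcf : Cf μ.toZFSet κ.toZFSet)
    (hω : Ordinal.omega0 < μ) (hμκ : μ < κ) (hη : HSucc κ η) :
    (η = (Order.succ κ.card).ord ∧ (∀ b : Bool, NotStrMeas b η) ∧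
        ∃ C, C ⊆ κ.toZFSet ∧ Club C κ.toZFSet ∧ ∀ δ s : Ordinal.{u}, δ.toZFSet ∈ C →
          HSucc δ s → s = (Order.succ δ.card).ord ∧ ∀ b : Bool, NotStrMeas b s) ∨
      (Cf Ordinal.omega0.toZFSet η.toZFSet ∧ ∃ C, C ⊆ κ.toZFSet ∧ Club C κ.toZFSet ∧
        ∀ δ s : Ordinal.{u}, δ.toZFSet ∈ C → HSucc δ s →
          Cf Ordinal.omega0.toZFSet s.toZFSet) ∨
      (Cf μ.toZFSet η.toZFSet ∧ ∃ C, C ⊆ κ.toZFSet ∧ Club C κ.toZFSet ∧
        ∀ δ s : Ordinal.{u}, δ.toZFSet ∈ C → HSucc δ s →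
          ∀ θ : Ordinal.{u}, Cf θ.toZFSet δ.toZFSet ↔ Cf θ.toZFSet s.toZFSet) := by
  have hωκ : Ordinal.omega0 ≤ κ := hω.le.trans (Cf.le hcf)
  obtain ⟨ν, _, hν⟩ := exists_Cf hη.2.1.2.1
  rcases succ_cof hωκ hκ hη hν with h1 | h1 | h1
  · left
    refine ⟨h1, fun b => notStr_succ hωκ hη h1 b, ?_⟩
    obtain ⟨C, hC1, hC2, hC3⟩ := case_succ hκ hcf hω hμκ hη h1
    refine ⟨C, hC1, hC2, fun δ s hδ hs => ?_⟩
    obtain ⟨h2, h3⟩ := hC3 δ s hδ hs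
    exact ⟨h3, fun b => notStr_succ h2.le hs h3 b⟩
  · rw [h1] at hν
    exact Or.inr (Or.inl ⟨hν, case_om hκ hcf hω hμκ hη hν⟩)
  · rw [Cf.unique h1 hcf] at hν
    exact Or.inr (Or.inr ⟨hν, case_mu hκ hcf hω hμκ hη hν⟩)

end Pool.Agent.H93.SV
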