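import Pool.Agent.H93.SV.Lad
import Pool.Agent.H93.SC.Card

/-!
Increasing sequences of functions given by a ladder system.
-/

set_option autoImplicit false
set_option linter.unusedVariables false

namespace Pool.Agent.H93.SV

open ZFSet Gss969 Pool.Agent.H310.HD Pool.Agent.H93.HM Pool.Agent.H93.SC

universe u

variable {l κ η δ : Ordinal.{u}} {A : ZFSet.{u}} {F : Ordinal.{u} → Ordinal.{u} → Ordinal.{u}}
  {γ : Ordinal.{u} → Ordinal.{u}}

/-- Ladders are short. -/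
theorem Lad.len (hL : Lad l A F γ) {r : Ordinal.{u}} (hδ : 0 < δ) (hr : r < l)
    (hno : ∀ θ, δ < θ → θ ≤ r → ¬ HODReg θ) : γ r ≤ δ := by
  by_contra h
  push Not at h
  have hr0 : 0 < r := (bot_le.trans_lt h).trans_le (hL.le r hr)
  by_cases hlim : ∀ x < r, Order.succ x < r
  · obtain ⟨m, hm, hcf⟩ := exists_Cf hlim
    have hm0 : 0 < m := by
      rcases (bot_le : (0 : Ordinal.{u}) ≤ m).lt_or_eq with h1 | h1
      · exact h1
      · exfalso
        rw [← h1] at hcf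
        obtain ⟨e, _, he⟩ := Cf.seq hcf
        obtain ⟨i, hi, _⟩ := he 0 hr0
        exact absurd hi not_lt_bot
    obtain ⟨θ, hθr, hθ, _, ⟨f, hf, hF, _⟩, _⟩ := exists_hcof hm0 hcf
    have h1 : γ r ≤ θ := by
      by_contra h2
      push Not at h2
      refine hL.min r hr θ h2 ⟨f, hf, hF.1, fun x hx => ?_⟩
      obtain ⟨n, hn, z, hz, h3, h4⟩ := hF.2 x hx
      exact ⟨n, hn, z, hz, h3, Or.inl h4⟩
    exact hno θ (h.trans_le h1) hθr hθ
  · push Not at hlim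
    obtain ⟨β, hβ, hβ'⟩ := hlim
    have hrβ : r = Order.succ β := le_antisymm hβ' (Order.succ_le_of_lt hβ)
    have h1 : (1 : Ordinal.{u}) < γ r := (Order.one_le_iff_pos.2 hδ).trans_lt h
    refine hL.min r hr 1 h1 ⟨_, HOD_rel (A := fun x y v => y = v 0) (Dfn.eq _ _) 1 r
      [β.toZFSet] ?_, ⟨fun p hp => (mem_sep.1 hp).1, fun x hx => ⟨β.toZFSet,
        mem_rel.2 ⟨hx, tz_mem.2 hβ, rfl⟩, fun y hy => (mem_rel.1 hy).2.2⟩⟩, fun x hx => ?_⟩
    · intro p hp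
      rw [List.mem_singleton] at hp
      rw [hp]
      exact OD_ord _
    · refine ⟨_, tz_mem.2 zero_lt_one, β.toZFSet, tz_mem.2 hβ,
        mem_rel.2 ⟨tz_mem.2 zero_lt_one, tz_mem.2 hβ, rfl⟩, ?_⟩
      obtain ⟨x, hx', rfl⟩ := Ordinal.mem_toZFSet_iff.1 hx
      rw [hrβ, Order.lt_succ_iff] at hx'
      rcases hx'.lt_or_eq with h2 | h2
      · exact Or.inl (tz_mem.2 h2)
      · exact Or.inr (by rw [h2])

open Classical in
/-- The rank with respect to the first `δ` elements of the ladders. -/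
noncomputable def hh (F : Ordinal.{u} → Ordinal.{u} → Ordinal.{u}) (γ : Ordinal.{u} → Ordinal.{u})
    (δ : Ordinal.{u}) : Ordinal.{u} → Ordinal.{u} :=
  WellFounded.fix (C := fun _ => Ordinal.{u}) (wellFounded_lt (α := Ordinal.{u})) fun α ih =>
    ⨆ β : Set.Iio α, if (∃ i < δ, i < γ α ∧ F α i = β.1) then Order.succ (ih β.1 β.2) else 0

theorem lt_hh {x α : Ordinal.{u}} : x < hh F γ δ α ↔
    ∃ i < δ, i < γ α ∧ F α i < α ∧ x ≤ hh F γ δ (F α i) := by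
  classical
  rw [hh, WellFounded.fix_eq, Ordinal.lt_iSup_iff]
  constructor
  · rintro ⟨⟨β, hβ⟩, h⟩
    by_cases h1 : ∃ i < δ, i < γ α ∧ F α i = β
    · rw [if_pos h1, Order.lt_succ_iff] at h
      obtain ⟨i, hi, hi', rfl⟩ := h1
      exact ⟨i, hi, hi', hβ, h⟩
    · rw [if_neg h1] at h
      exact absurd h not_lt_bot
  · rintro ⟨i, hi, hi', h1, h2⟩
    refine ⟨⟨F α i, h1⟩, ?_⟩
    rw [if_pos ⟨i, hi, hi', rfl⟩]
    exact Order.lt_succ_iff.2 h2

theorem hh_le (α : Ordinal.{u}) : hh F γ δ α ≤ α := by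
  induction α using WellFoundedLT.induction with
  | ind α ih =>
    by_contra h
    push Not at h
    obtain ⟨i, _, _, h1, h2⟩ := lt_hh.1 h
    exact absurd ((h2.trans (ih _ h1)).trans_lt h1) (lt_irrefl _)

/-- The recursion. -/
def RecF (A d L g : ZFSet.{u}) : Prop := ∀ x ∈ L, ∀ y ∈ L, pair x y ∈ g → ∀ v ∈ L,
  (v ∈ y ↔ ∃ i ∈ d, ∃ z ∈ L, ∃ w ∈ L, pair x (pair i z) ∈ A ∧ pair z w ∈ g ∧ (v ∈ w ∨ v = w))

theorem dfn_RecF (a b c d : ℕ) : Dfn Gd.{u} (fun v => RecF (v a) (v b) (v c) (v d)) := by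
  unfold RecF
  refine Dfn.ball Gd_Trs _ (Dfn.ball Gd_Trs _ (Dfn.imp (dfn_pm Gd_Trs _ _ _) ?_))
  refine Dfn.ball Gd_Trs _ (Dfn.iff (Dfn.mem _ _) ?_)
  refine Dfn.bex Gd_Trs _ (Dfn.bex Gd_Trs _ (Dfn.bex Gd_Trs _ ?_))
  exact (dfn_pm3 _ _ _ _).and ((dfn_pm Gd_Trs _ _ _).and ((Dfn.mem _ _).or (Dfn.eq _ _)))

theorem recF_unique (hL : Lad l A F γ) {g : ZFSet.{u}} (hg : IsFunc l.toZFSet l.toZFSet g)
    (hR : RecF A δ.toZFSet l.toZFSet g) : ∀ α < l, ∀ y : Ordinal.{u},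
    pair α.toZFSet y.toZFSet ∈ g → y = hh F γ δ α := by
  intro α
  induction α using WellFoundedLT.induction with
  | ind α ih =>
    intro hα y hy
    have hyl : y < l := tz_mem.1 (pair_mem_prod.1 (hg.1 hy)).2
    have hhl : hh F γ δ α < l := (hh_le α).trans_lt hα
    have key : ∀ v < l, (v < y ↔ v < hh F γ δ α) := by
      intro v hv
      have h1 := hR _ (tz_mem.2 hα) _ (tz_mem.2 hyl) hy _ (tz_mem.2 hv)
      rw [tz_mem] at h1
      rw [h1, lt_hh]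
      constructor
      · rintro ⟨i, hi, z, hz, w, hw, h2, h3, h4⟩
        obtain ⟨i, hi', rfl⟩ := Ordinal.mem_toZFSet_iff.1 hi
        obtain ⟨z, hz', rfl⟩ := Ordinal.mem_toZFSet_iff.1 hz
        obtain ⟨w, hw', rfl⟩ := Ordinal.mem_toZFSet_iff.1 hw
        obtain ⟨_, h5, rfl⟩ := (hL.mem _ _ _).1 h2
        have h6 := hL.lt α hα i h5
        rw [ih _ h6 hz' w h3] at h4
        refine ⟨i, hi', h5, h6, ?_⟩
        rcases h4 with h4 | h4
        · exact (tz_mem.1 h4).le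
        · exact (Ordinal.toZFSet_injective h4).le
      · rintro ⟨i, hi, hi', h2, h3⟩
        have hz : F α i < l := h2.trans hα
        obtain ⟨w, hw, _⟩ := hg.2 _ (tz_mem.2 hz)
        obtain ⟨w, hw', rfl⟩ := Ordinal.mem_toZFSet_iff.1 (pair_mem_prod.1 (hg.1 hw)).2
        refine ⟨_, tz_mem.2 hi, _, tz_mem.2 hz, _, tz_mem.2 hw', (hL.mem _ _ _).2 ⟨hα, hi', rfl⟩,
          hw, ?_⟩
        rw [ih _ h2 hz w hw]
        rcases h3.lt_or_eq with h4 | h4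
        · exact Or.inl (tz_mem.2 h4)
        · exact Or.inr (by rw [h4])
    refine le_antisymm ?_ ?_
    · by_contra h
      push Not at h
      exact absurd ((key _ hhl).1 h) (lt_irrefl _)
    · by_contra h
      push Not at h
      exact absurd ((key _ hyl).2 h) (lt_irrefl _)

theorem exists_recF (hL : Lad l A F γ) : ∃ g, IsFunc l.toZFSet l.toZFSet g ∧
    RecF A δ.toZFSet l.toZFSet g ∧ ∀ α < l, pair (Ordinal.toZFSet α) (hh F γ δ α).toZFSet ∈ g := by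
  obtain ⟨g, hg⟩ : ∃ g : ZFSet.{u}, g = ZFSet.sep (fun p => ∃ x y, p = pair x y ∧
      ∃ a : Ordinal.{u}, x = a.toZFSet ∧ y = (hh F γ δ a).toZFSet)
      (prod l.toZFSet l.toZFSet) := ⟨_, rfl⟩
  have hm : ∀ a : Ordinal.{u}, ∀ y, pair a.toZFSet y ∈ g ↔ a < l ∧ y = (hh F γ δ a).toZFSet := by
    intro a y
    rw [hg, mem_rel (B := fun x y => ∃ a : Ordinal.{u}, x = a.toZFSet ∧
      y = (hh F γ δ a).toZFSet), tz_mem]
    constructor
    · rintro ⟨h1, h2, b, h3, h4⟩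
      rw [Ordinal.toZFSet_injective h3]
      exact ⟨Ordinal.toZFSet_injective h3 ▸ h1, h4⟩
    · rintro ⟨h1, rfl⟩
      exact ⟨h1, tz_mem.2 ((hh_le a).trans_lt h1), a, rfl, rfl⟩
  refine ⟨g, ⟨fun p hp => ?_, fun x hx => ?_⟩, ?_, fun α hα => (hm _ _).2 ⟨hα, rfl⟩⟩
  · rw [hg] at hp
    exact (mem_sep.1 hp).1
  · obtain ⟨x, hx', rfl⟩ := Ordinal.mem_toZFSet_iff.1 hx
    exact ⟨_, (hm _ _).2 ⟨hx', rfl⟩, fun y hy => ((hm _ _).1 hy).2⟩
  · intro x hx y hy hxy v hv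
    obtain ⟨x, hx', rfl⟩ := Ordinal.mem_toZFSet_iff.1 hx
    obtain ⟨v, hv', rfl⟩ := Ordinal.mem_toZFSet_iff.1 hv
    obtain ⟨_, rfl⟩ := (hm _ _).1 hxy
    rw [tz_mem, lt_hh]
    constructor
    · rintro ⟨i, hi, hi', h2, h3⟩
      have hz : F x i < l := h2.trans hx'
      refine ⟨_, tz_mem.2 hi, _, tz_mem.2 hz, _, tz_mem.2 ((hh_le (F x i)).trans_lt hz),
        (hL.mem _ _ _).2 ⟨hx', hi', rfl⟩, (hm _ _).2 ⟨hz, rfl⟩, ?_⟩
      rcases h3.lt_or_eq with h4 | h4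
      · exact Or.inl (tz_mem.2 h4)
      · exact Or.inr (by rw [h4])
    · rintro ⟨i, hi, z, hz, w, hw, h2, h3, h4⟩
      obtain ⟨i, hi', rfl⟩ := Ordinal.mem_toZFSet_iff.1 hi
      obtain ⟨z, hz', rfl⟩ := Ordinal.mem_toZFSet_iff.1 hz
      obtain ⟨_, h5, rfl⟩ := (hL.mem _ _ _).1 h2
      obtain ⟨_, rfl⟩ := (hm _ _).1 h3
      refine ⟨i, hi', h5, hL.lt x hx' i h5, ?_⟩
      rcases h4 with h4 | h4
      · exact (tz_mem.1 h4).le
      · exact (Ordinal.toZFSet_injective h4).le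

/-- The graph of all the ranks is in `HOD`. -/
theorem exists_H (hL : Lad l A F γ) (κ : Ordinal.{u}) : ∃ H, HOD H ∧
    ∀ α δ y : Ordinal.{u}, pair α.toZFSet (pair δ.toZFSet y.toZFSet) ∈ H ↔
      α < l ∧ δ < κ ∧ y = hh F γ δ α := by
  refine ⟨ZFSet.sep (fun p => ∃ x q, p = pair x q ∧ ∃ y z, q = pair y z ∧
    ∃ g, IsFunc l.toZFSet l.toZFSet g ∧ (RecF A y l.toZFSet g ∧ pair x z ∈ g))
    (prod l.toZFSet (prod κ.toZFSet l.toZFSet)), ?_, fun α δ y => ?_⟩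
  · refine HOD_rel3 (A := fun x y z v => ∃ g, IsFunc (v 0) (v 0) g ∧
      (RecF (v 1) y (v 0) g ∧ pair x z ∈ g)) ?_ l κ l [l.toZFSet, A] ?_
    · exact Dfn_exfunG _ _ ((dfn_RecF _ _ _ _).and (dfn_pm Gd_Trs _ _ _))
    · intro p hp
      simp only [List.mem_cons, List.not_mem_nil, or_false] at hp
      rcases hp with rfl | rfl
      · exact OD_ord _
      · exact hL.hod.od
  · rw [mem_rel3, tz_mem, tz_mem, tz_mem]
    constructor
    · rintro ⟨h1, h2, h3, g, hg, hR, hp⟩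
      exact ⟨h1, h2, recF_unique hL hg hR α h1 y hp⟩
    · rintro ⟨h1, h2, rfl⟩
      obtain ⟨g, hg, hR, hp⟩ := exists_recF (δ := δ) hL
      exact ⟨h1, h2, (hh_le α).trans_lt h1, g, hg, hR, hp α h1⟩

/-- The ranks are small. -/
theorem hh_lt (hL : Lad l A F γ) {s : Ordinal.{u}} (hs : HODReg s) (hδ : δ < s) :
    ∀ α < l, hh F γ δ α < s := by
  obtain ⟨H, hHO, hH⟩ := exists_H hL (Order.succ δ)
  intro α
  induction α using WellFoundedLT.induction with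
  | ind α ih =>
    intro hα
    by_contra hcon
    push Not at hcon
    have hval : ∀ i, i < γ α → hh F γ δ (F α i) < s := fun i hi =>
      ih _ (hL.lt α hα i hi) ((hL.lt α hα i hi).trans hα)
    obtain ⟨m, hm⟩ : ∃ m, m = min δ (γ α) := ⟨_, rfl⟩
    have hmδ : m < s := by rw [hm]; exact (min_le_left _ _).trans_lt hδ
    obtain ⟨G, hG⟩ : ∃ G : ZFSet.{u}, G = ZFSet.sep (fun p => ∃ x y, p = pair x y ∧
        ∃ z ∈ l.toZFSet, pair α.toZFSet (pair x z) ∈ A ∧ pair z (pair δ.toZFSet y) ∈ H)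
        (prod m.toZFSet s.toZFSet) := ⟨_, rfl⟩
    have hGm : ∀ i y : Ordinal.{u}, pair i.toZFSet y.toZFSet ∈ G ↔
        i < m ∧ y = hh F γ δ (F α i) := by
      intro i y
      rw [hG, mem_rel (B := fun x y => ∃ z ∈ l.toZFSet, pair α.toZFSet (pair x z) ∈ A ∧
        pair z (pair δ.toZFSet y) ∈ H), tz_mem, tz_mem]
      constructor
      · rintro ⟨h1, h2, z, hz, h3, h4⟩
        obtain ⟨z, hz', rfl⟩ := Ordinal.mem_toZFSet_iff.1 hz
        obtain ⟨_, _, rfl⟩ := (hL.mem _ _ _).1 h3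
        exact ⟨h1, ((hH _ _ _).1 h4).2.2⟩
      · rintro ⟨h1, rfl⟩
        have h2 : i < γ α := h1.trans_le (by rw [hm]; exact min_le_right _ _)
        have h3 := (hL.lt α hα i h2).trans hα
        exact ⟨h1, hval i h2, _, tz_mem.2 h3, (hL.mem _ _ _).2 ⟨hα, h2, rfl⟩,
          (hH _ _ _).2 ⟨h3, Order.lt_succ δ, rfl⟩⟩
    refine hs.2.2 ⟨m.toZFSet, tz_mem.2 hmδ, G, ?_, ⟨fun p hp => ?_, fun x hx => ?_⟩,
      fun y hy => ?_⟩
    · rw [hG]
      refine HOD_rel (A := fun x y v => ∃ z ∈ v 0, pair (v 1) (pair x z) ∈ v 2 ∧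
        pair z (pair (v 3) y) ∈ v 4) ?_ m s [l.toZFSet, α.toZFSet, A, δ.toZFSet, H] ?_
      · exact Dfn.bex Gd_Trs _ ((dfn_pm3 _ _ _ _).and (dfn_pm3 _ _ _ _))
      · intro p hp
        simp only [List.mem_cons, List.not_mem_nil, or_false] at hp
        rcases hp with rfl | rfl | rfl | rfl | rfl
        · exact OD_ord _
        · exact OD_ord _
        · exact hL.hod.od
        · exact OD_ord _
        · exact hHO.od
    · rw [hG] at hp
      exact (mem_sep.1 hp).1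
    · obtain ⟨i, hi, rfl⟩ := Ordinal.mem_toZFSet_iff.1 hx
      refine ⟨_, (hGm _ _).2 ⟨hi, rfl⟩, fun y hy => ?_⟩
      have h1 : y ∈ s.toZFSet := by
        rw [hG] at hy
        exact (mem_rel.1 hy).2.1
      obtain ⟨y, _, rfl⟩ := Ordinal.mem_toZFSet_iff.1 h1
      rw [((hGm _ _).1 hy).2]
    · obtain ⟨y, hy', rfl⟩ := Ordinal.mem_toZFSet_iff.1 hy
      have h1 := hs.2.1 y hy'
      obtain ⟨i, hi, hi', _, h2⟩ := lt_hh.1 (h1.trans_le hcon)
      exact ⟨_, tz_mem.2 (show i < m by rw [hm]; exact lt_min hi hi'), _,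
        tz_mem.2 (hval i hi'), (hGm _ _).2 ⟨by rw [hm]; exact lt_min hi hi', rfl⟩,
        tz_mem.2 ((Order.lt_succ y).trans_le h2)⟩

/-- The functions are increasing at the end. -/
theorem hh_tail (hL : Lad l A F γ) (hηl : η ≤ l) (hγ : ∀ α < η, γ α ≤ κ) : ∀ α < η, ∀ β < α,
    ∃ t < κ, ∀ δ, t < δ → hh F γ δ β < hh F γ δ α := by
  intro α
  induction α using WellFoundedLT.induction with
  | ind α ih =>
    intro hα β hβ
    obtain ⟨i, hi, h1⟩ := hL.cof α (hα.trans_le hηl) β hβ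
    have h2 := hL.lt α (hα.trans_le hηl) i hi
    have h3 : ∀ δ, i < δ → hh F γ δ (F α i) < hh F γ δ α := fun δ hδ =>
      lt_hh.2 ⟨i, hδ, hi, h2, le_rfl⟩
    have hiκ : i < κ := hi.trans_le (hγ α hα)
    rcases h1.lt_or_eq with h4 | h4
    · obtain ⟨t, ht, h5⟩ := ih _ h2 (h2.trans hα) β h4
      exact ⟨max i t, max_lt hiκ ht, fun δ hδ => (h5 δ ((le_max_right _ _).trans_lt hδ)).trans
        (h3 δ ((le_max_left _ _).trans_lt hδ))⟩
    · rw [h4]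
      exact ⟨i, hiκ, h3⟩

end Pool.Agent.H93.SV
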