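import Pool.Agent.H93.SV.Rel

/-!
A ladder system in `HOD`.
-/

set_option autoImplicit false
set_option linter.unusedVariables false

namespace Pool.Agent.H93.SV

open ZFSet Gss969 Pool.Agent.H310.HD Pool.Agent.H93.HM Pool.Agent.H93.SC

universe u

/-- The identity. -/
theorem exists_id (r : Ordinal.{u}) : ∃ f, HOD f ∧ WCo r.toZFSet r.toZFSet f := by
  refine ⟨_, HOD_rel (A := fun x y _ => x = y) (Dfn.eq _ _) r r [] (by simp), ⟨fun p hp =>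
    (mem_sep.1 hp).1, fun x hx => ⟨x, mem_rel.2 ⟨hx, hx, rfl⟩, fun y hy => ?_⟩⟩, fun x hx => ?_⟩
  · exact ((mem_rel.1 hy).2.2).symm
  · exact ⟨x, hx, x, hx, mem_rel.2 ⟨hx, hx, rfl⟩, Or.inr rfl⟩

/-- Ladders in `HOD`. -/
structure Lad (l : Ordinal.{u}) (A : ZFSet.{u}) (F : Ordinal.{u} → Ordinal.{u} → Ordinal.{u})
    (γ : Ordinal.{u} → Ordinal.{u}) : Prop where
  hod : HOD A
  le : ∀ r < l, γ r ≤ r
  lt : ∀ r < l, ∀ i < γ r, F r i < r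
  cof : ∀ r < l, ∀ x < r, ∃ i < γ r, x ≤ F r i
  min : ∀ r < l, ∀ g < γ r, ¬ ∃ f, HOD f ∧ WCo (Ordinal.toZFSet g) r.toZFSet f
  mem : ∀ r i z : Ordinal.{u}, pair r.toZFSet (pair i.toZFSet z.toZFSet) ∈ A ↔
    r < l ∧ i < γ r ∧ z = F r i

theorem exists_lad (l : Ordinal.{u}) : ∃ A F γ, Lad l A F γ := by
  classical
  obtain ⟨ρ, hρ⟩ := exists_rho (prod l.toZFSet l.toZFSet)
  obtain ⟨ζ, hζ, hU⟩ := exists_Gd (max l ρ)
  have hin : ∀ α : Ordinal.{u}, α ≤ max l ρ → α.toZFSet ∈ V_ ζ := by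
    intro α hα
    rw [mem_vonNeumann, Ordinal.rank_toZFSet]
    exact hα.trans_lt hζ
  have hlU := hin l (le_max_left _ _)
  have hρU := hin ρ (le_max_right _ _)
  have hLU := Lvl_prod (Gd_Lvl hU) hlU hlU
  obtain ⟨L, hL⟩ : ∃ L, L = prod l.toZFSet l.toZFSet := ⟨_, rfl⟩
  have hLOD : OD L := by rw [hL]; exact (HOD_prod l l).od
  rw [← hL] at hρ hLU
  -- the least length
  have hlen : ∀ r < l, ∃ g ≤ r, (∃ f, HOD f ∧ WCo (Ordinal.toZFSet g) r.toZFSet f) ∧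
      ∀ g' < g, ¬ ∃ f, HOD f ∧ WCo (Ordinal.toZFSet g') r.toZFSet f := by
    intro r hr
    obtain ⟨g, hg, hmin⟩ := WellFounded.has_min (wellFounded_lt (α := Ordinal.{u}))
      {g | ∃ f, HOD f ∧ WCo (Ordinal.toZFSet g) r.toZFSet f} ⟨r, exists_id r⟩
    exact ⟨g, not_lt.1 (hmin r (exists_id r)), hg, fun g' hg' h => hmin g' h hg'⟩
  choose! γ hγ1 hγ2 hγ3 using hlen
  have hMn : ∀ r < l, Mn (γ r).toZFSet r.toZFSet := by
    rintro r hr g' hg' ⟨f, _, hf, hf'⟩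
    obtain ⟨g', hg, rfl⟩ := Ordinal.mem_toZFSet_iff.1 hg'
    exact hγ3 r hr g' hg ⟨f, hf, hf'⟩
  obtain ⟨Q, hQ⟩ : ∃ Q : Ordinal.{u} → Set ZFSet.{u},
      Q = fun r => {Y | MC (V_ ζ) (pair L ρ.toZFSet) L r.toZFSet Y} := ⟨_, rfl⟩
  have hQfin : ∀ r, (Q r).Finite := by
    intro r
    rw [hQ]
    exact mc_fin _ _ _ _
  have hQne : ∀ r < l, (Q r).Nonempty := by
    intro r hr
    rw [hQ]
    obtain ⟨f, hf, hf'⟩ := hγ2 r hr
    refine exists_mc hU (hin r (hr.le.trans (le_max_left _ _))) hLU hρU hρ ⟨f, ?_, hf, ?_⟩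
    · intro p hp
      rw [hL]
      obtain ⟨x, hx, y, hy, rfl⟩ := mem_prod.1 (hf'.1.1 hp)
      exact pair_mem_prod.2 ⟨ord_sub ((hγ1 r hr).trans hr.le) hx, ord_sub hr.le hy⟩
    · rcases (hγ1 r hr).lt_or_eq with h | h
      · exact Or.inl ⟨_, tz_mem.2 h, hf', hMn r hr⟩
      · right
        have h1 := hMn r hr
        rw [h] at hf' h1
        exact ⟨hf', h1⟩
  have hQsub : ∀ r, ∀ Y ∈ Q r, Y ⊆ L := by
    intro r Y hY
    rw [hQ] at hY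
    obtain ⟨n, h, _⟩ := mc_iff.1 hY
    exact h.1
  have hQw : ∀ r < l, ∀ Y ∈ Q r, WCo (γ r).toZFSet r.toZFSet Y := by
    intro r hr Y hY
    rw [hQ] at hY
    obtain ⟨n, ⟨_, ⟨hYO, h⟩, _⟩, _⟩ := mc_iff.1 hY
    have key : ∀ g : Ordinal.{u}, WCo g.toZFSet r.toZFSet Y → Mn g.toZFSet r.toZFSet →
        g = γ r := by
      intro g h1 h2
      obtain ⟨f, hf, hf'⟩ := hγ2 r hr
      rcases lt_trichotomy g (γ r) with h3 | h3 | h3
      · exact absurd ⟨Y, hYO, h1⟩ (hγ3 r hr g h3)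
      · exact h3
      · exact absurd ⟨f, hf'.1, hf, hf'⟩ (h2 _ (tz_mem.2 h3))
    rcases h with ⟨g, hg, h1, h2⟩ | ⟨h1, h2⟩
    · obtain ⟨g, _, rfl⟩ := Ordinal.mem_toZFSet_iff.1 hg
      rw [← key g h1 h2]
      exact h1
    · rw [← key r h1 h2]
      exact h1
  -- the maximum
  have hmax : ∀ r < l, ∀ i < γ r, ∃ z < r, (∃ Y ∈ Q r, pair i.toZFSet z.toZFSet ∈ Y) ∧
      ∀ Y ∈ Q r, ∀ z' : Ordinal.{u}, pair i.toZFSet z'.toZFSet ∈ Y → z' ≤ z := by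
    intro r hr i hi
    obtain ⟨Y, hY, hYm⟩ := Set.exists_max_image (Q r) (fun Y => rank (app Y i.toZFSet))
      (hQfin r) (hQne r hr)
    obtain ⟨z, hz, hz'⟩ := Ordinal.mem_toZFSet_iff.1
      (app_mem (hQw r hr Y hY).1 (tz_mem.2 hi))
    refine ⟨z, hz, ⟨Y, hY, ?_⟩, fun Y' hY' z' h => ?_⟩
    · rw [hz']
      exact app_spec (hQw r hr Y hY).1 (tz_mem.2 hi)
    · have h1 : rank (app Y' i.toZFSet) ≤ rank (app Y i.toZFSet) := hYm Y' hY'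
      rw [← hz', (app_iff (hQw r hr Y' hY').1 (tz_mem.2 hi)).1 h, Ordinal.rank_toZFSet,
        Ordinal.rank_toZFSet] at h1
      exact h1
  choose! F hF1 hF2 hF3 using hmax
  obtain ⟨A, hA⟩ : ∃ A : ZFSet.{u}, A = ZFSet.sep (fun p => ∃ x q, p = pair x q ∧
      ∃ y z, q = pair y z ∧ ((∃ Y, Y ⊆ L ∧ (MC (V_ ζ) (pair L ρ.toZFSet) L x Y ∧
        pair y z ∈ Y)) ∧ ∀ Y, Y ⊆ L → MC (V_ ζ) (pair L ρ.toZFSet) L x Y →
          ∀ w ∈ l.toZFSet, pair y w ∈ Y → (w ∈ z ∨ w = z)))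
      (prod l.toZFSet (prod l.toZFSet l.toZFSet)) := ⟨_, rfl⟩
  refine ⟨A, F, γ, ?_, hγ1, hF1, fun r hr x hx => ?_, hγ3, fun r i z => ?_⟩
  · rw [hA]
    refine HOD_rel3 (A := fun x y z v => (∃ Y, Y ⊆ v 0 ∧ (MC (v 1) (v 2) (v 0) x Y ∧
        pair y z ∈ Y)) ∧ ∀ Y, Y ⊆ v 0 → MC (v 1) (v 2) (v 0) x Y →
          ∀ w ∈ v 3, pair y w ∈ Y → (w ∈ z ∨ w = z)) ?_ l l l
      [L, V_ ζ, pair L ρ.toZFSet, l.toZFSet] ?_
    · repeat' first
        | exact Dfn.mem _ _ | exact Dfn.eq _ _ | exact dfn_pm Gd_Trs _ _ _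
        | exact dfn_MC _ _ _ _ _
        | refine Dfn.exsub Gd_Lvl _ ?_ | refine Dfn.allsub Gd_Lvl _ ?_
        | refine Dfn.ball Gd_Trs _ ?_
        | refine Dfn.and ?_ ?_ | refine Dfn.or ?_ ?_ | refine Dfn.imp ?_ ?_
    · intro p hp
      simp only [List.mem_cons, List.not_mem_nil, or_false] at hp
      rcases hp with rfl | rfl | rfl | rfl
      · exact hLOD
      · exact OD_lev ζ
      · rw [hL]
        exact (HOD_pair (HOD_prod l l) (HOD_ord _)).od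
      · exact OD_ord _
  · obtain ⟨Y, hY⟩ := hQne r hr
    obtain ⟨i, hi, y, hy, hiy, hxy⟩ := (hQw r hr Y hY).2 _ (tz_mem.2 hx)
    obtain ⟨i, hi', rfl⟩ := Ordinal.mem_toZFSet_iff.1 hi
    obtain ⟨y, hy', rfl⟩ := Ordinal.mem_toZFSet_iff.1 hy
    refine ⟨i, hi', le_trans ?_ (hF3 r hr i hi' Y hY y hiy)⟩
    rcases hxy with h | h
    · exact (tz_mem.1 h).le
    · exact (Ordinal.toZFSet_injective h).le
  · rw [hA, mem_rel3]
    constructor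
    · rintro ⟨hr, hi, hz, ⟨Y, hYL, hYM, hiz⟩, hm⟩
      have hr := tz_mem.1 hr
      have hYQ : Y ∈ Q r := by rw [hQ]; exact hYM
      have hi : i < γ r := by
        have := (pair_mem_prod.1 ((hQw r hr Y hYQ).1.1 hiz)).1
        exact tz_mem.1 this
      refine ⟨hr, hi, le_antisymm (hF3 r hr i hi Y hYQ z hiz) ?_⟩
      obtain ⟨Y', hY', h⟩ := hF2 r hr i hi
      have hY'M : MC (V_ ζ) (pair L ρ.toZFSet) L r.toZFSet Y' := by rw [hQ] at hY'; exact hY'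
      rcases hm Y' (hQsub r Y' hY') hY'M _ (tz_mem.2 ((hF1 r hr i hi).trans hr)) h with h1 | h1
      · exact (tz_mem.1 h1).le
      · exact (Ordinal.toZFSet_injective h1).le
    · rintro ⟨hr, hi, rfl⟩
      obtain ⟨Y', hY', h⟩ := hF2 r hr i hi
      have hY'M : MC (V_ ζ) (pair L ρ.toZFSet) L r.toZFSet Y' := by rw [hQ] at hY'; exact hY'
      refine ⟨tz_mem.2 hr, tz_mem.2 (hi.trans_le ((hγ1 r hr).trans hr.le)),
        tz_mem.2 ((hF1 r hr i hi).trans hr), ⟨Y', hQsub r Y' hY', hY'M, h⟩, ?_⟩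
      intro Y hYL hYM w hw hiw
      have hYQ : Y ∈ Q r := by rw [hQ]; exact hYM
      obtain ⟨w, _, rfl⟩ := Ordinal.mem_toZFSet_iff.1 hw
      rcases (hF3 r hr i hi Y hYQ w hiw).lt_or_eq with h1 | h1
      · exact Or.inl (tz_mem.2 h1)
      · exact Or.inr (by rw [h1])

end Pool.Agent.H93.SV
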