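import Pool.Agent.H93.SV.Hfun

/-!
Canonical least upper bounds modulo nonstationary sets.
-/

set_option autoImplicit false
set_option linter.unusedVariables false

namespace Pool.Agent.H93.SV

open ZFSet Gss969 Pool.Agent.H310.HD Pool.Agent.H93.HM Pool.Agent.H93.SC

universe u

variable {κ η μ : Ordinal.{u}} {H : ZFSet.{u}} {h : Ordinal.{u} → Ordinal.{u} → Ordinal.{u}}

/-- The elements of `k` with the property form a stationary set. -/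
def StF (k : ZFSet.{u}) (P : ZFSet.{u} → Prop) : Prop :=
  ∀ C, C ⊆ k → Club C k → ∃ x ∈ C, P x

theorem stF_iff {P : ZFSet.{u} → Prop} : StF κ.toZFSet P ↔
    StatL {δ : Ordinal.{u} | P δ.toZFSet} κ := by
  constructor
  · intro h1 C hC1 hC2
    obtain ⟨x, hx, hx'⟩ := h1 C hC1 hC2
    obtain ⟨α, hα, rfl⟩ := Ordinal.mem_toZFSet_iff.1 (hC1 hx)
    exact ⟨α, hα, hx', hx⟩
  · intro h1 C hC1 hC2
    obtain ⟨α, _, h1, h2⟩ := h1 C hC1 hC2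
    exact ⟨_, h2, h1⟩

theorem dfn_StF (k : ℕ) {A : ZFSet.{u} → (ℕ → ZFSet.{u}) → Prop}
    (hA : Dfn Gd.{u} (fun w => A (w 0) (fun n => w (n + 1)))) :
    Dfn Gd.{u} (fun v => StF (v k) (fun x => A x v)) := by
  refine Dfn.allsub Gd_Lvl k (Dfn.imp ((dfn_Club 0 (k + 1)).mono Gd_Lvl) (Dfn.bex Gd_Trs 0 ?_))
  exact Dfn_reindex hA (fun n => if n = 0 then 0 else n + 1)

theorem Dfn_allfunG (i l : ℕ) {A : ZFSet.{u} → (ℕ → ZFSet.{u}) → Prop}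
    (h : Dfn Gd (fun w => A (w 0) (fun n => w (n + 1)))) :
    Dfn Gd (fun v => ∀ s, IsFunc (v i) (v l) s → A s v) :=
  (Dfn_exfunG i l (A := fun s v => ¬ A s v) h.not).not.congr fun v => by
    push Not; exact Iff.rfl

/-- The function `f` is a least upper bound modulo nonstationary sets. -/
def KK (k e H f : ZFSet.{u}) : Prop :=
  (∀ α ∈ e, ¬ StF k (fun d => ∃ y ∈ e, ∃ r ∈ e, pair α (pair d y) ∈ H ∧
    (pair d r ∈ f ∧ ¬ y ∈ r))) ∧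
  ∀ g, IsFunc k e g → StF k (fun d => ∃ x ∈ e, ∃ r ∈ e, pair d x ∈ g ∧ (pair d r ∈ f ∧ x ∈ r)) →
    ∃ α ∈ e, StF k (fun d => ∃ x ∈ e, ∃ r ∈ e, ∃ y ∈ e, pair d x ∈ g ∧ (pair d r ∈ f ∧
      (x ∈ r ∧ (pair α (pair d y) ∈ H ∧ (x ∈ y ∨ x = y)))))

theorem dfn_KK (a b c d : ℕ) : Dfn Gd.{u} (fun v => KK (v a) (v b) (v c) (v d)) := by
  unfold KK
  refine Dfn.and (Dfn.ball Gd_Trs _ (Dfn.not ?_)) (Dfn_allfunG _ _ (Dfn.imp ?_
    (Dfn.bex Gd_Trs _ ?_)))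
  · refine dfn_StF (a + 1) (A := fun x v => ∃ y ∈ v (b + 1), ∃ r ∈ v (b + 1),
      pair (v 0) (pair x y) ∈ v (c + 1) ∧ (pair x r ∈ v (d + 1) ∧ ¬ y ∈ r)) ?_
    refine Dfn.bex Gd_Trs _ (Dfn.bex Gd_Trs _ ?_)
    exact (dfn_pm3 _ _ _ _).and ((dfn_pm Gd_Trs _ _ _).and (Dfn.mem _ _).not)
  · refine dfn_StF (a + 1) (A := fun z v => ∃ x ∈ v (b + 1), ∃ r ∈ v (b + 1),
      pair z x ∈ v 0 ∧ (pair z r ∈ v (d + 1) ∧ x ∈ r)) ?_
    refine Dfn.bex Gd_Trs _ (Dfn.bex Gd_Trs _ ?_)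
    exact (dfn_pm Gd_Trs _ _ _).and ((dfn_pm Gd_Trs _ _ _).and (Dfn.mem _ _))
  · refine dfn_StF (a + 2) (A := fun z v => ∃ x ∈ v (b + 2), ∃ r ∈ v (b + 2), ∃ y ∈ v (b + 2),
      pair z x ∈ v 1 ∧ (pair z r ∈ v (d + 2) ∧ (x ∈ r ∧ (pair (v 0) (pair z y) ∈ v (c + 2) ∧
        (x ∈ y ∨ x = y))))) ?_
    refine Dfn.bex Gd_Trs _ (Dfn.bex Gd_Trs _ (Dfn.bex Gd_Trs _ ?_))
    exact (dfn_pm Gd_Trs _ _ _).and ((dfn_pm Gd_Trs _ _ _).and ((Dfn.mem _ _).and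
      ((dfn_pm3 _ _ _ _).and ((Dfn.mem _ _).or (Dfn.eq _ _)))))

/-- The same for functions on ordinals. -/
structure KV (κ η : Ordinal.{u}) (h : Ordinal.{u} → Ordinal.{u} → Ordinal.{u})
    (f : Ordinal.{u} → Ordinal.{u}) : Prop where
  up : ∀ α < η, ¬ StatL {δ | ¬ h δ α < f δ} κ
  lub : ∀ g : Ordinal.{u} → Ordinal.{u}, (∀ δ < κ, g δ < η) → StatL {δ | g δ < f δ} κ →
    ∃ α < η, StatL {δ | g δ < f δ ∧ g δ ≤ h δ α} κ

/-- The values of a function. -/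
noncomputable def ap (f : ZFSet.{u}) (δ : Ordinal.{u}) : Ordinal.{u} := rank (app f δ.toZFSet)

theorem ap_spec {f : ZFSet.{u}} (hf : IsFunc κ.toZFSet η.toZFSet f) {δ : Ordinal.{u}}
    (hδ : δ < κ) : ap f δ < η ∧ ∀ r : Ordinal.{u}, pair δ.toZFSet r.toZFSet ∈ f ↔ r = ap f δ := by
  obtain ⟨y, hy, hy'⟩ := Ordinal.mem_toZFSet_iff.1 (app_mem hf (tz_mem.2 hδ))
  have h1 : ap f δ = y := by rw [ap, ← hy', Ordinal.rank_toZFSet]
  rw [h1]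
  refine ⟨hy, fun r => ?_⟩
  rw [app_iff hf (tz_mem.2 hδ), ← hy']
  exact ⟨fun h => (Ordinal.toZFSet_injective h).symm, fun h => by rw [h]⟩

theorem exists_ap {g : Ordinal.{u} → Ordinal.{u}} (hg : ∀ δ < κ, g δ < η) :
    ∃ f, IsFunc κ.toZFSet η.toZFSet f ∧ ∀ δ < κ, ap f δ = g δ := by
  have hf : IsFunc κ.toZFSet η.toZFSet (gr κ.toZFSet fun x => (g (rank x)).toZFSet) := by
    refine isFunc_gr fun x hx => ?_
    obtain ⟨i, hi, rfl⟩ := Ordinal.mem_toZFSet_iff.1 hx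
    rw [Ordinal.rank_toZFSet]
    exact tz_mem.2 (hg i hi)
  refine ⟨_, hf, fun δ hδ => ?_⟩
  have h1 := ((ap_spec hf hδ).2 (g δ)).1 (by
    rw [pair_mem_gr, Ordinal.rank_toZFSet]
    exact ⟨tz_mem.2 hδ, rfl⟩)
  exact h1.symm

theorem KV.congr {f f' : Ordinal.{u} → Ordinal.{u}} (hff : ∀ δ < κ, f δ = f' δ)
    (hk : KV κ η h f) : KV κ η h f' := by
  refine ⟨fun α hα h1 => hk.up α hα (h1.mono fun δ hδ h2 => ?_), fun g hg h1 => ?_⟩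
  · show ¬ h δ α < f δ
    rw [hff δ hδ]
    exact h2
  · obtain ⟨α, hα, h2⟩ := hk.lub g hg (h1.mono fun δ hδ h2 => by
      show g δ < f δ
      rw [hff δ hδ]
      exact h2)
    exact ⟨α, hα, h2.mono fun δ hδ h3 => ⟨by rw [← hff δ hδ]; exact h3.1, h3.2⟩⟩

theorem kk_iff (hH : ∀ α δ y : Ordinal.{u}, pair α.toZFSet (pair δ.toZFSet y.toZFSet) ∈ H ↔
      α < η ∧ δ < κ ∧ y = h δ α) (hh : ∀ δ < κ, ∀ α < η, h δ α < η) {f : ZFSet.{u}}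
    (hf : IsFunc κ.toZFSet η.toZFSet f) : KK κ.toZFSet η.toZFSet H f ↔ KV κ η h (ap f) := by
  have e1 : ∀ α < η, (StF κ.toZFSet (fun d => ∃ y ∈ η.toZFSet, ∃ r ∈ η.toZFSet,
      pair α.toZFSet (pair d y) ∈ H ∧ (pair d r ∈ f ∧ ¬ y ∈ r)) ↔
      StatL {δ | ¬ h δ α < ap f δ} κ) := by
    intro α hα
    rw [stF_iff]
    constructor
    · refine fun h1 => h1.mono fun δ hδ h2 => ?_
      obtain ⟨y, hy, r, hr, h3, h4, h5⟩ := h2
      obtain ⟨y, hy', rfl⟩ := Ordinal.mem_toZFSet_iff.1 hy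
      obtain ⟨r, hr', rfl⟩ := Ordinal.mem_toZFSet_iff.1 hr
      rw [((hH _ _ _).1 h3).2.2, (((ap_spec hf hδ).2 _).1 h4), tz_mem] at h5
      exact h5
    · refine fun h1 => h1.mono fun δ hδ h2 => ?_
      refine ⟨(h δ α).toZFSet, tz_mem.2 (hh δ hδ α hα), (ap f δ).toZFSet,
        tz_mem.2 (ap_spec hf hδ).1, (hH _ _ _).2 ⟨hα, hδ, rfl⟩, ((ap_spec hf hδ).2 _).2 rfl, ?_⟩
      rw [tz_mem]
      exact h2
  have e2 : ∀ g, IsFunc κ.toZFSet η.toZFSet g → (StF κ.toZFSet (fun d => ∃ x ∈ η.toZFSet,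
      ∃ r ∈ η.toZFSet, pair d x ∈ g ∧ (pair d r ∈ f ∧ x ∈ r)) ↔
      StatL {δ | ap g δ < ap f δ} κ) := by
    intro g hg
    rw [stF_iff]
    constructor
    · refine fun h1 => h1.mono fun δ hδ h2 => ?_
      obtain ⟨y, hy, r, hr, h3, h4, h5⟩ := h2
      obtain ⟨y, hy', rfl⟩ := Ordinal.mem_toZFSet_iff.1 hy
      obtain ⟨r, hr', rfl⟩ := Ordinal.mem_toZFSet_iff.1 hr
      rw [(((ap_spec hg hδ).2 _).1 h3), (((ap_spec hf hδ).2 _).1 h4), tz_mem] at h5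
      exact h5
    · refine fun h1 => h1.mono fun δ hδ h2 => ?_
      exact ⟨(ap g δ).toZFSet, tz_mem.2 (ap_spec hg hδ).1, (ap f δ).toZFSet,
        tz_mem.2 (ap_spec hf hδ).1, ((ap_spec hg hδ).2 _).2 rfl, ((ap_spec hf hδ).2 _).2 rfl,
        tz_mem.2 h2⟩
  have e3 : ∀ g, IsFunc κ.toZFSet η.toZFSet g → ∀ α < η, (StF κ.toZFSet (fun d =>
      ∃ x ∈ η.toZFSet, ∃ r ∈ η.toZFSet, ∃ y ∈ η.toZFSet, pair d x ∈ g ∧ (pair d r ∈ f ∧
      (x ∈ r ∧ (pair α.toZFSet (pair d y) ∈ H ∧ (x ∈ y ∨ x = y))))) ↔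
      StatL {δ | ap g δ < ap f δ ∧ ap g δ ≤ h δ α} κ) := by
    intro g hg α hα
    rw [stF_iff]
    constructor
    · refine fun h1 => h1.mono fun δ hδ h2 => ?_
      obtain ⟨x, hx, r, hr, y, hy, h3, h4, h5, h6, h7⟩ := h2
      obtain ⟨x, hx', rfl⟩ := Ordinal.mem_toZFSet_iff.1 hx
      obtain ⟨r, hr', rfl⟩ := Ordinal.mem_toZFSet_iff.1 hr
      obtain ⟨y, hy', rfl⟩ := Ordinal.mem_toZFSet_iff.1 hy
      rw [((ap_spec hg hδ).2 _).1 h3, ((ap_spec hf hδ).2 _).1 h4, tz_mem] at h5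
      rw [((ap_spec hg hδ).2 _).1 h3, ((hH _ _ _).1 h6).2.2] at h7
      refine ⟨h5, ?_⟩
      rcases h7 with h7 | h7
      · exact (tz_mem.1 h7).le
      · exact (Ordinal.toZFSet_injective h7).le
    · refine fun h1 => h1.mono fun δ hδ h2 => ?_
      refine ⟨(ap g δ).toZFSet, tz_mem.2 (ap_spec hg hδ).1, (ap f δ).toZFSet,
        tz_mem.2 (ap_spec hf hδ).1, (h δ α).toZFSet, tz_mem.2 (hh δ hδ α hα),
        ((ap_spec hg hδ).2 _).2 rfl, ((ap_spec hf hδ).2 _).2 rfl,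
        tz_mem.2 h2.1, (hH _ _ _).2 ⟨hα, hδ, rfl⟩, ?_⟩
      rcases h2.2.lt_or_eq with h3 | h3
      · exact Or.inl (tz_mem.2 h3)
      · exact Or.inr (by rw [h3])
  constructor
  · rintro ⟨h1, h2⟩
    refine ⟨fun α hα h3 => h1 _ (tz_mem.2 hα) ((e1 α hα).2 h3), fun g hg h3 => ?_⟩
    obtain ⟨g', hg', hgg⟩ := exists_ap hg
    obtain ⟨α, hα, h4⟩ := h2 g' hg' ((e2 g' hg').2 (h3.mono fun δ hδ h5 => by
      show ap g' δ < ap f δ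
      rw [hgg δ hδ]
      exact h5))
    obtain ⟨α, hα', rfl⟩ := Ordinal.mem_toZFSet_iff.1 hα
    refine ⟨α, hα', ((e3 g' hg' α hα').1 h4).mono fun δ hδ h5 => ?_⟩
    have h6 := h5
    rw [Set.mem_ofPred_eq, hgg δ hδ] at h6
    exact h6
  · intro hk
    refine ⟨fun α hα h3 => ?_, fun g hg h3 => ?_⟩
    · obtain ⟨α, hα', rfl⟩ := Ordinal.mem_toZFSet_iff.1 hα
      exact hk.up α hα' ((e1 α hα').1 h3)
    · obtain ⟨α, hα, h4⟩ := hk.lub (ap g) (fun δ hδ => (ap_spec hg hδ).1) ((e2 g hg).1 h3)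
      exact ⟨_, tz_mem.2 hα, (e3 g hg α hα).2 h4⟩

theorem KV.unique_lt {f f' : Ordinal.{u} → Ordinal.{u}} (hcf : Cf μ.toZFSet κ.toZFSet)
    (hω : Ordinal.omega0 < μ) (hf : ∀ δ < κ, f δ < η) (hk : KV κ η h f) (hk' : KV κ η h f') :
    ¬ StatL {δ | f δ < f' δ} κ := by
  intro h1
  obtain ⟨α, hα, h2⟩ := hk'.lub f hf h1
  rcases statTwo hcf.lim hcf.uc hω h2 (fun δ => h δ α < f δ) with h3 | h3
  · obtain ⟨δ, hδ, h4, h5⟩ := statNe hcf.lim h3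
    exact absurd h5 (not_lt.2 h4.2)
  · exact hk.up α hα (h3.mono fun δ _ h4 => h4.2)

theorem KV.unique {f f' : Ordinal.{u} → Ordinal.{u}} (hcf : Cf μ.toZFSet κ.toZFSet)
    (hω : Ordinal.omega0 < μ) (hf : ∀ δ < κ, f δ < η) (hf' : ∀ δ < κ, f' δ < η)
    (hk : KV κ η h f) (hk' : KV κ η h f') : ¬ StatL {δ | f δ ≠ f' δ} κ := by
  intro h1
  rcases statTwo hcf.lim hcf.uc hω h1 (fun δ => f δ < f' δ) with h3 | h3
  · exact hk.unique_lt hcf hω hf hk' (h3.mono fun δ _ h4 => h4.2)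
  · exact hk'.unique_lt hcf hω hf' hk (h3.mono fun δ _ h4 =>
      lt_of_le_of_ne (not_lt.1 h4.2) (Ne.symm h4.1))

/-- Stationary many values of the least upper bound have the property. -/
def StK (k e H : ZFSet.{u}) (P : ZFSet.{u} → ZFSet.{u} → Prop) : Prop :=
  ∃ f, IsFunc k e f ∧ (KK k e H f ∧ StF k (fun d => ∃ r ∈ e, pair d r ∈ f ∧ P d r))

theorem dfn_StK (a b c : ℕ) {A : ZFSet.{u} → ZFSet.{u} → (ℕ → ZFSet.{u}) → Prop}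
    (hA : Dfn Gd.{u} (fun w => A (w 0) (w 1) (fun n => w (n + 2)))) :
    Dfn Gd.{u} (fun v => StK (v a) (v b) (v c) (fun d r => A d r v)) := by
  refine Dfn_exfunG _ _ ((dfn_KK _ _ _ _).and ?_)
  refine dfn_StF (a + 1) (A := fun d v => ∃ r ∈ v (b + 1), pair d r ∈ v 0 ∧
    A d r (fun n => v (n + 1))) ?_
  refine Dfn.bex Gd_Trs _ ((dfn_pm Gd_Trs _ _ _).and ?_)
  exact Dfn_reindex hA (fun n => if n = 0 then 1 else if n = 1 then 0 else n + 1)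

theorem stK_iff (hcf : Cf μ.toZFSet κ.toZFSet) (hω : Ordinal.omega0 < μ)
    (hH : ∀ α δ y : Ordinal.{u}, pair α.toZFSet (pair δ.toZFSet y.toZFSet) ∈ H ↔
      α < η ∧ δ < κ ∧ y = h δ α) (hh : ∀ δ < κ, ∀ α < η, h δ α < η)
    {f : Ordinal.{u} → Ordinal.{u}} (hf : ∀ δ < κ, f δ < η) (hk : KV κ η h f)
    {P : ZFSet.{u} → ZFSet.{u} → Prop} :
    StK κ.toZFSet η.toZFSet H P ↔ StatL {δ | P δ.toZFSet (f δ).toZFSet} κ := by
  have key : ∀ g, IsFunc κ.toZFSet η.toZFSet g → (StF κ.toZFSet (fun d => ∃ r ∈ η.toZFSet,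
      pair d r ∈ g ∧ P d r) ↔ StatL {δ | P δ.toZFSet (ap g δ).toZFSet} κ) := by
    intro g hg
    rw [stF_iff]
    constructor
    · refine fun h1 => h1.mono fun δ hδ h2 => ?_
      obtain ⟨r, hr, h3, h4⟩ := h2
      obtain ⟨r, hr', rfl⟩ := Ordinal.mem_toZFSet_iff.1 hr
      rw [((ap_spec hg hδ).2 _).1 h3] at h4
      exact h4
    · refine fun h1 => h1.mono fun δ hδ h2 => ?_
      exact ⟨_, tz_mem.2 (ap_spec hg hδ).1, ((ap_spec hg hδ).2 _).2 rfl, h2⟩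
  constructor
  · rintro ⟨g, hg, hK, h1⟩
    have h2 := (kk_iff hH hh hg).1 hK
    have h3 := (key g hg).1 h1
    rcases statTwo hcf.lim hcf.uc hω h3 (fun δ => ap g δ = f δ) with h4 | h4
    · refine h4.mono fun δ _ h5 => ?_
      have h6 := h5.1
      rw [Set.mem_ofPred_eq, h5.2] at h6
      exact h6
    · exact absurd (h4.mono fun δ _ h5 => h5.2)
        (h2.unique hcf hω (fun δ hδ => (ap_spec hg hδ).1) hf hk)
  · intro h1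
    obtain ⟨g, hg, hgf⟩ := exists_ap hf
    refine ⟨g, hg, (kk_iff hH hh hg).2 (hk.congr fun δ hδ => (hgf δ hδ).symm),
      (key g hg).2 (h1.mono fun δ hδ h2 => ?_)⟩
    show P δ.toZFSet (ap g δ).toZFSet
    rw [hgf δ hδ]
    exact h2

end Pool.Agent.H93.SV
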