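import Pool.Agent.H93.SV.Big

/-!
The least upper bound is regular in `HOD` almost everywhere.
-/

set_option autoImplicit false
set_option linter.unusedVariables false

namespace Pool.Agent.H93.SV

open ZFSet Gss969 Pool.Agent.H310.HD Pool.Agent.H93.HM Pool.Agent.H93.SC

universe u

variable {κ η μ : Ordinal.{u}} {A H : ZFSet.{u}} {F : Ordinal.{u} → Ordinal.{u} → Ordinal.{u}}
  {γ : Ordinal.{u} → Ordinal.{u}} {h : Ordinal.{u} → Ordinal.{u} → Ordinal.{u}}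

/-- **The least upper bound has large cofinality in `HOD`.** -/
theorem not_stat_T (hcf : Cf μ.toZFSet κ.toZFSet) (hω : Ordinal.omega0 < μ) (hκη : κ < η)
    (hreg : HODReg η) (hL : Lad η A F γ) (hC : LCont η F γ) (hHO : HOD H)
    (hH : ∀ α δ y : Ordinal.{u}, pair α.toZFSet (pair δ.toZFSet y.toZFSet) ∈ H ↔
      α < η ∧ δ < κ ∧ y = h δ α) (hh : ∀ δ < κ, ∀ α < η, h δ α < η)
    (htail : ∀ α < η, ∀ β < α, ∃ t < κ, ∀ δ, t < δ → h δ β < h δ α)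
    (hstepF : ∀ x < η, ∀ i < γ x, ∀ δ, i < δ → h δ (F x i) < h δ x)
    {f : Ordinal.{u} → Ordinal.{u}} (hf : ∀ δ < κ, f δ < κ) (hk : KV κ η h f)
    (hκc : IsCard κ.toZFSet) (hμκ : μ < κ) : ¬ StatL {δ | γ (f δ) ≤ δ} κ := by
  classical
  intro hT
  have hlim := hcf.lim
  have huc := hcf.uc
  have hfη : ∀ δ < κ, f δ < η := fun δ hδ => (hf δ hδ).trans hκη
  obtain ⟨th, hth⟩ : ∃ th : Ordinal.{u} → Ordinal.{u} → Ordinal.{u} → Prop,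
      ∀ α δ j, th α δ j ↔ ∃ i < j, i < γ (f δ) ∧ h δ α ≤ F (f δ) i := ⟨_, fun _ _ _ => Iff.rfl⟩
  obtain ⟨B, hB⟩ : ∃ B : Ordinal.{u} → Ordinal.{u} → Prop,
      ∀ ζ α, B ζ α ↔ StatL {δ | γ (f δ) ≤ δ ∧ th α δ ζ} κ := ⟨_, fun _ _ => Iff.rfl⟩
  have hBF : ∀ ζ α, α < η → (StK κ.toZFSet η.toZFSet H (fun d r => Dm η.toZFSet A d r ∧
      Th η.toZFSet A H α.toZFSet d r ζ.toZFSet) ↔ B ζ α) := by
    intro ζ α hα
    rw [stK_iff hcf hω hH hh hfη hk, hB]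
    constructor
    · refine fun h1 => h1.mono fun δ hδ h2 => ⟨(dm_iff hL (hfη δ hδ)).1 h2.1, ?_⟩
      exact (hth _ _ _).2 ((th_iff hL hH hh hδ hα (hfη δ hδ)).1 h2.2)
    · refine fun h1 => h1.mono fun δ hδ h2 => ⟨(dm_iff hL (hfη δ hδ)).2 h2.1, ?_⟩
      exact (th_iff hL hH hh hδ hα (hfη δ hδ)).2 ((hth _ _ _).1 h2.2)
  have hthm : ∀ α β δ j, h δ β ≤ h δ α → th α δ j → th β δ j := by
    intro α β δ j h1 h2
    obtain ⟨i, hi, h3, h4⟩ := (hth _ _ _).1 h2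
    exact (hth _ _ _).2 ⟨i, hi, h3, h1.trans h4⟩
  -- a bound for every `α`
  have h5a : ∀ α < η, ∃ ζ < κ, B ζ α := by
    intro α hα
    have h1 : StatL {δ | δ ∈ {δ | γ (f δ) ≤ δ} ∧ h δ α < f δ} κ := by
      rcases statTwo hlim huc hω hT (fun δ => h δ α < f δ) with h2 | h2
      · exact h2
      · exact absurd (h2.mono fun δ _ h3 => h3.2) (hk.up α hα)
    have h2 : ∀ δ, δ < κ ∧ h δ α < f δ → ∃ i < γ (f δ), h δ α ≤ F (f δ) i := fun δ h3 =>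
      hL.cof _ (hfη δ h3.1) _ h3.2
    choose! i hi1 hi2 using h2
    obtain ⟨ξ, hξ, h3⟩ := fodor_bdd hcf hω h1 (f := i) fun δ hδ hδκ =>
      (hi1 δ ⟨hδκ, hδ.2⟩).trans_le hδ.1
    refine ⟨ξ, hξ, (hB _ _).2 (h3.mono fun δ hδ h4 => ⟨h4.1.1, (hth _ _ _).2 ⟨i δ, h4.2, ?_⟩⟩)⟩
    exact ⟨hi1 δ ⟨hδ, h4.1.2⟩, hi2 δ ⟨hδ, h4.1.2⟩⟩
  have h5b : ∀ ζ, ∀ α < η, ∀ β < α, B ζ α → B ζ β := by
    intro ζ α hα β hβ h1
    obtain ⟨t, ht, h2⟩ := htail α hα β hβ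
    refine (hB _ _).2 ((stat_tail hlim hcf hω ht ((hB _ _).1 h1)).mono fun δ _ h3 => ?_)
    exact ⟨h3.1.1, hthm α β δ ζ (h2 δ h3.2).le h3.1.2⟩
  -- a common bound
  have h5c : ∃ ζ < κ, ∀ α < η, B ζ α := by
    by_contra hcon
    push Not at hcon
    obtain ⟨G, hG⟩ : ∃ G : ZFSet.{u}, G = ZFSet.sep (fun p => ∃ x y, p = pair x y ∧
        (¬ StK κ.toZFSet η.toZFSet H (fun d r => Dm η.toZFSet A d r ∧
          Th η.toZFSet A H y d r x) ∧ ∀ b ∈ y, StK κ.toZFSet η.toZFSet H (fun d r =>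
            Dm η.toZFSet A d r ∧ Th η.toZFSet A H b d r x)))
        (prod κ.toZFSet η.toZFSet) := ⟨_, rfl⟩
    have hGO : HOD G := by
      rw [hG]
      refine HOD_rel (A := fun x y v => ¬ StK (v 0) (v 1) (v 2) (fun d r => Dm (v 1) (v 3) d r ∧
          Th (v 1) (v 3) (v 2) y d r x) ∧ ∀ b ∈ y, StK (v 0) (v 1) (v 2) (fun d r =>
            Dm (v 1) (v 3) d r ∧ Th (v 1) (v 3) (v 2) b d r x)) ?_ κ η
        [κ.toZFSet, η.toZFSet, H, A] ?_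
      · refine Dfn.and (Dfn.not ?_) (Dfn.ball Gd_Trs _ ?_)
        · exact dfn_StK 2 3 4 (A := fun d r v => Dm (v 3) (v 5) d r ∧
            Th (v 3) (v 5) (v 4) (v 1) d r (v 0)) ((dfn_Dm _ _ _ _).and (dfn_Th _ _ _ _ _ _ _))
        · exact dfn_StK 3 4 5 (A := fun d r v => Dm (v 4) (v 6) d r ∧
            Th (v 4) (v 6) (v 5) (v 0) d r (v 1)) ((dfn_Dm _ _ _ _).and (dfn_Th _ _ _ _ _ _ _))
      · intro p hp
        simp only [List.mem_cons, List.not_mem_nil, or_false] at hp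
        rcases hp with rfl | rfl | rfl | rfl
        · exact OD_ord _
        · exact OD_ord _
        · exact hHO.od
        · exact hL.hod.od
    have hGm : ∀ ζ < κ, ∀ α < η, (pair (Ordinal.toZFSet ζ) (Ordinal.toZFSet α) ∈ G ↔
        ¬ B ζ α ∧ ∀ β < α, B ζ β) := by
      intro ζ hζ α hα
      rw [hG, mem_rel (B := fun x y => ¬ StK κ.toZFSet η.toZFSet H (fun d r =>
          Dm η.toZFSet A d r ∧ Th η.toZFSet A H y d r x) ∧ ∀ b ∈ y, StK κ.toZFSet η.toZFSet H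
            (fun d r => Dm η.toZFSet A d r ∧ Th η.toZFSet A H b d r x))]
      constructor
      · rintro ⟨_, _, h1, h2⟩
        exact ⟨fun h3 => h1 ((hBF ζ α hα).2 h3), fun β hβ =>
          (hBF ζ β (hβ.trans hα)).1 (h2 _ (tz_mem.2 hβ))⟩
      · rintro ⟨h1, h2⟩
        refine ⟨tz_mem.2 hζ, tz_mem.2 hα, fun h3 => h1 ((hBF ζ α hα).1 h3), fun b hb => ?_⟩
        obtain ⟨β, hβ, rfl⟩ := Ordinal.mem_toZFSet_iff.1 hb
        exact (hBF ζ β (hβ.trans hα)).2 (h2 β hβ)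
    have hmin : ∀ ζ < κ, ∃ α < η, ¬ B ζ α ∧ ∀ β < α, B ζ β := by
      intro ζ hζ
      obtain ⟨α, h1, h2⟩ := WellFounded.has_min (wellFounded_lt (α := Ordinal.{u}))
        {α | ¬ B ζ α} (by
          obtain ⟨α, _, h1⟩ := hcon ζ hζ
          exact ⟨α, h1⟩)
      obtain ⟨α', hα', h3⟩ := hcon ζ hζ
      refine ⟨α, (not_lt.1 (h2 α' h3)).trans_lt hα', h1, fun β hβ => ?_⟩
      by_contra h4
      exact h2 β h4 hβ
    refine hreg.2.2 ⟨κ.toZFSet, tz_mem.2 hκη, G, hGO, ⟨fun p hp => ?_, fun x hx => ?_⟩,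
      fun y hy => ?_⟩
    · rw [hG] at hp
      exact (mem_sep.1 hp).1
    · obtain ⟨ζ, hζ, rfl⟩ := Ordinal.mem_toZFSet_iff.1 hx
      obtain ⟨α, hα, h1, h2⟩ := hmin ζ hζ
      refine ⟨α.toZFSet, (hGm ζ hζ α hα).2 ⟨h1, h2⟩, fun y hy => ?_⟩
      have h3 : y ∈ η.toZFSet := by
        have hy' := hy
        rw [hG] at hy'
        exact (mem_rel.1 hy').2.1
      obtain ⟨β, hβ, rfl⟩ := Ordinal.mem_toZFSet_iff.1 h3
      obtain ⟨h4, h5⟩ := (hGm ζ hζ β hβ).1 hy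
      rcases lt_trichotomy α β with h6 | h6 | h6
      · exact absurd (h5 α h6) h1
      · rw [h6]
      · exact absurd (h2 β h6) h4
    · obtain ⟨y, hy', rfl⟩ := Ordinal.mem_toZFSet_iff.1 hy
      have hsy := hreg.2.1 y hy'
      obtain ⟨ζ, hζ, h1⟩ := h5a _ hsy
      obtain ⟨α, hα, h2, h3⟩ := hmin ζ hζ
      refine ⟨_, tz_mem.2 hζ, _, tz_mem.2 hα, (hGm ζ hζ α hα).2 ⟨h2, h3⟩, tz_mem.2 ?_⟩
      by_contra h4
      push Not at h4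
      exact h2 (h5b ζ _ hsy α (Order.lt_succ_iff.2 h4) h1)
  obtain ⟨ζ, hζ, hζB⟩ := h5c
  -- the equivalence relation
  obtain ⟨D, hD⟩ : ∃ D : Ordinal.{u} → Ordinal.{u} → Prop, ∀ α β, D α β ↔
      StatL {δ | γ (f δ) ≤ δ ∧ ∃ j ≤ ζ, ¬ (th α δ j ↔ th β δ j)} κ := ⟨_, fun _ _ => Iff.rfl⟩
  have hDF : ∀ α β, α < η → β < η → (StK κ.toZFSet η.toZFSet H (fun d r => Dm η.toZFSet A d r ∧
      ∃ j ∈ (Order.succ ζ).toZFSet, ¬ (Th η.toZFSet A H α.toZFSet d r j ↔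
        Th η.toZFSet A H β.toZFSet d r j)) ↔ D α β) := by
    intro α β hα hβ
    rw [stK_iff hcf hω hH hh hfη hk, hD]
    constructor
    · refine fun h1 => h1.mono fun δ hδ h2 => ⟨(dm_iff hL (hfη δ hδ)).1 h2.1, ?_⟩
      obtain ⟨_, j, hj, h3⟩ := h2
      obtain ⟨j, hj', rfl⟩ := Ordinal.mem_toZFSet_iff.1 hj
      refine ⟨j, Order.lt_succ_iff.1 hj', ?_⟩
      rw [th_iff hL hH hh hδ hα (hfη δ hδ), th_iff hL hH hh hδ hβ (hfη δ hδ), ← hth, ← hth] at h3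
      exact h3
    · refine fun h1 => h1.mono fun δ hδ h2 => ⟨(dm_iff hL (hfη δ hδ)).2 h2.1, ?_⟩
      obtain ⟨_, j, hj, h3⟩ := h2
      refine ⟨_, tz_mem.2 (Order.lt_succ_iff.2 hj), ?_⟩
      rw [th_iff hL hH hh hδ hα (hfη δ hδ), th_iff hL hH hh hδ hβ (hfη δ hδ), ← hth, ← hth]
      exact h3
  have hDrefl : ∀ α, ¬ D α α := by
    intro α h1
    obtain ⟨δ, _, _, j, _, h2⟩ := statNe hlim ((hD _ _).1 h1)
    exact h2 Iff.rfl
  have hDtrans : ∀ a b c, D a c → D a b ∨ D b c := by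
    intro a b c h1
    rcases statTwo hlim huc hω ((hD _ _).1 h1) (fun δ => ∃ j ≤ ζ, ¬ (th a δ j ↔ th b δ j))
      with h2 | h2
    · exact Or.inl ((hD _ _).2 (h2.mono fun δ _ h3 => ⟨h3.1.1, h3.2⟩))
    · refine Or.inr ((hD _ _).2 (h2.mono fun δ _ h3 => ⟨h3.1.1, ?_⟩))
      obtain ⟨⟨_, j, hj, h4⟩, h5⟩ := h3
      push Not at h5
      exact ⟨j, hj, fun h6 => h4 ((h5 j hj).trans h6)⟩
  obtain ⟨N, hN⟩ : ∃ N : ZFSet.{u}, N = ZFSet.sep (fun x => ∀ b ∈ x,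
      StK κ.toZFSet η.toZFSet H (fun d r => Dm η.toZFSet A d r ∧
      ∃ j ∈ (Order.succ ζ).toZFSet, ¬ (Th η.toZFSet A H b d r j ↔
        Th η.toZFSet A H x d r j))) η.toZFSet := ⟨_, rfl⟩
  have hNO : HOD N := by
    rw [hN]
    refine HOD_sepG (A := fun x v => ∀ b ∈ x, StK (v 0) (v 1) (v 2) (fun d r =>
      Dm (v 1) (v 3) d r ∧ ∃ j ∈ v 4, ¬ (Th (v 1) (v 3) (v 2) b d r j ↔
        Th (v 1) (v 3) (v 2) x d r j))) ?_ (HOD_ord η)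
      [κ.toZFSet, η.toZFSet, H, A, (Order.succ ζ).toZFSet] ?_
    · refine Dfn.ball Gd_Trs _ ?_
      refine dfn_StK 2 3 4 (A := fun d r v => Dm (v 3) (v 5) d r ∧ ∃ j ∈ v 6,
        ¬ (Th (v 3) (v 5) (v 4) (v 0) d r j ↔ Th (v 3) (v 5) (v 4) (v 1) d r j)) ?_
      exact (dfn_Dm _ _ _ _).and (Dfn.bex Gd_Trs _ (Dfn.not (Dfn.iff (dfn_Th _ _ _ _ _ _ _)
        (dfn_Th _ _ _ _ _ _ _))))
    · intro p hp
      simp only [List.mem_cons, List.not_mem_nil, or_false] at hp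
      rcases hp with rfl | rfl | rfl | rfl | rfl
      · exact OD_ord _
      · exact OD_ord _
      · exact hHO.od
      · exact hL.hod.od
      · exact OD_ord _
  have hNm : ∀ α < η, (Ordinal.toZFSet α ∈ N ↔ ∀ β < α, D β α) := by
    intro α hα
    rw [hN, mem_sep]
    constructor
    · rintro ⟨_, h1⟩ β hβ
      exact (hDF β α (hβ.trans hα) hα).1 (h1 _ (tz_mem.2 hβ))
    · intro h1
      refine ⟨tz_mem.2 hα, fun b hb => ?_⟩
      obtain ⟨β, hβ, rfl⟩ := Ordinal.mem_toZFSet_iff.1 hb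
      exact (hDF β α (hβ.trans hα) hα).2 (h1 β hβ)
  -- the least index
  obtain ⟨p, hp⟩ : ∃ p : Ordinal.{u} → Ordinal.{u} → Ordinal.{u}, p = fun α δ =>
      sInf {i | i = ζ ∨ (i < γ (f δ) ∧ h δ α ≤ F (f δ) i)} := ⟨_, rfl⟩
  have hp1 : ∀ α δ, p α δ = ζ ∨ (p α δ < γ (f δ) ∧ h δ α ≤ F (f δ) (p α δ)) := by
    intro α δ
    have := csInf_mem (s := {i | i = ζ ∨ (i < γ (f δ) ∧ h δ α ≤ F (f δ) i)}) ⟨ζ, Or.inl rfl⟩
    rw [hp]
    exact this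
  have hp2 : ∀ α δ i, (i = ζ ∨ (i < γ (f δ) ∧ h δ α ≤ F (f δ) i)) → p α δ ≤ i := by
    intro α δ i hi
    rw [hp]
    exact csInf_le' hi
  have hp3 : ∀ α δ, ∀ j ≤ ζ, (th α δ j ↔ p α δ < j) := by
    intro α δ j hj
    rw [hth]
    constructor
    · rintro ⟨i, hi, h1, h2⟩
      exact (hp2 α δ i (Or.inr ⟨h1, h2⟩)).trans_lt hi
    · intro h1
      rcases hp1 α δ with h2 | h2
      · rw [h2] at h1
        exact absurd (h1.trans_le hj) (lt_irrefl _)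
      · exact ⟨_, h1, h2⟩
  have hpm : ∀ α β δ, h δ α ≤ h δ β → p α δ ≤ p β δ := by
    intro α β δ h1
    rcases hp1 β δ with h2 | h2
    · rw [h2]
      exact hp2 α δ ζ (Or.inl rfl)
    · exact hp2 α δ _ (Or.inr ⟨h2.1, h1.trans h2.2⟩)
  -- the number of classes
  have hNb : ∃ ξ < η, ∀ x < η, x.toZFSet ∈ N → x ≤ ξ := by
    refine nbdd hcf hω hκη hreg hL hC hHO hH hh htail hstepF hfη hk hκc hμκ hζ (p := p)
      (fun α δ => hp2 α δ ζ (Or.inl rfl)) (fun α δ j hj => by rw [← hth]; exact hp3 α δ j hj)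
      hpm hNO (fun x hx => by rw [hN] at hx; exact (mem_sep.1 hx).1) fun n hn hnN β hβ => ?_
    refine ((hD _ _).1 ((hNm n hn).1 hnN β hβ)).mono fun δ _ h1 => ⟨h1.1, fun h2 => ?_⟩
    obtain ⟨_, j, hj, h3⟩ := h1
    rw [hp3 _ _ j hj, hp3 _ _ j hj, h2] at h3
    exact h3 Iff.rfl
  obtain ⟨ξ, hξ, hξN⟩ := hNb
  -- stabilization
  have hstab : ∀ α, ξ ≤ α → α < η → ¬ D ξ α := by
    intro α hξα hα hDξ
    obtain ⟨n, h1, h2⟩ := WellFounded.has_min (wellFounded_lt (α := Ordinal.{u}))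
      {n | ¬ D n α} ⟨α, hDrefl α⟩
    have hnα : n ≤ α := not_lt.1 (h2 α (hDrefl α))
    have hnη := hnα.trans_lt hα
    have hnN : n.toZFSet ∈ N := by
      refine (hNm n hnη).2 fun β hβ => ?_
      have h3 : D β α := by
        by_contra h4
        exact h2 β h4 hβ
      rcases hDtrans β n α h3 with h4 | h4
      · exact h4
      · exact absurd h4 h1
    have hnξ := hξN n hnη hnN
    have ht1 : ∃ t < κ, ∀ δ, t < δ → h δ n ≤ h δ ξ := by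
      rcases hnξ.lt_or_eq with h3 | h3
      · obtain ⟨t, ht, h4⟩ := htail ξ hξ n h3
        exact ⟨t, ht, fun δ hδ => (h4 δ hδ).le⟩
      · exact ⟨0, bot_le.trans_lt hζ, fun δ _ => by rw [h3]⟩
    have ht2 : ∃ t < κ, ∀ δ, t < δ → h δ ξ ≤ h δ α := by
      rcases hξα.lt_or_eq with h3 | h3
      · obtain ⟨t, ht, h4⟩ := htail α hα ξ h3
        exact ⟨t, ht, fun δ hδ => (h4 δ hδ).le⟩
      · exact ⟨0, bot_le.trans_lt hζ, fun δ _ => by rw [h3]⟩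
    obtain ⟨t1, ht1, h3⟩ := ht1
    obtain ⟨t2, ht2, h4⟩ := ht2
    refine h1 ((hD _ _).2 ((stat_tail hlim hcf hω (max_lt ht1 ht2) ((hD _ _).1 hDξ)).mono
      fun δ _ h5 => ⟨h5.1.1, ?_⟩))
    obtain ⟨⟨_, j, hj, h6⟩, h7⟩ := h5
    have h8 := hthm α ξ δ j (h4 δ ((le_max_right _ _).trans_lt h7))
    have h9 := hthm ξ n δ j (h3 δ ((le_max_left _ _).trans_lt h7))
    exact ⟨j, hj, fun h10 => h6 ⟨fun h11 => h10.1 (h9 h11), h8⟩⟩
  -- the final contradiction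
  obtain ⟨g, hg⟩ : ∃ g : Ordinal.{u} → Ordinal.{u}, g = fun δ =>
      if γ (f δ) ≤ δ ∧ th ξ δ ζ then F (f δ) (p ξ δ) else f δ := ⟨_, rfl⟩
  have hg1 : ∀ δ, γ (f δ) ≤ δ → th ξ δ ζ → p ξ δ < ζ ∧ p ξ δ < γ (f δ) ∧
      h δ ξ ≤ F (f δ) (p ξ δ) ∧ g δ = F (f δ) (p ξ δ) := by
    intro δ h1 h2
    have h3 := (hp3 ξ δ ζ le_rfl).1 h2
    rcases hp1 ξ δ with h4 | h4
    · rw [h4] at h3
      exact absurd h3 (lt_irrefl _)
    · exact ⟨h3, h4.1, h4.2, by rw [hg]; exact if_pos ⟨h1, h2⟩⟩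
  have hg2 : ∀ δ, g δ < f δ → γ (f δ) ≤ δ ∧ th ξ δ ζ := by
    intro δ h1
    by_contra h2
    rw [hg] at h1
    simp only [if_neg h2] at h1
    exact absurd h1 (lt_irrefl _)
  have hg3 : ∀ δ < κ, g δ < η := by
    intro δ hδ
    by_cases h1 : γ (f δ) ≤ δ ∧ th ξ δ ζ
    · obtain ⟨_, h2, _, h3⟩ := hg1 δ h1.1 h1.2
      rw [h3]
      exact (hL.lt _ (hfη δ hδ) _ h2).trans (hfη δ hδ)
    · rw [hg]
      simp only [if_neg h1]
      exact hfη δ hδ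
  have hg4 : StatL {δ | g δ < f δ} κ := by
    refine ((hB _ _).1 (hζB ξ hξ)).mono fun δ hδ h1 => ?_
    obtain ⟨_, h2, _, h3⟩ := hg1 δ h1.1 h1.2
    show g δ < f δ
    rw [h3]
    exact hL.lt _ (hfη δ hδ) _ h2
  obtain ⟨α, hα, h1⟩ := hk.lub g hg3 hg4
  obtain ⟨α', hα'⟩ : ∃ α', α' = Order.succ (max α ξ) := ⟨_, rfl⟩
  have hα'η : α' < η := by rw [hα']; exact hreg.2.1 _ (max_lt hα hξ)
  have hαα' : α < α' := by rw [hα']; exact (le_max_left _ _).trans_lt (Order.lt_succ _)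
  have hξα' : ξ < α' := by rw [hα']; exact (le_max_right _ _).trans_lt (Order.lt_succ _)
  obtain ⟨t1, ht1, h2⟩ := htail α' hα'η α hαα'
  obtain ⟨t2, ht2, h3⟩ := htail α' hα'η ξ hξα'
  have h4 := stat_tail hlim hcf hω (max_lt ht1 ht2) h1
  rcases statTwo hlim huc hω h4 (fun δ => ∃ j ≤ ζ, ¬ (th ξ δ j ↔ th α' δ j)) with h5 | h5
  · exact hstab α' hξα'.le hα'η ((hD _ _).2 (h5.mono fun δ _ h6 => ⟨(hg2 δ h6.1.1.1).1, h6.2⟩))
  · obtain ⟨δ, hδ, ⟨⟨h6, h7⟩, h8⟩, h9⟩ := statNe hlim h5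
    push Not at h9
    obtain ⟨h10, h11⟩ := hg2 δ h6
    obtain ⟨h12, h13, h14, h15⟩ := hg1 δ h10 h11
    have h16 : Order.succ (p ξ δ) ≤ ζ := Order.succ_le_of_lt h12
    have h17 : th ξ δ (Order.succ (p ξ δ)) := (hp3 ξ δ _ h16).2 (Order.lt_succ _)
    obtain ⟨i, hi, h18, h19⟩ := (hth _ _ _).1 ((h9 _ h16).1 h17)
    have h20 := h2 δ ((le_max_left _ _).trans_lt h8)
    have h21 := h3 δ ((le_max_right _ _).trans_lt h8)
    have h22 : p ξ δ ≤ i := hp2 ξ δ i (Or.inr ⟨h18, h21.le.trans h19⟩)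
    have h23 : i = p ξ δ := le_antisymm (Order.lt_succ_iff.1 hi) h22
    rw [h23, ← h15] at h19
    exact absurd ((h20.trans_le h19).trans_le h7) (lt_irrefl _)

end Pool.Agent.H93.SV
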