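import Pool.Agent.H93.SV.Fin

/-!
Above an extendible cardinal.
-/

set_option autoImplicit false
set_option linter.unusedVariables false

namespace Pool.Agent.H93.SV

open ZFSet Gss969 Pool.Agent.H310.HD Pool.Agent.H93.HM Pool.Agent.H93.SC
  Pool.Agent.Results.MP_e37c09_lc.AlternativeA

universe u

variable {κ η μ l s δ : Ordinal.{u}}

theorem no_nsm (hδ : Extendible δ) {b : Bool} (hn : ¬ HODHypothesis.{u} b) (hl : δ ≤ l) :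
    ¬ NotStrMeas b l := fun h => hn fun β => by
  obtain ⟨l', h1, h2⟩ := hδ.above (mono_Index b) hl ((notStrMeas_iff b l).1 h) β
  exact ⟨l', h1, (notStrMeas_iff b l').2 h2⟩

/-- **Simultaneous reflection.** -/
theorem reflect2 (hδ : Extendible δ) (hδl : δ < l) (hl : RegUnc l.toZFSet) (hμ : μ < δ)
    {A B : ZFSet.{u}} (hA : A ⊆ l.toZFSet) (hAst : Stat A l.toZFSet)
    (hAc : ∀ a ∈ A, CofN μ.toZFSet a) (hB : B ⊆ l.toZFSet) (hBst : Stat B l.toZFSet)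
    (hBc : ∀ a ∈ B, CofN μ.toZFSet a) : ∃ α < l, ¬ CofOm α.toZFSet ∧
      (∃ m < δ, CofN (Ordinal.toZFSet m) α.toZFSet) ∧ Stat A α.toZFSet ∧ Stat B α.toZFSet := by
  obtain ⟨η, θ, τ, j, h5, D⟩ := hδ.data l
  have hδL := hδ.lim
  obtain ⟨L, hL1, hL2, hL3⟩ := D.exists_lam hl h5
  have hcfL : Cf l.toZFSet L.toZFSet := (cf_mono (δ := l) (s := L)
    (u := fun x => rank (j x.toZFSet)) hL1 (fun x y hxy hy => by
      rcases hxy.lt_or_eq with h1 | h1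
      · exact ((D.J_lt (h1.trans (hy.trans h5)) (hy.trans h5)).1 h1).le
      · rw [h1]) hL2 l).1 (cf_of_regUnc hl)
  have hlB := ExtData.ordB h5
  have hjl : RegUnc (j l.toZFSet) :=
    (D.E.el.t1 D.E.lvl D.nl (A := fun a => RegUnc a) (dfn_RegUnc 0) hlB).1 hl
  rw [D.jJ h5] at hjl
  have hlj : l < rank (j l.toZFSet) := by
    have h1 := (D.J_lt D.lt h5).1 hδl
    rw [D.jd, Ordinal.rank_toZFSet] at h1
    exact (h5.trans D.ητ).trans h1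
  have hLj : L < rank (j l.toZFSet) := by
    refine lt_of_le_of_ne hL3 fun h1 => ?_
    have h2 := cf_of_regUnc hjl
    rw [← h1] at h2 hlj
    exact h2.2 _ (tz_mem.2 hlj) hcfL.1
  have hin : ∀ A : ZFSet.{u}, A ⊆ l.toZFSet → A ∈ V_ η := by
    intro A hA
    rw [mem_vonNeumann]
    have h1 := rank_mono hA
    rw [Ordinal.rank_toZFSet] at h1
    exact h1.trans_lt h5
  have hst : ∀ A : ZFSet.{u}, A ⊆ l.toZFSet → Stat A l.toZFSet → (∀ a ∈ A, CofN μ.toZFSet a) →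
      Stat (j A) L.toZFSet := by
    intro A hA hAst hAc C hC1 hC2
    obtain ⟨x, hx, hxA, hjx⟩ := D.stat_up hδL hl h5 hμ hL1 hL2 hA hAst hAc hC2
    exact ⟨_, (D.E.mem_iff (ExtData.ordB (hx.trans h5)) (hin A hA)).1 hxA, hjx⟩
  have h1 := (D.E.el.t4 D.E.lvl D.nl (A := fun a b c d => ∃ α ∈ a, ¬ CofOm α ∧
    ((∃ m ∈ d, CofN m α) ∧ (Stat b α ∧ Stat c α)))
    (Dfn.bex Lvl_sub_Trs _ ((Dfn.not (dfn_CofOm _)).and
      ((Dfn.bex Lvl_sub_Trs _ (dfn_CofN _ _)).and ((dfn_Stat _ _).and (dfn_Stat _ _)))))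
    hlB (hin A hA) (hin B hB) D.dB).2 (by
      refine ⟨L.toZFSet, ?_, ?_, ⟨l.toZFSet, ?_, hcfL.1⟩, hst A hA hAst hAc, hst B hB hBst hBc⟩
      · rw [D.jJ h5]
        exact tz_mem.2 hLj
      · rw [← cofN_om]
        exact hcfL.2 _ hl.2.1
      · rw [D.jd]
        exact tz_mem.2 (h5.trans D.ητ))
  obtain ⟨α, hα, h2, ⟨m, hm, h3⟩, h4, h6⟩ := h1
  obtain ⟨α, hα', rfl⟩ := Ordinal.mem_toZFSet_iff.1 hα
  obtain ⟨m, hm', rfl⟩ := Ordinal.mem_toZFSet_iff.1 hm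
  exact ⟨α, hα', h2, ⟨m, hm', h3⟩, h4, h6⟩

/-- Successors in `HOD` exist. -/
theorem exists_hs (κ : Ordinal.{u}) : ∃ s, HSucc κ s := by
  obtain ⟨l, hl, hr⟩ := exists_regUnc κ
  obtain ⟨s, ⟨hs1, hs2⟩, hmin⟩ := WellFounded.has_min (wellFounded_lt (α := Ordinal.{u}))
    {s | κ < s ∧ HODReg s} ⟨_, hl, hodReg_of_regUnc hr⟩
  exact ⟨s, hs1, hs2, fun θ hθ hθs hθr => hmin θ ⟨hθ, hθr⟩ hθs⟩

/-- The cardinals below a limit cardinal contain a closed unbounded set. -/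
theorem club_cards (hcf : Cf μ.toZFSet l.toZFSet) (hω : Ordinal.omega0 < μ)
    (hlim : ∀ ξ < l, ∃ c < l, ξ < c ∧ IsCard (Ordinal.toZFSet c)) :
    Club (ZFSet.sep (fun x => IsCard x) l.toZFSet) l.toZFSet := by
  refine ⟨fun x hx => (mem_sep.1 hx).1, fun x hx => ?_, fun a ha hne h1 => ?_⟩
  · obtain ⟨x, hx', rfl⟩ := Ordinal.mem_toZFSet_iff.1 hx
    obtain ⟨c, hc, h1, h2⟩ := hlim x hx'
    exact ⟨_, mem_sep.2 ⟨tz_mem.2 hc, h2⟩, tz_mem.2 h1⟩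
  · obtain ⟨α, hα, rfl⟩ := Ordinal.mem_toZFSet_iff.1 ha
    refine mem_sep.2 ⟨ha, isCard_of_lim fun ξ hξ => ?_⟩
    obtain ⟨c, hc, h2, h3⟩ := h1 _ (tz_mem.2 hξ)
    obtain ⟨c, hc', rfl⟩ := Ordinal.mem_toZFSet_iff.1 h2
    exact ⟨c, hc', tz_mem.1 h3, (mem_sep.1 hc).2⟩

/-- The trichotomy if the HOD Hypothesis fails. -/
theorem silver2 (hδ : Extendible δ) {b : Bool} (hn : ¬ HODHypothesis.{u} b) (hδκ : δ ≤ κ)
    (hκ : IsCard κ.toZFSet) (hcf : Cf μ.toZFSet κ.toZFSet)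
    (hω : Ordinal.omega0 < μ) (hμκ : μ < κ) (hη : HSucc κ η) :
      (Cf Ordinal.omega0.toZFSet η.toZFSet ∧ ∃ C, C ⊆ κ.toZFSet ∧ Club C κ.toZFSet ∧
        ∀ δ s : Ordinal.{u}, δ.toZFSet ∈ C → HSucc δ s →
          Cf Ordinal.omega0.toZFSet s.toZFSet) ∨
      (Cf μ.toZFSet η.toZFSet ∧ ∃ C, C ⊆ κ.toZFSet ∧ Club C κ.toZFSet ∧
        ∀ δ s : Ordinal.{u}, δ.toZFSet ∈ C → HSucc δ s →
          ∀ θ : Ordinal.{u}, Cf θ.toZFSet δ.toZFSet ↔ Cf θ.toZFSet s.toZFSet) := by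
  rcases silver hκ hcf hω hμκ hη with h | h
  · exact absurd (h.2.1 b) (no_nsm hδ hn (hδκ.trans hη.1.le))
  · exact h

/-- The limit points of a closed unbounded set. -/
theorem club_limpt (hcf : Cf μ.toZFSet l.toZFSet) (hω : Ordinal.omega0 < μ) {C : ZFSet.{u}}
    (hC1 : C ⊆ l.toZFSet) (hC2 : Club C l.toZFSet) :
    Club (ZFSet.sep (fun x => ∀ y ∈ x, ∃ d ∈ C, d ∈ x ∧ y ∈ d) l.toZFSet) l.toZFSet := by
  refine ⟨fun x hx => (mem_sep.1 hx).1, fun x hx => ?_, fun a ha hne h1 => ?_⟩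
  · obtain ⟨x, hx', rfl⟩ := Ordinal.mem_toZFSet_iff.1 hx
    have h1 : ∀ y < l, ∃ d < l, y < d ∧ d.toZFSet ∈ C := by
      intro y hy
      obtain ⟨d, hd, h2⟩ := hC2.2.1 _ (tz_mem.2 hy)
      obtain ⟨d, hd', rfl⟩ := Ordinal.mem_toZFSet_iff.1 (hC1 hd)
      exact ⟨d, hd', tz_mem.1 h2, hd⟩
    choose! N hN1 hN2 hN3 using h1
    let G : ℕ → Ordinal.{u} := fun n => Nat.rec x (fun _ γ => N γ) n
    have hG : ∀ n, G n < l := by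
      intro n
      induction n with
      | zero => exact hx'
      | succ n ih => exact hN1 _ ih
    obtain ⟨a, ha, ha1, ha2⟩ := exists_supU hcf.uc hω hG fun n => hN2 _ (hG n)
    refine ⟨_, mem_sep.2 ⟨tz_mem.2 ha, fun y hy => ?_⟩, tz_mem.2 (ha1 0)⟩
    obtain ⟨y, hy', rfl⟩ := Ordinal.mem_toZFSet_iff.1 hy
    obtain ⟨n, hn⟩ := ha2 y hy'
    exact ⟨_, hN3 _ (hG n), tz_mem.2 (ha1 (n + 1)), tz_mem.2 (hn.trans (hN2 _ (hG n)))⟩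
  · refine mem_sep.2 ⟨ha, fun y hy => ?_⟩
    obtain ⟨c, hc, h2, h3⟩ := h1 y hy
    obtain ⟨d, hd, h4, h5⟩ := (mem_sep.1 hc).2 y h3
    obtain ⟨α, _, rfl⟩ := Ordinal.mem_toZFSet_iff.1 ha
    exact ⟨d, hd, (isOrdinal_toZFSet α).1.mem_trans h4 h2, h5⟩

/-- Singular cardinals are limits of cardinals. -/
theorem lim_cards (hκ : IsCard κ.toZFSet) (hcf : Cf μ.toZFSet κ.toZFSet)
    (hω : Ordinal.omega0 < μ) (hμκ : μ < κ) : ∀ ξ < κ, ∃ c < κ, ξ < c ∧ IsCard (Ordinal.toZFSet c) := by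
  intro ξ hξ
  obtain ⟨m, hm⟩ : ∃ m, m = max Ordinal.omega0 ξ := ⟨_, rfl⟩
  have hmκ : m < κ := by rw [hm]; exact max_lt (hω.trans hμκ) hξ
  have h0 : Cardinal.aleph0 ≤ m.card := by
    have := Ordinal.card_le_card (show Ordinal.omega0 ≤ m by rw [hm]; exact le_max_left _ _)
    rwa [Ordinal.card_omega0] at this
  refine ⟨_, lim_ord hκ hcf hμκ h0 (hκ.card_lt hmκ), ?_, (regUnc_ord (Cardinal.isRegular_succ h0)
    (h0.trans_lt (Order.lt_succ _))).isCard⟩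
  refine lt_of_le_of_lt (show ξ ≤ m by rw [hm]; exact le_max_right _ _) ?_
  rw [Cardinal.lt_ord]
  exact Order.lt_succ _

/-- Going down to cofinality `μ`. -/
theorem stat_low (hl : RegUnc l.toZFSet) (hδl : δ < l) (hμr : Rg μ)
    {P : Ordinal.{u} → Prop} {Q : Ordinal.{u} → Ordinal.{u} → Prop}
    (hex : ∀ E, E ⊆ l.toZFSet → Club E l.toZFSet → ∃ κ ν s : Ordinal.{u}, κ.toZFSet ∈ E ∧
      IsCard κ.toZFSet ∧ Cf ν.toZFSet κ.toZFSet ∧ ν < κ ∧ HSucc κ s ∧ Q ν s)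
    (hQ : ∀ κ ν s : Ordinal.{u}, δ < κ → IsCard κ.toZFSet → Cf ν.toZFSet κ.toZFSet → ν < κ →
      HSucc κ s → Q ν s → Ordinal.omega0 < ν ∧ μ ≤ ν ∧ (ν = μ → P s) ∧ ∃ D, D ⊆ κ.toZFSet ∧
        Club D κ.toZFSet ∧ ∀ a s' : Ordinal.{u}, a.toZFSet ∈ D → Cf μ.toZFSet a.toZFSet →
          HSucc a s' → P s') :
    Stat (ZFSet.sep (fun x => δ.toZFSet ∈ x ∧ IsCard x ∧ Cf μ.toZFSet x ∧
      ∃ s, HSucc (rank x) s ∧ P s) l.toZFSet) l.toZFSet := by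
  intro C hC1 hC2
  have hlc := cf_of_regUnc hl
  obtain ⟨E, hE1, hE2, hE3⟩ := club_two hlc hl.om_lt (fun x hx => (mem_sep.1 hx).1)
    (club_limpt hlc hl.om_lt hC1 hC2) (fun x hx => (mem_sep.1 hx).1) (club_tail hlc.lim hδl)
  obtain ⟨κ, ν, s, hκE, hκ, hν, hνκ, hs, hq⟩ := hex E hE1 hE2
  obtain ⟨h1, h2⟩ := hE3 _ hκE
  have hκl : κ < l := tz_mem.1 (hE1 hκE)
  have hδκ : δ < κ := tz_mem.1 (mem_sep.1 h2).2
  have h3 := (mem_sep.1 h1).2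
  obtain ⟨hων, hμν, h4, D, hD1, hD2, hD3⟩ := hQ κ ν s hδκ hκ hν hνκ hs hq
  rcases hμν.lt_or_eq with h5 | h5
  · have hCκ : Club (ZFSet.sep (fun x => x ∈ C) κ.toZFSet) κ.toZFSet := by
      refine ⟨fun x hx => (mem_sep.1 hx).1, fun x hx => ?_, fun a ha hne h6 => ?_⟩
      · obtain ⟨d, hd, h6, h7⟩ := h3 x hx
        exact ⟨d, mem_sep.2 ⟨h6, hd⟩, h7⟩
      · refine mem_sep.2 ⟨ha, hC2.2.2 a (ord_sub hκl.le ha) hne fun x hx => ?_⟩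
        obtain ⟨c, hc, h7, h8⟩ := h6 x hx
        exact ⟨c, (mem_sep.1 hc).2, h7, h8⟩
    obtain ⟨E1, hE11, hE12, hE13⟩ := club_two hν hων hD1 hD2 (fun x hx => (mem_sep.1 hx).1) hCκ
    obtain ⟨E2, hE21, hE22, hE23⟩ := club_two hν hων (fun x hx => (mem_sep.1 hx).1)
      (club_cards hν hων (lim_cards hκ hν hων hνκ)) (fun x hx => (mem_sep.1 hx).1)
      (club_tail hν.lim hδκ)
    obtain ⟨E3, hE31, hE32, hE33⟩ := club_two hν hων hE11 hE12 hE21 hE22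
    obtain ⟨a, ha, haE, haμ⟩ := club_cf hν.uc h5 hμr hE31 hE32
    obtain ⟨h6, h7⟩ := hE33 _ haE
    obtain ⟨h8, h9⟩ := hE13 _ h6
    obtain ⟨h10, h11⟩ := hE23 _ h7
    obtain ⟨s', hs'⟩ := exists_hs a
    refine ⟨a.toZFSet, mem_sep.2 ⟨tz_mem.2 (ha.trans hκl), (mem_sep.1 h11).2,
      (mem_sep.1 h10).2, haμ, s', ?_, hD3 a s' h8 haμ hs'⟩, (mem_sep.1 h9).2⟩
    rw [Ordinal.rank_toZFSet]
    exact hs'
  · refine ⟨κ.toZFSet, mem_sep.2 ⟨tz_mem.2 hκl, tz_mem.2 hδκ, hκ, ?_, s, ?_, h4 h5.symm⟩, ?_⟩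
    · rw [h5]
      exact hν
    · rw [Ordinal.rank_toZFSet]
      exact hs
    · exact hC2.2.2 _ (tz_mem.2 hκl) ⟨_, tz_mem.2 hδκ, rfl⟩ h3

/-- **Uniform cofinalities below regular limit cardinals.** -/
theorem unif_reg (hδ : Extendible δ) {b : Bool} (hn : ¬ HODHypothesis.{u} b) (hδl : δ < l)
    (hl : RegUnc l.toZFSet) :
    (∃ C, C ⊆ l.toZFSet ∧ Club C l.toZFSet ∧ ∀ κ ν s : Ordinal.{u}, κ.toZFSet ∈ C →
      IsCard κ.toZFSet → Cf ν.toZFSet κ.toZFSet → ν < κ → HSucc κ s →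
        Cf Ordinal.omega0.toZFSet s.toZFSet) ∨
    (∃ C, C ⊆ l.toZFSet ∧ Club C l.toZFSet ∧ ∀ κ ν s : Ordinal.{u}, κ.toZFSet ∈ C →
      IsCard κ.toZFSet → Cf ν.toZFSet κ.toZFSet → ν < κ → HSucc κ s →
        Cf ν.toZFSet s.toZFSet) := by
  by_contra hcon
  push Not at hcon
  obtain ⟨hc2, hc3⟩ := hcon
  obtain ⟨μ, hμ⟩ : ∃ μ : Ordinal.{u}, μ = (Order.succ Cardinal.aleph0).ord := ⟨_, rfl⟩
  have hμR : RegUnc μ.toZFSet := by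
    rw [hμ]
    exact regUnc_ord (Cardinal.isRegular_succ le_rfl) (Order.lt_succ _)
  have hωμ : Ordinal.omega0 < μ := hμR.om_lt
  have hμle : ∀ ν : Ordinal.{u}, ν.card.ord = ν → Ordinal.omega0 < ν → μ ≤ ν := by
    intro ν h1 h2
    rw [hμ, ← h1, Cardinal.ord_le_ord]
    refine Order.succ_le_of_lt ?_
    rw [← h1, Cardinal.lt_ord, Ordinal.card_omega0] at h2
    exact h2
  have hμδ : μ < δ := by
    obtain ⟨c, hc, h1, h2⟩ := hδ.limCard _ hδ.om_lt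
    refine (hμle c ?_ h1).trans_lt hc
    exact isCard_ord h2
  have hcof : ∀ κ ν s : Ordinal.{u}, δ < κ → IsCard κ.toZFSet → Cf ν.toZFSet κ.toZFSet →
      HSucc κ s → Cf Ordinal.omega0.toZFSet s.toZFSet ∨ Cf ν.toZFSet s.toZFSet := by
    intro κ ν s hδκ hκ hν hs
    obtain ⟨m, _, hm⟩ := exists_Cf hs.2.1.2.1
    have hωκ : Ordinal.omega0 ≤ κ := (hδ.om_lt.trans hδκ).le
    rcases succ_cof hωκ hκ hs hm with h1 | h1 | h1
    · exact absurd (notStr_succ hωκ hs h1 b) (no_nsm hδ hn (hδκ.trans hs.1).le)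
    · rw [h1] at hm
      exact Or.inl hm
    · rw [Cf.unique h1 hν] at hm
      exact Or.inr hm
  have hne : ∀ κ ν : Ordinal.{u}, δ < κ → Cf ν.toZFSet κ.toZFSet → ν ≠ Ordinal.omega0 →
      Ordinal.omega0 < ν ∧ μ ≤ ν := by
    intro κ ν hδκ hν h1
    have h2 : Ordinal.omega0 < ν := lt_of_le_of_ne (Cf.om_le (bot_le.trans_lt hδκ) hν) h1.symm
    exact ⟨h2, hμle ν (Cf.card hν) h2⟩
  have hA := stat_low (P := fun s => Cf μ.toZFSet s.toZFSet)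
    (Q := fun ν s => ¬ Cf Ordinal.omega0.toZFSet s.toZFSet) hl hδl (RegUnc.rg hμR)
    (fun E hE1 hE2 => by
      obtain ⟨κ, ν, s, h1, h2, h3, h4, h5, h6⟩ := hc2 E hE1 hE2
      exact ⟨κ, ν, s, h1, h2, h3, h4, h5, h6⟩)
    (fun κ ν s hδκ hκ hν hνκ hs hq => by
      have h1 : Cf ν.toZFSet s.toZFSet := (hcof κ ν s hδκ hκ hν hs).resolve_left hq
      obtain ⟨h2, h3⟩ := hne κ ν hδκ hν fun h => hq (by rw [h] at h1; exact h1)
      refine ⟨h2, h3, fun h => by rw [← h]; exact h1, ?_⟩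
      rcases silver2 hδ hn hδκ.le hκ hν h2 hνκ hs with h4 | h4
      · exact absurd h4.1 hq
      · obtain ⟨_, D, hD1, hD2, hD3⟩ := h4
        exact ⟨D, hD1, hD2, fun a s' ha haμ hs' => (hD3 a s' ha hs' μ).1 haμ⟩)
  have hB := stat_low (P := fun s => Cf Ordinal.omega0.toZFSet s.toZFSet)
    (Q := fun ν s => ¬ Cf ν.toZFSet s.toZFSet) hl hδl (RegUnc.rg hμR)
    (fun E hE1 hE2 => by
      obtain ⟨κ, ν, s, h1, h2, h3, h4, h5, h6⟩ := hc3 E hE1 hE2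
      exact ⟨κ, ν, s, h1, h2, h3, h4, h5, h6⟩)
    (fun κ ν s hδκ hκ hν hνκ hs hq => by
      have h1 : Cf Ordinal.omega0.toZFSet s.toZFSet :=
        (hcof κ ν s hδκ hκ hν hs).resolve_right hq
      obtain ⟨h2, h3⟩ := hne κ ν hδκ hν fun h => hq (by rw [h]; exact h1)
      refine ⟨h2, h3, fun _ => h1, ?_⟩
      rcases silver2 hδ hn hδκ.le hκ hν h2 hνκ hs with h4 | h4
      · obtain ⟨_, D, hD1, hD2, hD3⟩ := h4
        exact ⟨D, hD1, hD2, fun a s' ha _ hs' => hD3 a s' ha hs'⟩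
      · exact absurd h4.1 hq)
  obtain ⟨α, hα, h1, ⟨m, hm, h2⟩, h3, h4⟩ := reflect2 hδ hδl hl hμδ
    (fun x hx => (mem_sep.1 hx).1) hA (fun a ha => (mem_sep.1 ha).2.2.2.1.1)
    (fun x hx => (mem_sep.1 hx).1) hB (fun a ha => (mem_sep.1 ha).2.2.2.1.1)
  have hαlim := cofN_lim h2
  have h5 : ∀ ξ < α, ∃ c < α, ξ < c ∧ δ < c ∧ IsCard (Ordinal.toZFSet c) := by
    intro ξ hξ
    obtain ⟨x, hx, hx'⟩ := h3 _ (fun x hx => (mem_sep.1 hx).1) (club_tail hαlim hξ)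
    obtain ⟨hx1, hx2⟩ := mem_sep.1 hx'
    obtain ⟨x, hx3, rfl⟩ := Ordinal.mem_toZFSet_iff.1 hx1
    obtain ⟨_, h6, h7, _⟩ := mem_sep.1 hx
    exact ⟨x, hx3, tz_mem.1 hx2, tz_mem.1 h6, h7⟩
  have hα0 : 0 < α := by
    obtain ⟨x, hx, hx'⟩ := h3 α.toZFSet (fun x hx => hx) ⟨fun x hx => hx, fun x hx => by
      obtain ⟨x, hx', rfl⟩ := Ordinal.mem_toZFSet_iff.1 hx
      exact ⟨_, tz_mem.2 (hαlim x hx'), tz_mem.2 (Order.lt_succ x)⟩, fun a ha _ _ => ha⟩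
    obtain ⟨x, hx3, rfl⟩ := Ordinal.mem_toZFSet_iff.1 hx'
    exact bot_le.trans_lt hx3
  obtain ⟨c, hc, _, hδc, _⟩ := h5 0 hα0
  have hδα : δ < α := hδc.trans hc
  have hαc : IsCard α.toZFSet := isCard_of_lim fun ξ hξ => by
    obtain ⟨c, hc, h6, _, h7⟩ := h5 ξ hξ
    exact ⟨c, hc, h6, h7⟩
  obtain ⟨ν, _, hν⟩ := exists_Cf hαlim
  have hνδ : ν < δ := by
    refine lt_of_le_of_lt ?_ hm
    by_contra h6
    push Not at h6
    exact hν.2 _ (tz_mem.2 h6) h2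
  have hων : Ordinal.omega0 < ν := by
    refine lt_of_le_of_ne (Cf.om_le hα0 hν) fun h6 => h1 ?_
    rw [← h6] at hν
    exact hν.1
  obtain ⟨s, hs⟩ := exists_hs α
  rcases silver2 hδ hn hδα.le hαc hν hων (hνδ.trans hδα) hs with h6 | h6
  · obtain ⟨_, D, hD1, hD2, hD3⟩ := h6
    obtain ⟨x, hx, hxD⟩ := h3 D hD1 hD2
    obtain ⟨x, hx3, rfl⟩ := Ordinal.mem_toZFSet_iff.1 (hD1 hxD)
    obtain ⟨_, _, _, _, s', hs', h7⟩ := mem_sep.1 hx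
    rw [Ordinal.rank_toZFSet] at hs'
    exact hωμ.ne (Cf.unique (hD3 x s' hxD hs') h7)
  · obtain ⟨_, D, hD1, hD2, hD3⟩ := h6
    obtain ⟨x, hx, hxD⟩ := h4 D hD1 hD2
    obtain ⟨x, hx3, rfl⟩ := Ordinal.mem_toZFSet_iff.1 (hD1 hxD)
    obtain ⟨_, _, _, hxμ, s', hs', h7⟩ := mem_sep.1 hx
    rw [Ordinal.rank_toZFSet] at hs'
    exact hωμ.ne (Cf.unique h7 ((hD3 x s' hxD hs' μ).1 hxμ))

theorem regUnc_of_cf (h : Cf l.toZFSet l.toZFSet) (hω : Ordinal.omega0 < l) :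
    RegUnc l.toZFSet := by
  refine ⟨isOrdinal_toZFSet _, ?_, fun a ha f hf => ?_⟩
  · unfold om
    exact tz_mem.2 hω
  · obtain ⟨m, hm, rfl⟩ := Ordinal.mem_toZFSet_iff.1 ha
    obtain ⟨b, hb, hb'⟩ := h.uc m hm (fun i => rank (app f i.toZFSet)) (fun i hi => by
      obtain ⟨y, hy, hy'⟩ := Ordinal.mem_toZFSet_iff.1 (app_mem hf (tz_mem.2 hi))
      rw [← hy', Ordinal.rank_toZFSet]
      exact hy)
    refine ⟨b.toZFSet, tz_mem.2 hb, fun x hx y hy hxy => ?_⟩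
    obtain ⟨i, hi, rfl⟩ := Ordinal.mem_toZFSet_iff.1 hx
    obtain ⟨y, hy', rfl⟩ := Ordinal.mem_toZFSet_iff.1 hy
    have h1 := hb' i hi
    rw [(app_iff hf hx).1 hxy, Ordinal.rank_toZFSet] at h1
    exact tz_mem.2 h1

/-- **Uniform cofinalities.** -/
theorem unif_all (hδ : Extendible δ) {b : Bool} (hn : ¬ HODHypothesis.{u} b) (hδl : δ < l)
    (hl : IsCard l.toZFSet) (hcf : Cf μ.toZFSet l.toZFSet) (hω : Ordinal.omega0 < μ) :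
    (∃ C, C ⊆ l.toZFSet ∧ Club C l.toZFSet ∧ ∀ κ ν s : Ordinal.{u}, κ.toZFSet ∈ C →
      IsCard κ.toZFSet → Cf ν.toZFSet κ.toZFSet → ν < κ → HSucc κ s →
        Cf Ordinal.omega0.toZFSet s.toZFSet) ∨
    (∃ C, C ⊆ l.toZFSet ∧ Club C l.toZFSet ∧ ∀ κ ν s : Ordinal.{u}, κ.toZFSet ∈ C →
      IsCard κ.toZFSet → Cf ν.toZFSet κ.toZFSet → ν < κ → HSucc κ s →
        Cf ν.toZFSet s.toZFSet) := by
  rcases (Cf.le hcf).lt_or_eq with h1 | h1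
  · obtain ⟨s, hs⟩ := exists_hs l
    rcases silver2 hδ hn hδl.le hl hcf hω h1 hs with h2 | h2
    · obtain ⟨_, C, hC1, hC2, hC3⟩ := h2
      exact Or.inl ⟨C, hC1, hC2, fun κ ν s hκ _ _ _ hs => hC3 κ s hκ hs⟩
    · obtain ⟨_, C, hC1, hC2, hC3⟩ := h2
      exact Or.inr ⟨C, hC1, hC2, fun κ ν s hκ _ hν _ hs => (hC3 κ s hκ hs ν).1 hν⟩
  · rw [h1] at hcf hω
    exact unif_reg hδ hn hδl (regUnc_of_cf hcf hω)

end Pool.Agent.H93.SV
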