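import Pool.Agent.H93.SV.Sel

/-!
Ternary relations in `HOD`.
-/

set_option autoImplicit false
set_option linter.unusedVariables false

namespace Pool.Agent.H93.SV

open ZFSet Gss969 Pool.Agent.H310.HD Pool.Agent.H93.HM Pool.Agent.H93.SC

universe u

theorem HOD_prod' {a b : ZFSet.{u}} (ha : HOD a) (hb : HOD b) (ha' : ∀ x ∈ a, HOD x)
    (hb' : ∀ x ∈ b, HOD x) : HOD (prod a b) := by
  refine HOD_def (R := fun y x => (∀ p ∈ y, ∃ a ∈ x 0, ∃ b ∈ x 1, p = pair a b) ∧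
    ∀ a ∈ x 0, ∀ b ∈ x 1, pair a b ∈ y) ?_ [a, b] ?_ (fun y => ?_)
    fun p hp => ?_
  · repeat' first
      | exact dfn_pm Gd_Trs _ _ _ | exact dfn_pair Gd_Trs _ _ _
      | refine Dfn.and ?_ ?_ | refine Dfn.ball Gd_Trs _ ?_ | refine Dfn.bex Gd_Trs _ ?_
  · intro p hp
    simp only [List.mem_cons, List.not_mem_nil, or_false] at hp
    rcases hp with rfl | rfl
    · exact ha.od
    · exact hb.od
  · show ((∀ p ∈ y, ∃ x ∈ a, ∃ x' ∈ b, p = pair x x') ∧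
      ∀ x ∈ a, ∀ x' ∈ b, pair x x' ∈ y) ↔ _
    constructor
    · rintro ⟨h1, h2⟩
      ext p
      rw [mem_prod]
      constructor
      · intro hp
        exact h1 p hp
      · rintro ⟨x, hx, x', hx', rfl⟩
        exact h2 x hx x' hx'
    · rintro rfl
      exact ⟨fun p hp => mem_prod.1 hp, fun x hx x' hx' => pair_mem_prod.2 ⟨hx, hx'⟩⟩
  · obtain ⟨x, hx, y, hy, rfl⟩ := mem_prod.1 hp
    exact HOD_pair (ha' x hx) (hb' y hy)

theorem HOD_prod3 (a b c : Ordinal.{u}) :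
    HOD (prod a.toZFSet (prod b.toZFSet c.toZFSet)) := by
  refine HOD_prod' (HOD_ord a) (HOD_prod b c) (fun x hx => ?_) fun p hp => ?_
  · obtain ⟨x, _, rfl⟩ := Ordinal.mem_toZFSet_iff.1 hx
    exact HOD_ord x
  · obtain ⟨x, hx, y, hy, rfl⟩ := mem_prod.1 hp
    obtain ⟨x, _, rfl⟩ := Ordinal.mem_toZFSet_iff.1 hx
    obtain ⟨y, _, rfl⟩ := Ordinal.mem_toZFSet_iff.1 hy
    exact HOD_pair (HOD_ord x) (HOD_ord y)

/-- Ternary relations in `HOD`. -/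
theorem HOD_rel3 {A : ZFSet.{u} → ZFSet.{u} → ZFSet.{u} → (ℕ → ZFSet.{u}) → Prop}
    (hA : Dfn Gd.{u} (fun v => A (v 0) (v 1) (v 2) (fun n => v (n + 3)))) (a b c : Ordinal.{u})
    (ps : List ZFSet.{u}) (hps : ∀ p ∈ ps, OD p) :
    HOD (ZFSet.sep (fun p => ∃ x q, p = pair x q ∧ ∃ y z, q = pair y z ∧ A x y z (pl ps))
      (prod a.toZFSet (prod b.toZFSet c.toZFSet))) := by
  refine HOD_sepG (A := fun p v => ∃ x q, p = pair x q ∧ ∃ y z, q = pair y z ∧ A x y z v) ?_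
    (HOD_prod3 a b c) ps hps
  refine Dfn_unpair Gd_Trs 0 (A := fun x q v => ∃ y z, q = pair y z ∧
    A x y z (fun n => v (n + 1))) ?_
  refine Dfn_unpair Gd_Trs 0 (A := fun y z w => A (w 1) y z (fun n => w (n + 3))) ?_
  exact Dfn_reindex hA (fun n => if n = 0 then 3 else if n = 1 then 1 else
    if n = 2 then 0 else n + 2)

theorem mem_rel3 {B : ZFSet.{u} → ZFSet.{u} → ZFSet.{u} → Prop} {a b c : Ordinal.{u}}
    {x y z : ZFSet.{u}} :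
    pair x (pair y z) ∈ ZFSet.sep (fun p => ∃ x q, p = pair x q ∧ ∃ y z, q = pair y z ∧ B x y z)
      (prod a.toZFSet (prod b.toZFSet c.toZFSet)) ↔
      x ∈ a.toZFSet ∧ y ∈ b.toZFSet ∧ z ∈ c.toZFSet ∧ B x y z := by
  rw [mem_sep, pair_mem_prod, pair_mem_prod]
  constructor
  · rintro ⟨⟨h1, h2, h3⟩, x', q, h4, y', z', h5, h6⟩
    rw [pair_inj] at h4
    obtain ⟨rfl, rfl⟩ := h4
    rw [pair_inj] at h5
    obtain ⟨rfl, rfl⟩ := h5
    exact ⟨h1, h2, h3, h6⟩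
  · rintro ⟨h1, h2, h3, h4⟩
    exact ⟨⟨h1, h2, h3⟩, x, _, rfl, y, z, rfl, h4⟩

theorem dfn_pm3 (a b c d : ℕ) :
    Dfn Gd.{u} (fun v => pair (v a) (pair (v b) (v c)) ∈ v d) :=
  Dfn_pairG b c (A := fun p v => pair (v a) p ∈ v d) (dfn_pm Gd_Trs (a + 1) 0 (d + 1))

end Pool.Agent.H93.SV
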