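import Pool.Agent.H93.SV.Ref

/-!
Above a strongly compact cardinal: reflection of stationary sets.
-/

set_option autoImplicit false
set_option linter.unusedVariables false

namespace Pool.Agent.H93.SV

open ZFSet Gss969 Pool.Agent.H310.HD Pool.Agent.H93.HM Pool.Agent.H93.SC
  Pool.Agent.Results.MP_e37c09_lc.AlternativeA

universe u

variable {κ η μ l s δ : Ordinal.{u}}

/-- The set `s` of ordinals has fewer than `δ` elements: it is listed by a sequence of length less than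
`δ`. -/
def FewEl (δ : Ordinal.{u}) (s : Set Ordinal.{u}) : Prop :=
  ∃ m < δ, ∃ f : Ordinal.{u} → Ordinal.{u}, ∀ a ∈ s, ∃ i < m, f i = a

/-- The ultrafilter `U` concentrates on `P_δ(l)`, it is fine, and it is `δ`-complete. -/
structure FineUlt (δ l : Ordinal.{u}) (U : Ultrafilter (Set Ordinal.{u})) : Prop where
  few : {s | s ⊆ Set.Iio l ∧ FewEl δ s} ∈ U
  fine : ∀ a < l, {s | a ∈ s} ∈ U
  complete : ∀ m < δ, ∀ A : Ordinal.{u} → Set (Set Ordinal.{u}), (∀ i < m, A i ∈ U) →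
    {s | ∀ i < m, s ∈ A i} ∈ U

/-- The ordinal `δ` is a strongly compact cardinal: it is greater than the first uncountable
cardinal, and there is a fine `δ`-complete ultrafilter on `P_δ(l)` for every `l ≥ δ`. -/
def StronglyCompact (δ : Ordinal.{u}) : Prop :=
  (Order.succ Cardinal.aleph0).ord < δ ∧ ∀ l ≥ δ, ∃ U : Ultrafilter (Set Ordinal.{u}),
    FineUlt δ l U

variable {U : Ultrafilter (Set Ordinal.{u})}

theorem FineUlt.nat (hU : FineUlt δ l U) (hω : Ordinal.omega0 < δ)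
    {A : ℕ → Set (Set Ordinal.{u})} (hA : ∀ n, A n ∈ U) : {s | ∀ n, s ∈ A n} ∈ U := by
  have h1 := hU.complete Ordinal.omega0 hω (fun i => {s | ∀ n : ℕ, i = n → s ∈ A n})
    (fun i hi => by
      obtain ⟨k, rfl⟩ := Ordinal.lt_omega0.1 hi
      refine Filter.mem_of_superset (hA k) fun s hs n hn => ?_
      have : k = n := by exact_mod_cast hn
      rw [← this]
      exact hs)
  refine Filter.mem_of_superset h1 fun s hs n => ?_
  exact hs n (Ordinal.natCast_lt_omega0 n) n rfl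

/-- The least function which is unbounded modulo `U`. -/
theorem FineUlt.least (hU : FineUlt δ l U) (hω : Ordinal.omega0 < δ)
    (hlim : ∀ x < l, Order.succ x < l) :
    ∃ f : Set Ordinal.{u} → Ordinal.{u}, (∀ b < l, {s | b < f s} ∈ U) ∧
      (∀ g : Set Ordinal.{u} → Ordinal.{u}, {s | g s < f s} ∈ U → ∃ b < l, {s | g s ≤ b} ∈ U) ∧
      {s | f s ≤ l} ∈ U := by
  have hwf : WellFounded (fun f g : Set Ordinal.{u} → Ordinal.{u} => {s | f s < g s} ∈ U) := by
    rw [wellFounded_iff_isEmpty_descending_chain]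
    refine ⟨fun ⟨F, hF⟩ => ?_⟩
    obtain ⟨s, hs⟩ := U.nonempty_of_mem (hU.nat hω hF)
    have h2 := wellFounded_iff_isEmpty_descending_chain.1 (wellFounded_lt (α := Ordinal.{u}))
    exact h2.false ⟨fun n => F n s, fun n => hs n⟩
  obtain ⟨f, hf, hmin⟩ := hwf.has_min
    {f : Set Ordinal.{u} → Ordinal.{u} | ∀ b < l, {s | b < f s} ∈ U}
    ⟨fun _ => l, fun b hb => Filter.mem_of_superset Filter.univ_mem fun s _ => hb⟩
  refine ⟨f, hf, fun g hg => ?_, ?_⟩
  · by_contra hcon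
    push Not at hcon
    refine hmin g (fun b hb => ?_) hg
    have h1 := Ultrafilter.compl_mem_iff_notMem.2 (hcon b hb)
    refine Filter.mem_of_superset h1 fun s hs => ?_
    exact not_le.1 (show ¬ g s ≤ b from hs)
  · by_contra hcon
    have h1 := Ultrafilter.compl_mem_iff_notMem.2 hcon
    refine hmin (fun _ => l) (fun b hb => Filter.mem_of_superset Filter.univ_mem fun s _ => hb)
      (Filter.mem_of_superset h1 fun s hs => ?_)
    exact not_le.1 (show ¬ f s ≤ l from hs)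

/-- **Reflection of stationary sets above a strongly compact cardinal.** -/
theorem reflU (hδ : StronglyCompact δ) (hδl : δ < l) (hl : RegUnc l.toZFSet) (hμ0 : 0 < μ)
    (hμ : μ < δ) {A B : ZFSet.{u}} (hAst : Stat A l.toZFSet)
    (hAc : ∀ a ∈ A, CofN μ.toZFSet a) (hBst : Stat B l.toZFSet)
    (hBc : ∀ a ∈ B, CofN μ.toZFSet a) : ∃ α < l, ¬ CofOm α.toZFSet ∧
      (∃ m < δ, CofN (Ordinal.toZFSet m) α.toZFSet) ∧ Stat A α.toZFSet ∧ Stat B α.toZFSet := by
  classical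
  obtain ⟨hω1, hU⟩ := hδ
  obtain ⟨U, hU⟩ := hU l hδl.le
  have hωδ : Ordinal.omega0 < δ := by
    refine lt_trans ?_ hω1
    rw [Cardinal.lt_ord, Ordinal.card_omega0]
    exact Order.lt_succ _
  have hlim : ∀ x < l, Order.succ x < l := fun x hx => hl.succ_lt hx
  obtain ⟨f, hf, hbd, hfl⟩ := hU.least hωδ hlim
  -- `s` is cofinal in `f s`
  have hcof : {s | ∀ y < f s, ∃ x ∈ s, y < x ∧ x < f s} ∈ U := by
    by_contra hcon
    have h1 := Ultrafilter.compl_mem_iff_notMem.2 hcon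
    obtain ⟨b, hb, h2⟩ := hbd (fun s => if h : ∃ y < f s, ∀ x ∈ s, y < x → f s ≤ x then
      h.choose else 0) (Filter.mem_of_superset h1 fun s hs => by
        have h : ∃ y < f s, ∀ x ∈ s, y < x → f s ≤ x := by
          by_contra h
          push Not at h
          exact hs h
        show (if h : ∃ y < f s, ∀ x ∈ s, y < x → f s ≤ x then h.choose else 0) < f s
        rw [dif_pos h]
        exact h.choose_spec.1)
    obtain ⟨s, ⟨⟨hs1, hs2⟩, hs3⟩, hs4⟩ := U.nonempty_of_mem (Filter.inter_mem (Filter.inter_mem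
      (Filter.inter_mem h1 h2) (hU.fine _ (hlim b hb))) (hf _ (hlim b hb)))
    have h : ∃ y < f s, ∀ x ∈ s, y < x → f s ≤ x := by
      by_contra h
      push Not at h
      exact hs1 h
    have hs2' : (if h : ∃ y < f s, ∀ x ∈ s, y < x → f s ≤ x then h.choose else 0) ≤ b := hs2
    rw [dif_pos h] at hs2'
    exact absurd (h.choose_spec.2 _ hs3 (hs2'.trans_lt (Order.lt_succ b))) (not_le.2 hs4)
  -- stationary sets reflect to `f s`
  have hst : ∀ A : ZFSet.{u}, Stat A l.toZFSet → (∀ a ∈ A, CofN μ.toZFSet a) →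
      {s | Stat A (f s).toZFSet} ∈ U := by
    intro A hA hAc
    by_contra hcon
    have h1 := Ultrafilter.compl_mem_iff_notMem.2 hcon
    have h2 : ∀ s : Set Ordinal.{u}, ¬ Stat A (f s).toZFSet → ∃ C, C ⊆ (f s).toZFSet ∧
        Club C (f s).toZFSet ∧ ∀ x ∈ A, x ∉ C := by
      intro s hs
      unfold Stat at hs
      push Not at hs
      exact hs
    choose! C hC1 hC2 hC3 using h2
    have h3 : ∀ β < l, ∃ b < l, {s | ∃ c : Ordinal.{u}, β < c ∧ c ≤ b ∧ c < f s ∧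
        c.toZFSet ∈ C s} ∈ U := by
      intro β hβ
      have h4 : {s | ∃ c : Ordinal.{u}, β < c ∧ c < f s ∧ c.toZFSet ∈ C s} ∈ U := by
        refine Filter.mem_of_superset (Filter.inter_mem h1 (hf β hβ)) fun s hs => ?_
        obtain ⟨c, hc, hc'⟩ := (hC2 s hs.1).2.1 _ (tz_mem.2 hs.2)
        obtain ⟨c, hc2, rfl⟩ := Ordinal.mem_toZFSet_iff.1 (hC1 s hs.1 hc)
        exact ⟨c, tz_mem.1 hc', hc2, hc⟩
      obtain ⟨b, hb, h5⟩ := hbd (fun s => if h : ∃ c : Ordinal.{u}, β < c ∧ c < f s ∧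
        c.toZFSet ∈ C s then h.choose else 0) (Filter.mem_of_superset h4 fun s hs => by
          have h : ∃ c : Ordinal.{u}, β < c ∧ c < f s ∧ c.toZFSet ∈ C s := hs
          show (if h : ∃ c : Ordinal.{u}, β < c ∧ c < f s ∧ c.toZFSet ∈ C s then
            h.choose else 0) < f s
          rw [dif_pos h]
          exact h.choose_spec.2.1)
      refine ⟨b, hb, Filter.mem_of_superset (Filter.inter_mem h4 h5) fun s hs => ?_⟩
      obtain ⟨hs1, hs2⟩ := hs
      have h : ∃ c : Ordinal.{u}, β < c ∧ c < f s ∧ c.toZFSet ∈ C s := hs1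
      have hs2' : (if h : ∃ c : Ordinal.{u}, β < c ∧ c < f s ∧ c.toZFSet ∈ C s then
        h.choose else 0) ≤ b := hs2
      rw [dif_pos h] at hs2'
      exact ⟨h.choose, h.choose_spec.1, hs2', h.choose_spec.2.1, h.choose_spec.2.2⟩
    choose! N hN1 hN2 using h3
    have hE := club_diag (l := l) (μ := l) hlim (RegUnc.uc hl) hl.om_lt hlim
      (h := fun x => x) (fun x hx => hx) (fun x y hxy _ => hxy)
      (C := fun i => ZFSet.sep (fun x => (N i).toZFSet ∈ x) l.toZFSet)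
      (fun i _ x hx => (mem_sep.1 hx).1) (fun i hi => club_tail hlim (hN1 i hi))
    obtain ⟨a, haA, haE⟩ := hA _ (fun x hx => (mem_sep.1 hx).1) hE
    obtain ⟨hal, haN⟩ := mem_sep.1 haE
    obtain ⟨α, hα, rfl⟩ := Ordinal.mem_toZFSet_iff.1 hal
    obtain ⟨g, hg, hgc⟩ := hAc _ haA
    have hα0 : ∀ i < μ, rank (app g i.toZFSet) < α := by
      intro i hi
      obtain ⟨y, hy, hy'⟩ := Ordinal.mem_toZFSet_iff.1 (app_mem hg (tz_mem.2 hi))
      rw [← hy', Ordinal.rank_toZFSet]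
      exact hy
    have h6 := hU.complete μ hμ (fun i => {s | ∃ c : Ordinal.{u}, rank (app g i.toZFSet) < c ∧
      c ≤ N (rank (app g i.toZFSet)) ∧ c < f s ∧ c.toZFSet ∈ C s})
      (fun i hi => hN2 _ ((hα0 i hi).trans hα))
    obtain ⟨s, ⟨hs1, hs2⟩, hs3⟩ := U.nonempty_of_mem
      (Filter.inter_mem (Filter.inter_mem h1 (hf α hα)) h6)
    refine hC3 s hs1 _ haA ?_
    have h7 : ∀ y < α, ∃ c : Ordinal.{u}, y < c ∧ c < α ∧ c.toZFSet ∈ C s := by
      intro y hy
      obtain ⟨n, hn, z, hz, hnz, hyz⟩ := hgc _ (tz_mem.2 hy)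
      obtain ⟨i, hi, rfl⟩ := Ordinal.mem_toZFSet_iff.1 hn
      obtain ⟨z, hz', rfl⟩ := Ordinal.mem_toZFSet_iff.1 hz
      obtain ⟨c, hc1, hc2, _, hc3⟩ := hs3 i hi
      have h8 := (app_iff hg hn).1 hnz
      rw [h8, Ordinal.rank_toZFSet] at hc1 hc2
      refine ⟨c, (tz_mem.1 hyz).trans hc1, ?_, hc3⟩
      have h9 := (mem_sep.1 (haN z (tz_mem.2 hz'))).2
      exact hc2.trans_lt (tz_mem.1 h9)
    have hαlim := cofN_lim (hAc _ haA)
    refine (hC2 s hs1).2.2 _ (tz_mem.2 hs2) ?_ fun x hx => ?_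
    · exact ⟨_, app_mem hg (tz_mem.2 hμ0), rfl⟩
    · obtain ⟨x, hx', rfl⟩ := Ordinal.mem_toZFSet_iff.1 hx
      obtain ⟨c, hc1, hc2, hc3⟩ := h7 x hx'
      exact ⟨_, hc3, tz_mem.2 hc2, tz_mem.2 hc1⟩
  -- the cofinality of `f s` is uncountable
  have hnc : {s | ¬ CofOm (f s).toZFSet} ∈ U := by
    by_contra hcon
    have h1 := Ultrafilter.compl_mem_iff_notMem.2 hcon
    have h2 : ∀ s : Set Ordinal.{u}, CofOm (f s).toZFSet → ∃ h, IsFunc om (f s).toZFSet h ∧
        ∀ x ∈ (f s).toZFSet, ∃ n ∈ om.{u}, ∃ y ∈ (f s).toZFSet, pair n y ∈ h ∧ x ∈ y :=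
      fun s hs => hs
    choose! h hh1 hh2 using h2
    have h3 : ∀ n : ℕ, ∃ b < l,
        {s | rank (app (h s) (Ordinal.toZFSet (n : Ordinal.{u}))) ≤ b} ∈ U := fun n =>
      hbd _ (Filter.mem_of_superset h1 fun s hs => by
        have hs' : CofOm (f s).toZFSet := by
          by_contra h
          exact hs h
        have hn : (Ordinal.toZFSet (n : Ordinal.{u})) ∈ om.{u} := by
          unfold om
          exact tz_mem.2 (Ordinal.natCast_lt_omega0 n)
        obtain ⟨y, hy, hy'⟩ := Ordinal.mem_toZFSet_iff.1 (app_mem (hh1 s hs') hn)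
        show rank (app (h s) (Ordinal.toZFSet (n : Ordinal.{u}))) < f s
        rw [← hy', Ordinal.rank_toZFSet]
        exact hy)
    choose b hb1 hb2 using h3
    obtain ⟨b', hb', hbb⟩ := RegUnc.uc hl _ hl.om_lt
      (fun i => b (if h : ∃ n : ℕ, i = n then h.choose else 0)) fun i _ => hb1 _
    have hbn : ∀ n, b n < b' := by
      intro n
      have h4 := hbb n (Ordinal.natCast_lt_omega0 n)
      have h5 : ∃ m : ℕ, (n : Ordinal.{u}) = m := ⟨n, rfl⟩
      simp only [dif_pos h5] at h4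
      have h6 : h5.choose = n := by exact_mod_cast h5.choose_spec.symm
      rwa [h6] at h4
    obtain ⟨s, ⟨hs1, hs2⟩, hs3⟩ := U.nonempty_of_mem
      (Filter.inter_mem (Filter.inter_mem h1 (hf b' hb')) (hU.nat hωδ hb2))
    have hs' : CofOm (f s).toZFSet := by
      by_contra h
      exact hs1 h
    obtain ⟨n, hn, y, hy, hny, hby⟩ := hh2 s hs' _ (tz_mem.2 hs2)
    have hn' := hn
    unfold om at hn'
    obtain ⟨i, hi, rfl⟩ := Ordinal.mem_toZFSet_iff.1 hn'
    obtain ⟨k, rfl⟩ := Ordinal.lt_omega0.1 hi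
    obtain ⟨y, hy', rfl⟩ := Ordinal.mem_toZFSet_iff.1 hy
    have h8 := (app_iff (hh1 s hs') hn).1 hny
    have h9 : rank (app (h s) (Ordinal.toZFSet (k : Ordinal.{u}))) ≤ b k := hs3 k
    rw [h8, Ordinal.rank_toZFSet] at h9
    exact absurd (tz_mem.1 hby) (not_lt.2 (h9.trans (hbn k).le))
  obtain ⟨s, ⟨⟨⟨⟨⟨⟨hs0, m, hm, φ, hφ⟩, hs1⟩, hs2⟩, hs3⟩, hs4⟩, hs5⟩, hs6⟩ :=
    U.nonempty_of_mem (Filter.inter_mem (Filter.inter_mem (Filter.inter_mem (Filter.inter_mem
      (Filter.inter_mem (Filter.inter_mem hU.few (hf 0 hl.pos)) hcof) (hst A hAst hAc))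
      (hst B hBst hBc)) hnc) hfl)
  have hs1' : 0 < f s := hs1
  have hs2' : ∀ y < f s, ∃ x ∈ s, y < x ∧ x < f s := hs2
  refine ⟨f s, ?_, hs5, ⟨m, hm, ?_⟩, hs3, hs4⟩
  · refine lt_of_le_of_ne hs6 fun h1 => ?_
    obtain ⟨b, hb, hb'⟩ := RegUnc.uc hl m (hm.trans hδl) (fun i => if φ i < l then φ i else 0)
      (fun i _ => by
        by_cases h : φ i < l
        · simp only [if_pos h]; exact h
        · simp only [if_neg h]; exact hl.pos)
    obtain ⟨x, hx, h2, h3⟩ := hs2' b (by rw [h1]; exact hb)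
    obtain ⟨i, hi, rfl⟩ := hφ x hx
    have h4 := hb' i hi
    rw [h1] at h3
    simp only [if_pos h3] at h4
    exact lt_asymm h2 h4
  · refine ⟨gr m.toZFSet fun x => (if φ (rank x) < f s then φ (rank x) else 0).toZFSet,
      isFunc_gr fun x hx => ?_, fun x hx => ?_⟩
    · by_cases h : φ (rank x) < f s
      · rw [if_pos h]; exact tz_mem.2 h
      · rw [if_neg h]; exact tz_mem.2 hs1'
    · obtain ⟨y, hy, rfl⟩ := Ordinal.mem_toZFSet_iff.1 hx
      obtain ⟨x, hx, h2, h3⟩ := hs2' y hy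
      obtain ⟨i, hi, rfl⟩ := hφ x hx
      refine ⟨_, tz_mem.2 hi, _, tz_mem.2 h3, ?_, tz_mem.2 h2⟩
      rw [pair_mem_gr, Ordinal.rank_toZFSet, if_pos h3]
      exact ⟨tz_mem.2 hi, rfl⟩

end Pool.Agent.H93.SV
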