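import Pool.Agent.H93.SV.Sco

/-!
The trichotomy for regular cardinals above a strongly compact cardinal.
-/

set_option autoImplicit false
set_option linter.unusedVariables false

namespace Pool.Agent.H93.SV

open ZFSet Gss969 Pool.Agent.H310.HD Pool.Agent.H93.HM Pool.Agent.H93.SC
  Pool.Agent.Results.MP_e37c09_lc.AlternativeA

universe u

variable {κ η μ l s δ : Ordinal.{u}}

/-- The points of the cardinals `a` in `(δ, l)` of cofinality `μ` whose successor in `HOD` satisfies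
`P`. -/
noncomputable def PS (δ l μ : Ordinal.{u}) (P : Ordinal.{u} → Ordinal.{u} → Prop) : ZFSet.{u} :=
  ZFSet.sep (fun x => δ.toZFSet ∈ x ∧ IsCard x ∧ Cf μ.toZFSet x ∧
      ∃ s, HSucc (rank x) s ∧ P (rank x) s) l.toZFSet

/-- Going down to cofinality `μ`. -/
theorem stat_low2 (hl : RegUnc l.toZFSet) (hδl : δ < l) (hμr : Rg μ) (hωμ : Ordinal.omega0 ≤ μ)
    {P : Ordinal.{u} → Ordinal.{u} → Prop} {Q : Ordinal.{u} → Ordinal.{u} → Ordinal.{u} → Prop}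
    (hex : ∀ E, E ⊆ l.toZFSet → Club E l.toZFSet → ∃ κ ν s : Ordinal.{u}, κ.toZFSet ∈ E ∧
      IsCard κ.toZFSet ∧ Cf ν.toZFSet κ.toZFSet ∧ ν < κ ∧ HSucc κ s ∧ Q κ ν s)
    (hQ : ∀ κ ν s : Ordinal.{u}, δ < κ → IsCard κ.toZFSet → Cf ν.toZFSet κ.toZFSet → ν < κ →
      HSucc κ s → Q κ ν s → μ ≤ ν ∧ (ν = μ → P κ s) ∧ (μ < ν → ∃ D, D ⊆ κ.toZFSet ∧
        Club D κ.toZFSet ∧ ∀ a s' : Ordinal.{u}, a.toZFSet ∈ D → Cf μ.toZFSet a.toZFSet →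
          Ordinal.omega0 ≤ a → HSucc a s' → P a s')) :
    Stat (PS δ l μ P) l.toZFSet := by
  intro C hC1 hC2
  have hlc := cf_of_regUnc hl
  obtain ⟨E, hE1, hE2, hE3⟩ := club_two hlc hl.om_lt (fun x hx => (mem_sep.1 hx).1)
    (club_limpt hlc hl.om_lt hC1 hC2) (fun x hx => (mem_sep.1 hx).1) (club_tail hlc.lim hδl)
  obtain ⟨κ, ν, s, hκE, hκ, hν, hνκ, hs, hq⟩ := hex E hE1 hE2
  obtain ⟨h1, h2⟩ := hE3 _ hκE
  have hκl : κ < l := tz_mem.1 (hE1 hκE)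
  have hδκ : δ < κ := tz_mem.1 (mem_sep.1 h2).2
  have h3 := (mem_sep.1 h1).2
  obtain ⟨hμν, h4, h5'⟩ := hQ κ ν s hδκ hκ hν hνκ hs hq
  rcases hμν.lt_or_eq with h5 | h5
  · obtain ⟨D, hD1, hD2, hD3⟩ := h5' h5
    have hων : Ordinal.omega0 < ν := hωμ.trans_lt h5
    have hCκ : Club (ZFSet.sep (fun x => x ∈ C) κ.toZFSet) κ.toZFSet := by
      refine ⟨fun x hx => (mem_sep.1 hx).1, fun x hx => ?_, fun a ha hne h6 => ?_⟩
      · obtain ⟨d, hd, h6, h7⟩ := h3 x hx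
        exact ⟨d, mem_sep.2 ⟨h6, hd⟩, h7⟩
      · refine mem_sep.2 ⟨ha, hC2.2.2 a (ord_sub hκl.le ha) hne fun x hx => ?_⟩
        obtain ⟨c, hc, h7, h8⟩ := h6 x hx
        exact ⟨c, (mem_sep.1 hc).2, h7, h8⟩
    obtain ⟨E1, hE11, hE12, hE13⟩ := club_two hν hων hD1 hD2 (fun x hx => (mem_sep.1 hx).1) hCκ
    obtain ⟨E2, hE21, hE22, hE23⟩ := club_two hν hων (fun x hx => (mem_sep.1 hx).1)
      (club_cards hν hων (lim_cards hκ hν hων hνκ)) (fun x hx => (mem_sep.1 hx).1)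
      (club_tail hν.lim hδκ)
    obtain ⟨E3, hE31, hE32, hE33⟩ := club_two hν hων hE11 hE12 hE21 hE22
    obtain ⟨a, ha, haE, haμ⟩ := club_cf hν.uc h5 hμr hE31 hE32
    obtain ⟨h6, h7⟩ := hE33 _ haE
    obtain ⟨h8, h9⟩ := hE13 _ h6
    obtain ⟨h10, h11⟩ := hE23 _ h7
    obtain ⟨s', hs'⟩ := exists_hs a
    have haω : Ordinal.omega0 ≤ a := hωμ.trans (Cf.le haμ)
    refine ⟨a.toZFSet, mem_sep.2 ⟨tz_mem.2 (ha.trans hκl), (mem_sep.1 h11).2,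
      (mem_sep.1 h10).2, haμ, s', ?_, ?_⟩, (mem_sep.1 h9).2⟩
    · rw [Ordinal.rank_toZFSet]
      exact hs'
    · rw [Ordinal.rank_toZFSet]
      exact hD3 a s' h8 haμ haω hs'
  · refine ⟨κ.toZFSet, mem_sep.2 ⟨tz_mem.2 hκl, tz_mem.2 hδκ, hκ, ?_, s, ?_, ?_⟩, ?_⟩
    · rw [h5]
      exact hν
    · rw [Ordinal.rank_toZFSet]
      exact hs
    · rw [Ordinal.rank_toZFSet]
      exact h4 h5.symm
    · exact hC2.2.2 _ (tz_mem.2 hκl) ⟨_, tz_mem.2 hδκ, rfl⟩ h3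

/-- Reflection of two sets of cardinals. -/
theorem reflC (hδ : StronglyCompact δ) (hδl : δ < l) (hl : RegUnc l.toZFSet) (hμ0 : 0 < μ)
    (hμ : μ < δ) {P P' : Ordinal.{u} → Ordinal.{u} → Prop} (hA : Stat (PS δ l μ P) l.toZFSet)
    (hB : Stat (PS δ l μ P') l.toZFSet) : ∃ α ν : Ordinal.{u}, δ < α ∧ IsCard α.toZFSet ∧
      Cf ν.toZFSet α.toZFSet ∧ Ordinal.omega0 < ν ∧ ν < α ∧
      (∀ D, D ⊆ α.toZFSet → Club D α.toZFSet → ∃ x s' : Ordinal.{u}, x.toZFSet ∈ D ∧ δ < x ∧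
        Cf μ.toZFSet x.toZFSet ∧ HSucc x s' ∧ P x s') ∧
      (∀ D, D ⊆ α.toZFSet → Club D α.toZFSet → ∃ x s' : Ordinal.{u}, x.toZFSet ∈ D ∧ δ < x ∧
        Cf μ.toZFSet x.toZFSet ∧ HSucc x s' ∧ P' x s') := by
  obtain ⟨α, hα, h1, ⟨m, hm, h2⟩, h3, h4⟩ := reflU hδ hδl hl hμ0 hμ hA
    (fun a ha => (mem_sep.1 ha).2.2.2.1.1) hB (fun a ha => (mem_sep.1 ha).2.2.2.1.1)
  have hαlim := cofN_lim h2
  have h5 : ∀ ξ < α, ∃ c < α, ξ < c ∧ δ < c ∧ IsCard (Ordinal.toZFSet c) := by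
    intro ξ hξ
    obtain ⟨x, hx, hx'⟩ := h3 _ (fun x hx => (mem_sep.1 hx).1) (club_tail hαlim hξ)
    obtain ⟨hx1, hx2⟩ := mem_sep.1 hx'
    obtain ⟨x, hx3, rfl⟩ := Ordinal.mem_toZFSet_iff.1 hx1
    obtain ⟨_, h6, h7, _⟩ := mem_sep.1 hx
    exact ⟨x, hx3, tz_mem.1 hx2, tz_mem.1 h6, h7⟩
  have hα0 : 0 < α := by
    obtain ⟨x, hx, hx'⟩ := h3 α.toZFSet (fun x hx => hx) ⟨fun x hx => hx, fun x hx => by
      obtain ⟨x, hx', rfl⟩ := Ordinal.mem_toZFSet_iff.1 hx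
      exact ⟨_, tz_mem.2 (hαlim x hx'), tz_mem.2 (Order.lt_succ x)⟩, fun a ha _ _ => ha⟩
    obtain ⟨x, hx3, rfl⟩ := Ordinal.mem_toZFSet_iff.1 hx'
    exact bot_le.trans_lt hx3
  obtain ⟨c, hc, _, hδc, _⟩ := h5 0 hα0
  have hδα : δ < α := hδc.trans hc
  have hαc : IsCard α.toZFSet := isCard_of_lim fun ξ hξ => by
    obtain ⟨c, hc, h6, _, h7⟩ := h5 ξ hξ
    exact ⟨c, hc, h6, h7⟩
  obtain ⟨ν, _, hν⟩ := exists_Cf hαlim
  have hνδ : ν < δ := by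
    refine lt_of_le_of_lt ?_ hm
    by_contra h6
    push Not at h6
    exact hν.2 _ (tz_mem.2 h6) h2
  have hων : Ordinal.omega0 < ν := by
    refine lt_of_le_of_ne (Cf.om_le hα0 hν) fun h6 => h1 ?_
    rw [← h6] at hν
    exact hν.1
  refine ⟨α, ν, hδα, hαc, hν, hων, hνδ.trans hδα, fun D hD1 hD2 => ?_, fun D hD1 hD2 => ?_⟩
  · obtain ⟨x, hx, hxD⟩ := h3 D hD1 hD2
    obtain ⟨x, hx3, rfl⟩ := Ordinal.mem_toZFSet_iff.1 (hD1 hxD)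
    obtain ⟨_, h6, _, h7, s', hs', h8⟩ := mem_sep.1 hx
    rw [Ordinal.rank_toZFSet] at hs' h8
    exact ⟨x, s', hxD, tz_mem.1 h6, h7, hs', h8⟩
  · obtain ⟨x, hx, hxD⟩ := h4 D hD1 hD2
    obtain ⟨x, hx3, rfl⟩ := Ordinal.mem_toZFSet_iff.1 (hD1 hxD)
    obtain ⟨_, h6, _, h7, s', hs', h8⟩ := mem_sep.1 hx
    rw [Ordinal.rank_toZFSet] at hs' h8
    exact ⟨x, s', hxD, tz_mem.1 h6, h7, hs', h8⟩

/-- A property of stationary many singular cardinals splits. -/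
theorem hex_or (hl : RegUnc l.toZFSet) {Q Q1 Q2 : Ordinal.{u} → Ordinal.{u} → Ordinal.{u} → Prop}
    (hex : ∀ E, E ⊆ l.toZFSet → Club E l.toZFSet → ∃ κ ν s : Ordinal.{u}, κ.toZFSet ∈ E ∧
      IsCard κ.toZFSet ∧ Cf ν.toZFSet κ.toZFSet ∧ ν < κ ∧ HSucc κ s ∧ Q κ ν s)
    (hQ : ∀ κ ν s, Q κ ν s → Q1 κ ν s ∨ Q2 κ ν s) :
    (∀ E, E ⊆ l.toZFSet → Club E l.toZFSet → ∃ κ ν s : Ordinal.{u}, κ.toZFSet ∈ E ∧
      IsCard κ.toZFSet ∧ Cf ν.toZFSet κ.toZFSet ∧ ν < κ ∧ HSucc κ s ∧ Q1 κ ν s) ∨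
    (∀ E, E ⊆ l.toZFSet → Club E l.toZFSet → ∃ κ ν s : Ordinal.{u}, κ.toZFSet ∈ E ∧
      IsCard κ.toZFSet ∧ Cf ν.toZFSet κ.toZFSet ∧ ν < κ ∧ HSucc κ s ∧ Q2 κ ν s) := by
  by_contra hcon
  push Not at hcon
  obtain ⟨⟨C, hC1, hC2, hC3⟩, ⟨D, hD1, hD2, hD3⟩⟩ := hcon
  obtain ⟨E, hE1, hE2, hE3⟩ := club_two (cf_of_regUnc hl) hl.om_lt hC1 hC2 hD1 hD2
  obtain ⟨κ, ν, s, h1, h2, h3, h4, h5, h6⟩ := hex E hE1 hE2
  obtain ⟨h7, h8⟩ := hE3 _ h1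
  rcases hQ _ _ _ h6 with h9 | h9
  · exact hC3 κ ν s h7 h2 h3 h4 h5 h9
  · exact hD3 κ ν s h8 h2 h3 h4 h5 h9

/-- A successor in `HOD` which is a successor in `V` is regular. -/
theorem succ_cf {a s : Ordinal.{u}} (ha : Ordinal.omega0 ≤ a) (h : s = (Order.succ a.card).ord) :
    Cf s.toZFSet s.toZFSet := by
  have h0 : Cardinal.aleph0 ≤ a.card := by
    have := Ordinal.card_le_card ha
    rwa [Ordinal.card_omega0] at this
  rw [h]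
  exact cf_of_regUnc (regUnc_ord (Cardinal.isRegular_succ h0) (h0.trans_lt (Order.lt_succ _)))

/-- **The trichotomy for regular cardinals above a strongly compact cardinal.** -/
theorem tri_reg (hδ : StronglyCompact δ) (hδl : δ < l) (hl : RegUnc l.toZFSet) :
    (∃ C, C ⊆ l.toZFSet ∧ Club C l.toZFSet ∧ ∀ κ ν s : Ordinal.{u}, κ.toZFSet ∈ C →
      IsCard κ.toZFSet → Cf ν.toZFSet κ.toZFSet → ν < κ → HSucc κ s →
        s = (Order.succ κ.card).ord ∧ ∀ b : Bool, NotStrMeas b s) ∨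
    (∃ C, C ⊆ l.toZFSet ∧ Club C l.toZFSet ∧ ∀ κ ν s : Ordinal.{u}, κ.toZFSet ∈ C →
      IsCard κ.toZFSet → Cf ν.toZFSet κ.toZFSet → ν < κ → HSucc κ s →
        Cf Ordinal.omega0.toZFSet s.toZFSet) ∨
    (∃ C, C ⊆ l.toZFSet ∧ Club C l.toZFSet ∧ ∀ κ ν s : Ordinal.{u}, κ.toZFSet ∈ C →
      IsCard κ.toZFSet → Cf ν.toZFSet κ.toZFSet → ν < κ → HSucc κ s →
        Cf ν.toZFSet s.toZFSet) := by
  by_contra hcon
  push Not at hcon
  obtain ⟨hc1, hc2, hc3⟩ := hcon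
  obtain ⟨μ, hμ⟩ : ∃ μ : Ordinal.{u}, μ = (Order.succ Cardinal.aleph0).ord := ⟨_, rfl⟩
  have hμR : RegUnc μ.toZFSet := by
    rw [hμ]
    exact regUnc_ord (Cardinal.isRegular_succ le_rfl) (Order.lt_succ _)
  have hωμ : Ordinal.omega0 < μ := hμR.om_lt
  have hμle : ∀ ν : Ordinal.{u}, ν.card.ord = ν → Ordinal.omega0 < ν → μ ≤ ν := by
    intro ν h1 h2
    rw [hμ, ← h1, Cardinal.ord_le_ord]
    refine Order.succ_le_of_lt ?_
    rw [← h1, Cardinal.lt_ord, Ordinal.card_omega0] at h2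
    exact h2
  have hμδ : μ < δ := by rw [hμ]; exact hδ.1
  have hωδ : Ordinal.omega0 < δ := hωμ.trans hμδ
  have hne : ∀ κ ν : Ordinal.{u}, δ < κ → Cf ν.toZFSet κ.toZFSet → ν ≠ Ordinal.omega0 →
      Ordinal.omega0 < ν ∧ μ ≤ ν := by
    intro κ ν hδκ hν h1
    have h2 : Ordinal.omega0 < ν := lt_of_le_of_ne (Cf.om_le (bot_le.trans_lt hδκ) hν) h1.symm
    exact ⟨h2, hμle ν (Cf.card hν) h2⟩
  have hcof : ∀ κ ν s : Ordinal.{u}, δ < κ → IsCard κ.toZFSet → Cf ν.toZFSet κ.toZFSet →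
      HSucc κ s → s ≠ (Order.succ κ.card).ord →
        Cf Ordinal.omega0.toZFSet s.toZFSet ∨ Cf ν.toZFSet s.toZFSet := by
    intro κ ν s hδκ hκ hν hs hsne
    obtain ⟨m, _, hm⟩ := exists_Cf hs.2.1.2.1
    have hωκ : Ordinal.omega0 ≤ κ := (hωδ.trans hδκ).le
    rcases succ_cof hωκ hκ hs hm with h1 | h1 | h1
    · exact absurd h1 hsne
    · rw [h1] at hm
      exact Or.inl hm
    · rw [Cf.unique h1 hν] at hm
      exact Or.inr hm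
  -- no successor has a small cofinality
  have hbig : ∀ a s ν : Ordinal.{u}, Ordinal.omega0 ≤ a → HSucc a s → Cf ν.toZFSet s.toZFSet →
      ν ≤ a → s ≠ (Order.succ a.card).ord := by
    intro a s ν ha hs hν hνa h1
    exact absurd (Cf.unique hν (succ_cf ha h1)) ((hνa.trans_lt hs.1).ne)
  -- the points with `s(a) ≠ a⁺`
  have hN' : Stat (PS δ l Ordinal.omega0 fun a s => s ≠ (Order.succ a.card).ord) l.toZFSet := by
    refine stat_low2 (Q := fun κ ν s => s ≠ (Order.succ κ.card).ord) hl hδl rg_omega0 le_rfl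
      (fun E hE1 hE2 => ?_) (fun κ ν s hδκ hκ hν hνκ hs hq => ?_)
    · obtain ⟨κ, ν, s, h1, h2, h3, h4, h5, h6⟩ := hc1 E hE1 hE2
      refine ⟨κ, ν, s, h1, h2, h3, h4, h5, fun h7 => ?_⟩
      obtain ⟨b, hb⟩ := h6 h7
      have hκω : Ordinal.omega0 ≤ κ := (Cf.om_le (bot_le.trans_lt h4) h3).trans h4.le
      exact hb (notStr_succ hκω h5 h7 b)
    · refine ⟨Cf.om_le (bot_le.trans_lt hδκ) hν, fun _ => hq, fun hων => ?_⟩
      rcases silver hκ hν hων hνκ hs with h4 | h4 | h4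
      · exact absurd h4.1 hq
      · obtain ⟨_, D, hD1, hD2, hD3⟩ := h4
        exact ⟨D, hD1, hD2, fun a s' ha _ haω hs' => hbig a s' _ haω hs' (hD3 a s' ha hs') haω⟩
      · obtain ⟨_, D, hD1, hD2, hD3⟩ := h4
        exact ⟨D, hD1, hD2, fun a s' ha haμ haω hs' =>
          hbig a s' _ haω hs' ((hD3 a s' ha hs' _).1 haμ) haω⟩
  -- the points with `s(a) = a⁺`
  have hNN : (∀ E, E ⊆ l.toZFSet → Club E l.toZFSet → ∃ κ ν s : Ordinal.{u}, κ.toZFSet ∈ E ∧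
      IsCard κ.toZFSet ∧ Cf ν.toZFSet κ.toZFSet ∧ ν < κ ∧ HSucc κ s ∧
        s = (Order.succ κ.card).ord) → False := by
    intro hex
    have hN : Stat (PS δ l Ordinal.omega0 fun a s => s = (Order.succ a.card).ord) l.toZFSet := by
      refine stat_low2 (Q := fun κ ν s => s = (Order.succ κ.card).ord) hl hδl rg_omega0 le_rfl
        hex (fun κ ν s hδκ hκ hν hνκ hs hq => ?_)
      refine ⟨Cf.om_le (bot_le.trans_lt hδκ) hν, fun _ => hq, fun hων => ?_⟩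
      have hκω : Ordinal.omega0 ≤ κ := (hωδ.trans hδκ).le
      rcases silver hκ hν hων hνκ hs with h4 | h4 | h4
      · obtain ⟨_, _, D, hD1, hD2, hD3⟩ := h4
        exact ⟨D, hD1, hD2, fun a s' ha _ _ hs' => (hD3 a s' ha hs').1⟩
      · exact absurd hq (hbig κ s _ hκω hs h4.1 hκω)
      · exact absurd hq (hbig κ s _ hκω hs h4.1 hνκ.le)
    obtain ⟨α, ν, hδα, hα, hν, hων, hνα, h1, h2⟩ := reflC hδ hδl hl Ordinal.omega0_pos hωδ hN' hN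
    obtain ⟨s, hs⟩ := exists_hs α
    rcases silver hα hν hων hνα hs with h4 | h4 | h4
    · obtain ⟨_, _, D, hD1, hD2, hD3⟩ := h4
      obtain ⟨x, s', hx, _, _, hs', h5⟩ := h1 D hD1 hD2
      exact h5 (hD3 x s' hx hs').1
    · obtain ⟨_, D, hD1, hD2, hD3⟩ := h4
      obtain ⟨x, s', hx, hδx, _, hs', h5⟩ := h2 D hD1 hD2
      have hxω : Ordinal.omega0 ≤ x := (hωδ.trans hδx).le
      exact hbig x s' _ hxω hs' (hD3 x s' hx hs') hxω h5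
    · obtain ⟨_, D, hD1, hD2, hD3⟩ := h4
      obtain ⟨x, s', hx, hδx, hxμ, hs', h5⟩ := h2 D hD1 hD2
      have hxω : Ordinal.omega0 ≤ x := (hωδ.trans hδx).le
      exact hbig x s' _ hxω hs' ((hD3 x s' hx hs' _).1 hxμ) hxω h5
  have hA : Stat (PS δ l μ fun _ s => Cf μ.toZFSet s.toZFSet) l.toZFSet := by
    rcases hex_or hl (Q1 := fun κ ν s => s = (Order.succ κ.card).ord)
      (Q2 := fun κ ν s => ¬ Cf Ordinal.omega0.toZFSet s.toZFSet ∧ s ≠ (Order.succ κ.card).ord)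
      (Q := fun κ ν s => ¬ Cf Ordinal.omega0.toZFSet s.toZFSet)
      (fun E hE1 hE2 => by
        obtain ⟨κ, ν, s, h1, h2, h3, h4, h5, h6⟩ := hc2 E hE1 hE2
        exact ⟨κ, ν, s, h1, h2, h3, h4, h5, h6⟩)
      (fun κ ν s h => by
        by_cases h1 : s = (Order.succ κ.card).ord
        · exact Or.inl h1
        · exact Or.inr ⟨h, h1⟩) with h | h
    · exact (hNN h).elim
    refine stat_low2 hl hδl (RegUnc.rg hμR) hωμ.le h (fun κ ν s hδκ hκ hν hνκ hs hq => ?_)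
    have h1 := (hcof κ ν s hδκ hκ hν hs hq.2).resolve_left hq.1
    obtain ⟨h2, h3⟩ := hne κ ν hδκ hν fun h => hq.1 (by rw [h] at h1; exact h1)
    refine ⟨h3, fun h => by rw [← h]; exact h1, fun _ => ?_⟩
    rcases silver hκ hν h2 hνκ hs with h4 | h4 | h4
    · exact absurd h4.1 hq.2
    · exact absurd h4.1 hq.1
    · obtain ⟨_, D, hD1, hD2, hD3⟩ := h4
      exact ⟨D, hD1, hD2, fun a s' ha haμ _ hs' => (hD3 a s' ha hs' μ).1 haμ⟩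
  have hB : Stat (PS δ l μ fun _ s => Cf Ordinal.omega0.toZFSet s.toZFSet) l.toZFSet := by
    rcases hex_or hl (Q1 := fun κ ν s => s = (Order.succ κ.card).ord)
      (Q2 := fun κ ν s => ¬ Cf ν.toZFSet s.toZFSet ∧ s ≠ (Order.succ κ.card).ord)
      (Q := fun κ ν s => ¬ Cf ν.toZFSet s.toZFSet)
      (fun E hE1 hE2 => by
        obtain ⟨κ, ν, s, h1, h2, h3, h4, h5, h6⟩ := hc3 E hE1 hE2
        exact ⟨κ, ν, s, h1, h2, h3, h4, h5, h6⟩)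
      (fun κ ν s h => by
        by_cases h1 : s = (Order.succ κ.card).ord
        · exact Or.inl h1
        · exact Or.inr ⟨h, h1⟩) with h | h
    · exact (hNN h).elim
    refine stat_low2 hl hδl (RegUnc.rg hμR) hωμ.le h (fun κ ν s hδκ hκ hν hνκ hs hq => ?_)
    have h1 := (hcof κ ν s hδκ hκ hν hs hq.2).resolve_right hq.1
    obtain ⟨h2, h3⟩ := hne κ ν hδκ hν fun h => hq.1 (by rw [h]; exact h1)
    refine ⟨h3, fun _ => h1, fun _ => ?_⟩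
    rcases silver hκ hν h2 hνκ hs with h4 | h4 | h4
    · exact absurd h4.1 hq.2
    · obtain ⟨_, D, hD1, hD2, hD3⟩ := h4
      exact ⟨D, hD1, hD2, fun a s' ha _ _ hs' => hD3 a s' ha hs'⟩
    · exact absurd h4.1 hq.1
  obtain ⟨α, ν, hδα, hα, hν, hων, hνα, h1, h2⟩ :=
    reflC hδ hδl hl (bot_le.trans_lt hωμ) hμδ hA hB
  obtain ⟨s, hs⟩ := exists_hs α
  rcases silver hα hν hων hνα hs with h4 | h4 | h4
  · obtain ⟨_, _, D, hD1, hD2, hD3⟩ := h4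
    obtain ⟨x, s', hx, hδx, _, hs', h5⟩ := h2 D hD1 hD2
    have hxω : Ordinal.omega0 ≤ x := (hωδ.trans hδx).le
    exact hbig x s' _ hxω hs' h5 hxω (hD3 x s' hx hs').1
  · obtain ⟨_, D, hD1, hD2, hD3⟩ := h4
    obtain ⟨x, s', hx, _, _, hs', h5⟩ := h1 D hD1 hD2
    exact hωμ.ne (Cf.unique (hD3 x s' hx hs') h5)
  · obtain ⟨_, D, hD1, hD2, hD3⟩ := h4
    obtain ⟨x, s', hx, _, hxμ, hs', h5⟩ := h2 D hD1 hD2
    exact hωμ.ne (Cf.unique h5 ((hD3 x s' hx hs' μ).1 hxμ))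

end Pool.Agent.H93.SV
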