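import Pool.Agent.H93.SC.Cho

/-!
Canonical short weakly cofinal functions in `HOD`.
-/

set_option autoImplicit false
set_option linter.unusedVariables false

namespace Pool.Agent.H93.SV

open ZFSet Gss969 Pool.Agent.H310.HD Pool.Agent.H93.HM Pool.Agent.H93.SC

universe u

/-- `f` is a weakly cofinal function from `g` to `r`. -/
def WCo (g r f : ZFSet.{u}) : Prop :=
  IsFunc g r f ∧ ∀ x ∈ r, ∃ i ∈ g, ∃ y ∈ r, pair i y ∈ f ∧ (x ∈ y ∨ x = y)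

theorem dfn_WCo (a b c : ℕ) : Dfn Gd.{u} (fun v => WCo (v a) (v b) (v c)) := by
  unfold WCo
  refine (dfn_isFunc Gd_Trs _ _ _).and ?_
  repeat' first
    | exact Dfn.mem _ _ | exact Dfn.eq _ _ | exact dfn_pm Gd_Trs _ _ _
    | refine Dfn.and ?_ ?_ | refine Dfn.or ?_ ?_
    | refine Dfn.ball Gd_Trs _ ?_ | refine Dfn.bex Gd_Trs _ ?_

/-- No element of `g` is the length of a weakly cofinal function in `HOD`. -/
def Mn (g r : ZFSet.{u}) : Prop := ∀ g' ∈ g, ¬ ∃ f, IsFunc g' r f ∧ (HOD f ∧ WCo g' r f)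

theorem dfn_Mn (a b : ℕ) : Dfn Gd.{u} (fun v => Mn (v a) (v b)) := by
  unfold Mn
  exact Dfn.ball Gd_Trs _ (Dfn_exfunG _ _ ((dfn_HOD _).and (dfn_WCo _ _ _))).not

/-- `Y` is a weakly cofinal function in `HOD` of the least possible length to `R`. -/
def PsiL (Y R L : ZFSet.{u}) : Prop :=
  HOD Y ∧ ((∃ g ∈ R, WCo g R Y ∧ Mn g R) ∨ (WCo R R Y ∧ Mn R R))

theorem dfn_PsiL : Dfn Gd.{u} (fun v => PsiL (v 0) (v 1) (v 2)) := by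
  unfold PsiL
  refine (dfn_HOD _).and (Dfn.or (Dfn.bex Gd_Trs _ ?_) ?_)
  · exact (dfn_WCo _ _ _).and (dfn_Mn _ _)
  · exact (dfn_WCo _ _ _).and (dfn_Mn _ _)

/-- The sets with the property which have a definition of the least possible rank. -/
def MCI (W U e L R Y : ZFSet.{u}) : Prop :=
  ∃ n ∈ W, (Y ⊆ L ∧ (PsiL Y R L ∧ DPN W U (pair R e) n Y)) ∧
    ∀ m ∈ n, ∀ Z, Z ⊆ L → PsiL Z R L → ¬ DPN W U (pair R e) m Z

def MC (U e L R Y : ZFSet.{u}) : Prop := MCI om U e L R Y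

theorem dfn_MC (a b c d e : ℕ) : Dfn Gd.{u} (fun v => MC (v a) (v b) (v c) (v d) (v e)) := by
  have h1 : ∀ i j k : ℕ, Dfn Gd.{u} (fun v => PsiL (v i) (v j) (v k)) := fun i j k =>
    Dfn_reindex dfn_PsiL (fun n => if n = 0 then i else if n = 1 then j else k)
  refine Dfn_omG (A := fun W v => MCI W (v a) (v b) (v c) (v d) (v e)) ?_
  unfold MCI
  repeat' first
    | exact Dfn.mem _ _ | exact Dfn.eq _ _ | exact dfn_sub Gd_Trs _ _ | exact h1 _ _ _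
    | exact (dfn_DPQ _ _ _ _ _ _).mono Gd_Lvl
    | refine Dfn.allsub Gd_Lvl _ ?_ | refine Dfn.bex Gd_Trs _ ?_ | refine Dfn.ball Gd_Trs _ ?_
    | refine Dfn.and ?_ ?_ | refine Dfn.or ?_ ?_ | refine Dfn.not ?_ | refine Dfn.imp ?_ ?_

theorem mc_iff {U e L R Y : ZFSet.{u}} : MC U e L R Y ↔ ∃ n : ℕ,
    (Y ⊆ L ∧ (PsiL Y R L ∧ DfN U (pair R e) n Y)) ∧
    ∀ m < n, ∀ Z, Z ⊆ L → PsiL Z R L → ¬ DfN U (pair R e) m Z := by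
  unfold MC MCI
  constructor
  · rintro ⟨n, hn, ⟨h1, h2, h3⟩, h4⟩
    obtain ⟨n, rfl⟩ := mem_om.1 hn
    refine ⟨n, ⟨h1, h2, dfN_iff.2 h3⟩, fun m hm Z hZ hZ' hd => ?_⟩
    exact h4 (nt m) (nt_sub.2 hm) Z hZ hZ' (dfN_iff.1 hd)
  · rintro ⟨n, ⟨h1, h2, h3⟩, h4⟩
    refine ⟨nt n, nt_mem n, ⟨h1, h2, dfN_iff.1 h3⟩, fun m hm Z hZ hZ' hd => ?_⟩
    obtain ⟨m, hm', rfl⟩ := mem_nt.1 hm
    exact h4 m hm' Z hZ hZ' (dfN_iff.2 hd)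

theorem mc_fin (U e L R : ZFSet.{u}) : {Y | MC U e L R Y}.Finite := by
  classical
  rcases ({Y | MC U e L R Y}).eq_empty_or_nonempty with h | ⟨Y₀, h⟩
  · rw [h]; exact Set.finite_empty
  · obtain ⟨n, ⟨a1, a2, a3⟩, a4⟩ := mc_iff.1 h
    refine (fin_DfN U (pair R e) n).subset fun Y hY => ?_
    obtain ⟨m, ⟨b1, b2, b3⟩, b4⟩ := mc_iff.1 hY
    rcases lt_trichotomy n m with hn | hn | hn
    · exact absurd a3 (b4 n hn Y₀ a1 a2)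
    · subst hn
      exact b3
    · exact absurd b3 (a4 m hn Y b1 b2)

theorem exists_mc {U : ZFSet.{u}} (hU : U ∈ Gd) {R L : ZFSet.{u}} {ρ : Ordinal.{u}} (hR : R ∈ U)
    (hL : L ∈ U) (hρ : ρ.toZFSet ∈ U)
    (hb : ∀ z, z ⊆ L → HOD z → ∃ (φ : Fml) (q : ℕ → Ordinal.{u}),
      Def φ z (fun i => (q i).toZFSet) ∧ ∀ i, q i < ρ)
    (h : ∃ z, z ⊆ L ∧ PsiL z R L) : ∃ Y, MC U (pair L ρ.toZFSet) L R Y := by
  classical
  obtain ⟨z, hz1, hz2⟩ := h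
  obtain ⟨x, hx1, hx2, hx3⟩ := exists_sel dfn_PsiL hU hR hL hρ hb ⟨z, hz1, hz2.1, hz2⟩
  obtain ⟨n, hn⟩ := hx3.exists_rk
  have hex : ∃ n : ℕ, ∃ Z, Z ⊆ L ∧ PsiL Z R L ∧
      DfN U (pair R (pair L ρ.toZFSet)) n Z := ⟨n, x, hx1, hx2, hn⟩
  obtain ⟨Z, hZ1, hZ2, hZ3⟩ := Nat.find_spec hex
  exact ⟨Z, mc_iff.2 ⟨Nat.find hex, ⟨hZ1, hZ2, hZ3⟩, fun m hm Z hZ hZ' hd =>
    Nat.find_min hex hm ⟨Z, hZ, hZ', hd⟩⟩⟩

end Pool.Agent.H93.SV
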