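import Pool.Agent.H93.SV.Lub

/-!
Suprema along cofinal sequences.
-/

set_option autoImplicit false
set_option linter.unusedVariables false

namespace Pool.Agent.H93.SV

open ZFSet Gss969 Pool.Agent.H310.HD Pool.Agent.H93.HM Pool.Agent.H93.SC

universe u

variable {κ η μ ν l : Ordinal.{u}} {h : Ordinal.{u} → Ordinal.{u} → Ordinal.{u}}
  {a b : Ordinal.{u} → Ordinal.{u}}

/-- An increasing cofinal sequence. -/
theorem exists_incr (hcf : Cf μ.toZFSet l.toZFSet) : ∃ e : Ordinal.{u} → Ordinal.{u},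
    (∀ i < μ, e i < l) ∧ (∀ x < l, ∃ i < μ, x < e i) ∧ ∀ i j, i < j → j < μ → e i < e j := by
  obtain ⟨e, he1, he2⟩ := Cf.seq hcf
  let E : Ordinal.{u} → Ordinal.{u} := WellFounded.fix (C := fun _ => Ordinal.{u})
    (wellFounded_lt (α := Ordinal.{u})) fun i ih =>
      max (e i) (⨆ j : Set.Iio i, Order.succ (ih j.1 j.2))
  have hE : ∀ i, E i = max (e i) (⨆ j : Set.Iio i, Order.succ (E j.1)) := by
    intro i
    exact WellFounded.fix_eq _ _ i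
  have hmono : ∀ i j, i < j → E i < E j := by
    intro i j hij
    rw [hE j]
    refine lt_max_of_lt_right ?_
    rw [Ordinal.lt_iSup_iff]
    exact ⟨⟨i, hij⟩, Order.lt_succ _⟩
  refine ⟨E, fun i => ?_, fun x hx => ?_, fun i j hij _ => hmono i j hij⟩
  · induction i using WellFoundedLT.induction with
    | ind i ih =>
      intro hi
      obtain ⟨c, hc, hc'⟩ := hcf.uc i hi E fun j hj => ih j hj (hj.trans hi)
      rw [hE i]
      refine max_lt (he1 i hi) (lt_of_le_of_lt ?_ hc)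
      refine Ordinal.iSup_le fun j => ?_
      exact Order.succ_le_of_lt (hc' j.1 j.2)
  · obtain ⟨i, hi, h1⟩ := he2 x hx
    refine ⟨i, hi, h1.trans_le ?_⟩
    rw [hE i]
    exact le_max_left _ _

/-- Sequences along which the supremum is taken. -/
structure Sq (κ η ν : Ordinal.{u}) (a b : Ordinal.{u} → Ordinal.{u}) : Prop where
  a1 : ∀ i < ν, a i < η
  a2 : ∀ x < η, ∃ i < ν, x < a i
  b1 : ∀ i < ν, b i < κ
  p : ∀ S : Set Ordinal.{u}, StatL S κ → ∀ f : Ordinal.{u} → Ordinal.{u},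
    (∀ δ ∈ S, δ < κ → f δ < ν ∧ b (f δ) < δ) → ∃ j < ν, StatL {δ | δ ∈ S ∧ f δ = j} κ

theorem sq_om (hcf : Cf μ.toZFSet κ.toZFSet) (hω : Ordinal.omega0 < μ) (hκ : 0 < κ)
    (ha1 : ∀ i < Ordinal.omega0, a i < η) (ha2 : ∀ x < η, ∃ i < Ordinal.omega0, x < a i) :
    Sq κ η Ordinal.omega0 a (fun _ => 0) := by
  refine ⟨ha1, ha2, fun _ _ => hκ, fun S hS f hf => ?_⟩
  exact stat_union hcf.lim hcf.uc hω hω hS (P := fun j δ => f δ = j)
    fun δ hδ hδκ => ⟨f δ, (hf δ hδ hδκ).1, rfl⟩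

theorem sq_mu (hcf : Cf μ.toZFSet κ.toZFSet) (hω : Ordinal.omega0 < μ)
    (ha1 : ∀ i < μ, a i < η) (ha2 : ∀ x < η, ∃ i < μ, x < a i)
    (hb1 : ∀ i < μ, b i < κ) (hb2 : ∀ x < κ, ∃ i < μ, x < b i)
    (hb3 : ∀ i j, i < j → j < μ → b i < b j) : Sq κ η μ a b := by
  refine ⟨ha1, ha2, hb1, fun S hS f hf => ?_⟩
  obtain ⟨ξ, hξ, h1⟩ := fodor_bdd hcf hω hS (f := fun δ => b (f δ)) fun δ hδ hδκ =>
    (hf δ hδ hδκ).2
  obtain ⟨m, hm, h2⟩ := hb2 ξ hξ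
  obtain ⟨j, hj, h3⟩ := stat_union hcf.lim hcf.uc hω hm h1 (P := fun j δ => f δ = j)
    fun δ hδ hδκ => ⟨f δ, by
      have h4 : b (f δ) < b m := hδ.2.trans h2
      by_contra h5
      push Not at h5
      rcases h5.lt_or_eq with h6 | h6
      · exact absurd (hb3 m (f δ) h6 (hf δ hδ.1 hδκ).1) (not_lt.2 h4.le)
      · rw [← h6] at h4
        exact absurd h4 (lt_irrefl _), rfl⟩
  exact ⟨j, hj.trans hm, h3.mono fun δ _ h4 => ⟨h4.1.1, h4.2⟩⟩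

open Classical in
/-- The supremum. -/
noncomputable def hs (h : Ordinal.{u} → Ordinal.{u} → Ordinal.{u}) (a b : Ordinal.{u} → Ordinal.{u})
    (ν δ : Ordinal.{u}) : Ordinal.{u} :=
  ⨆ i : Set.Iio ν, if b i.1 < δ then Order.succ (h δ (a i.1)) else 0

theorem lt_hs {x δ : Ordinal.{u}} : x < hs h a b ν δ ↔ ∃ i < ν, b i < δ ∧ x ≤ h δ (a i) := by
  classical
  rw [hs, Ordinal.lt_iSup_iff]
  constructor
  · rintro ⟨⟨i, hi⟩, h1⟩
    by_cases h2 : b i < δ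
    · rw [if_pos h2, Order.lt_succ_iff] at h1
      exact ⟨i, hi, h2, h1⟩
    · rw [if_neg h2] at h1
      exact absurd h1 not_lt_bot
  · rintro ⟨i, hi, h1, h2⟩
    refine ⟨⟨i, hi⟩, ?_⟩
    rw [if_pos h1]
    exact Order.lt_succ_iff.2 h2

/-- Bounded sets are not stationary. -/
theorem not_stat_bdd (hlim : ∀ x < κ, Order.succ x < κ) {S : Set Ordinal.{u}} {t : Ordinal.{u}}
    (ht : t < κ) (hS : ∀ δ < κ, t < δ → δ ∉ S) : ¬ StatL S κ := by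
  intro h1
  obtain ⟨δ, hδ, h2, h3⟩ := h1 _ (fun x hx => (mem_sep.1 hx).1) (club_tail hlim ht)
  exact hS δ hδ (tz_mem.1 (mem_sep.1 h3).2) h2

/-- Removing a bounded set. -/
theorem stat_tail (hlim : ∀ x < κ, Order.succ x < κ) (hcf : Cf μ.toZFSet κ.toZFSet)
    (hω : Ordinal.omega0 < μ) {S : Set Ordinal.{u}} {t : Ordinal.{u}}
    (ht : t < κ) (hS : StatL S κ) : StatL {δ | δ ∈ S ∧ t < δ} κ :=
  (stat_club hlim hcf.uc hω hS (fun x hx => (mem_sep.1 hx).1) (club_tail hlim ht)).mono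
    fun δ _ h => ⟨h.1, tz_mem.1 (mem_sep.1 h.2).2⟩

/-- **The supremum is a least upper bound.** -/
theorem kv_hs (hcf : Cf μ.toZFSet κ.toZFSet) (hω : Ordinal.omega0 < μ)
    (htail : ∀ α < η, ∀ β < α, ∃ t < κ, ∀ δ, t < δ → h δ β < h δ α) (hq : Sq κ η ν a b) :
    KV κ η h (hs h a b ν) := by
  refine ⟨fun α hα => ?_, fun g hg h1 => ?_⟩
  · obtain ⟨i, hi, h1⟩ := hq.a2 α hα
    obtain ⟨t, ht, h2⟩ := htail _ (hq.a1 i hi) α h1
    refine not_stat_bdd hcf.lim (max_lt ht (hq.b1 i hi)) fun δ hδ h3 h4 => h4 ?_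
    exact lt_hs.2 ⟨i, hi, (le_max_right _ _).trans_lt h3,
      (h2 δ ((le_max_left _ _).trans_lt h3)).le⟩
  · have h2 : ∀ δ, g δ < hs h a b ν δ → ∃ i < ν, b i < δ ∧ g δ ≤ h δ (a i) := fun δ h3 =>
      lt_hs.1 h3
    choose! f hf1 hf2 hf3 using h2
    obtain ⟨j, hj, h3⟩ := hq.p _ h1 f fun δ hδ _ => ⟨hf1 δ hδ, hf2 δ hδ⟩
    refine ⟨a j, hq.a1 j hj, h3.mono fun δ _ h4 => ⟨h4.1, ?_⟩⟩
    rw [← h4.2]
    exact hf3 δ h4.1

end Pool.Agent.H93.SV
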