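import Pool.Agent.H93.SV.Unif
import Pool.Agent.H93.SC.Card

/-!
Comparison with the ladders.
-/

set_option autoImplicit false
set_option linter.unusedVariables false

namespace Pool.Agent.H93.SV

open ZFSet Gss969 Pool.Agent.H310.HD Pool.Agent.H93.HM Pool.Agent.H93.SC

universe u

variable {κ η μ : Ordinal.{u}} {A H : ZFSet.{u}} {F : Ordinal.{u} → Ordinal.{u} → Ordinal.{u}}
  {γ : Ordinal.{u} → Ordinal.{u}} {h : Ordinal.{u} → Ordinal.{u} → Ordinal.{u}}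

def Th (e A H x d r j : ZFSet.{u}) : Prop := ∃ y ∈ e, pair x (pair d y) ∈ H ∧
  ∃ i ∈ j, ∃ z ∈ e, pair r (pair i z) ∈ A ∧ (y ∈ z ∨ y = z)

theorem dfn_Th (a b c x d r j : ℕ) :
    Dfn Gd.{u} (fun v => Th (v a) (v b) (v c) (v x) (v d) (v r) (v j)) := by
  unfold Th
  refine Dfn.bex Gd_Trs _ ((dfn_pm3 _ _ _ _).and (Dfn.bex Gd_Trs _ (Dfn.bex Gd_Trs _ ?_)))
  exact (dfn_pm3 _ _ _ _).and ((Dfn.mem _ _).or (Dfn.eq _ _))

def Dm (e A d r : ZFSet.{u}) : Prop := ∀ i ∈ e, ∀ z ∈ e, pair r (pair i z) ∈ A → i ∈ d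

theorem dfn_Dm (a b c d : ℕ) : Dfn Gd.{u} (fun v => Dm (v a) (v b) (v c) (v d)) := by
  unfold Dm
  exact Dfn.ball Gd_Trs _ (Dfn.ball Gd_Trs _ (Dfn.imp (dfn_pm3 _ _ _ _) (Dfn.mem _ _)))

theorem th_iff (hL : Lad η A F γ)
    (hH : ∀ α δ y : Ordinal.{u}, pair α.toZFSet (pair δ.toZFSet y.toZFSet) ∈ H ↔
      α < η ∧ δ < κ ∧ y = h δ α) (hh : ∀ δ < κ, ∀ α < η, h δ α < η) {δ α ρ j : Ordinal.{u}}
    (hδ : δ < κ) (hα : α < η) (hρ : ρ < η) :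
    Th η.toZFSet A H α.toZFSet δ.toZFSet ρ.toZFSet j.toZFSet ↔
      ∃ i < j, i < γ ρ ∧ h δ α ≤ F ρ i := by
  constructor
  · rintro ⟨y, hy, h1, i, hi, z, hz, h2, h3⟩
    obtain ⟨y, _, rfl⟩ := Ordinal.mem_toZFSet_iff.1 hy
    obtain ⟨i, hi', rfl⟩ := Ordinal.mem_toZFSet_iff.1 hi
    obtain ⟨z, _, rfl⟩ := Ordinal.mem_toZFSet_iff.1 hz
    obtain ⟨_, _, rfl⟩ := (hH _ _ _).1 h1
    obtain ⟨_, h4, rfl⟩ := (hL.mem _ _ _).1 h2
    refine ⟨i, hi', h4, ?_⟩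
    rcases h3 with h3 | h3
    · exact (tz_mem.1 h3).le
    · exact (Ordinal.toZFSet_injective h3).le
  · rintro ⟨i, hi, h1, h2⟩
    refine ⟨_, tz_mem.2 (hh δ hδ α hα), (hH _ _ _).2 ⟨hα, hδ, rfl⟩, _, tz_mem.2 hi, _,
      tz_mem.2 ((hL.lt ρ hρ i h1).trans hρ), (hL.mem _ _ _).2 ⟨hρ, h1, rfl⟩, ?_⟩
    rcases h2.lt_or_eq with h3 | h3
    · exact Or.inl (tz_mem.2 h3)
    · exact Or.inr (by rw [h3])

theorem dm_iff (hL : Lad η A F γ) {δ ρ : Ordinal.{u}} (hρ : ρ < η) :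
    Dm η.toZFSet A δ.toZFSet ρ.toZFSet ↔ γ ρ ≤ δ := by
  constructor
  · intro h1
    by_contra h2
    push Not at h2
    have h3 := h1 δ.toZFSet (tz_mem.2 (h2.trans_le ((hL.le ρ hρ).trans hρ.le))) (F ρ δ).toZFSet
      (tz_mem.2 ((hL.lt ρ hρ δ h2).trans hρ)) ((hL.mem _ _ _).2 ⟨hρ, h2, rfl⟩)
    exact absurd (tz_mem.1 h3) (lt_irrefl _)
  · intro h1 i hi z hz h2
    obtain ⟨i, _, rfl⟩ := Ordinal.mem_toZFSet_iff.1 hi
    obtain ⟨z, _, rfl⟩ := Ordinal.mem_toZFSet_iff.1 hz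
    exact tz_mem.2 (((hL.mem _ _ _).1 h2).2.1.trans_le h1)

/-- Singular cardinals are limit cardinals. -/
theorem lim_ord (hκ : IsCard κ.toZFSet) (hcf : Cf μ.toZFSet κ.toZFSet) (hμκ : μ < κ)
    {c : Cardinal.{u}} (hc0 : Cardinal.aleph0 ≤ c) (hc : c < κ.card) :
    (Order.succ c).ord < κ := by
  have hκo : κ.card.ord = κ := by
    refine le_antisymm (Cardinal.ord_card_le κ) ?_
    by_contra hcon
    push Not at hcon
    have := hκ.card_lt hcon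
    rw [Cardinal.card_ord] at this
    exact absurd this (lt_irrefl _)
  have hreg : RegUnc (Order.succ c).ord.toZFSet :=
    regUnc_ord (Cardinal.isRegular_succ hc0) (hc0.trans_lt (Order.lt_succ _))
  rcases (Order.succ_le_of_lt hc).lt_or_eq with h1 | h1
  · have h2 := Cardinal.ord_lt_ord.2 h1
    rwa [hκo] at h2
  · exfalso
    rw [h1, hκo] at hreg
    exact absurd (Cf.unique hcf (cf_of_regUnc hreg)) hμκ.ne

end Pool.Agent.H93.SV
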