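import Pool.Agent.H93.SV.CV
import Pool.Agent.H93.SV.Th

/-!
Stabilization of projections.
-/

set_option autoImplicit false
set_option linter.unusedVariables false

namespace Pool.Agent.H93.SV

open ZFSet Gss969 Pool.Agent.H310.HD Pool.Agent.H93.HM Pool.Agent.H93.SC

universe u

variable {κ η μ ζ Λ : Ordinal.{u}} {h p c : Ordinal.{u} → Ordinal.{u} → Ordinal.{u}}

theorem stabV (hcf : Cf μ.toZFSet κ.toZFSet) (hω : Ordinal.omega0 < μ) (hκη : κ < η)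
    (hη : RegUnc η.toZFSet) (hκc : IsCard κ.toZFSet) (hμκ : μ < κ)
    (htail : ∀ α < η, ∀ β < α, ∃ t < κ, ∀ δ, t < δ → h δ β < h δ α)
    (hclub : ∀ Λ : Ordinal.{u}, RegUnc Λ.toZFSet → μ < Λ → ∀ x < η, Cf Λ.toZFSet x.toZFSet →
      ∃ C : Set Ordinal.{u}, (∀ v ∈ C, v < x) ∧ (∀ y < x, ∃ v ∈ C, y < v) ∧
        (∀ v < x, (∃ w ∈ C, w < v) → (∀ y < v, ∃ w ∈ C, w < v ∧ y < w) → v ∈ C) ∧
        ∃ t < κ, ∀ v ∈ C, ∀ δ, t < δ → h δ v < h δ x)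
    (hζ : ζ < κ) {S : Set Ordinal.{u}}
    (hpm : ∀ α < η, ∀ β < η, ∀ δ ∈ S, h δ α ≤ h δ β → p α δ ≤ p β δ)
    {B : Ordinal.{u} → Set Ordinal.{u}} (hpB : ∀ α < η, ∀ δ ∈ S, p α δ ∈ B δ)
    {top : Ordinal.{u} → Ordinal.{u}} (htop : ∀ δ ∈ S, top δ ∈ B δ ∧ ∀ y ∈ B δ, y ≤ top δ)
    (hc1 : ∀ δ ∈ S, ∀ y ∈ B δ, c δ y ≤ ζ)
    (hc2 : ∀ δ ∈ S, ∀ y ∈ B δ, ∀ y' ∈ B δ, c δ y = c δ y' → y = y') :
    ∃ ξ < η, ∀ α < η, ξ ≤ α → ¬ StatL {δ | δ ∈ S ∧ p ξ δ ≠ p α δ} κ := by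
  classical
  by_contra hcon
  push Not at hcon
  have hlim := hcf.lim
  have huc := hcf.uc
  obtain ⟨D, hD⟩ := club_small hcf
  have hμ0 : Cardinal.aleph0 ≤ μ.card := by
    have := Ordinal.card_le_card hω.le
    rwa [Ordinal.card_omega0] at this
  obtain ⟨σ, hσ⟩ : ∃ σ, σ = max μ.card (Order.succ ζ).card := ⟨_, rfl⟩
  have hσ0 : Cardinal.aleph0 ≤ σ := by rw [hσ]; exact hμ0.trans (le_max_left _ _)
  have hσκ : σ < κ.card := by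
    rw [hσ]
    exact max_lt (hκc.card_lt hμκ) (hκc.card_lt (hlim ζ hζ))
  have hnext : ∀ c : Cardinal.{u}, Cardinal.aleph0 ≤ c → c < κ.card →
      Cardinal.aleph0 ≤ Order.succ c ∧ Order.succ c < κ.card := by
    intro c hc1 hc2
    have h1 := hκc.card_lt (lim_ord hκc hcf hμκ hc1 hc2)
    rw [Cardinal.card_ord] at h1
    exact ⟨hc1.trans (Order.le_succ _), h1⟩
  have hro : ∀ c : Cardinal.{u}, Cardinal.aleph0 ≤ c → RegUnc (Order.succ c).ord.toZFSet :=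
    fun c hc => regUnc_ord (Cardinal.isRegular_succ hc) (hc.trans_lt (Order.lt_succ _))
  obtain ⟨σ1, hσ1⟩ : ∃ σ1, σ1 = Order.succ σ := ⟨_, rfl⟩
  obtain ⟨σ2, hσ2⟩ : ∃ σ2, σ2 = Order.succ σ1 := ⟨_, rfl⟩
  obtain ⟨h10, h11⟩ := hnext σ hσ0 hσκ
  rw [← hσ1] at h10 h11
  obtain ⟨h20, h21⟩ := hnext σ1 h10 h11
  rw [← hσ2] at h20 h21
  obtain ⟨ρ, hρ⟩ : ∃ ρ, ρ = (Order.succ σ).ord := ⟨_, rfl⟩
  obtain ⟨K, hK⟩ : ∃ K, K = (Order.succ σ1).ord := ⟨_, rfl⟩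
  obtain ⟨Λ, hΛ⟩ : ∃ Λ, Λ = (Order.succ σ2).ord := ⟨_, rfl⟩
  have hρr : RegUnc ρ.toZFSet := by rw [hρ]; exact hro σ hσ0
  have hKr : RegUnc K.toZFSet := by rw [hK]; exact hro σ1 h10
  have hΛr : RegUnc Λ.toZFSet := by rw [hΛ]; exact hro σ2 h20
  have hΛκ : Λ < κ := by rw [hΛ]; exact lim_ord hκc hcf hμκ h20 h21
  have hρK : ρ < K := by
    rw [hρ, hK, ← hσ1]
    exact Cardinal.ord_lt_ord.2 (Order.lt_succ _)
  have hKΛ : K < Λ := by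
    rw [hK, hΛ, ← hσ2]
    exact Cardinal.ord_lt_ord.2 (Order.lt_succ _)
  have hμρ : μ < ρ := by
    rw [hρ, Cardinal.lt_ord]
    exact (le_max_left μ.card (Order.succ ζ).card).trans_lt (by rw [← hσ]; exact Order.lt_succ _)
  have hΛlim : ∀ i < Λ, Order.succ i < Λ := fun i hi => hΛr.succ_lt hi
  have hρlim : ∀ i < ρ, Order.succ i < ρ := fun i hi => hρr.succ_lt hi
  have hΛη : Λ < η := hΛκ.trans hκη
  -- club guessing
  have hseq : ∀ α : Ordinal.{u}, Cf ρ.toZFSet α.toZFSet → ∃ e : Ordinal.{u} → Ordinal.{u},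
      (∀ i < ρ, e i < α) ∧ ∀ x < α, ∃ i < ρ, x < e i := fun α hα => Cf.seq hα
  choose! e he1 he2 using hseq
  obtain ⟨E0, hE0s, hE0c, hguess⟩ := cg_V (e := e) hΛr (RegUnc.rg hKr) hKΛ hρK
    (cf_of_regUnc hρr) (fun α _ hα => he1 α hα) (fun α _ hα x hx => by
      obtain ⟨i, hi, h1⟩ := he2 α hα x hx
      exact ⟨i, hi, h1.le⟩)
  -- the sequence
  obtain ⟨Q, hQ⟩ : ∃ Q : (Ordinal.{u} → Ordinal.{u}) → Ordinal.{u} → Ordinal.{u} →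
      Ordinal.{u} → Prop, ∀ g α k a, Q g α k a ↔ ¬ StatL {δ | δ ∈ S ∧ ∃ v ≤ k, v < α ∧
        Dv E0 ρ e α v ∧ p a δ < p (g v) δ} κ := ⟨_, fun _ _ _ _ => Iff.rfl⟩
  have hnx : ∀ (j : Ordinal.{u}) (g : Ordinal.{u} → Ordinal.{u}), (∀ i ≤ j, g i < η) →
      ∃ b < η, g j < b ∧ (∃ n, g j ≤ n ∧ n ≤ b ∧ StatL {δ | δ ∈ S ∧ p (g j) δ ≠ p n δ} κ) ∧
        ∀ α < Λ, (∃ a < η, Q g α j a) → ∃ a < η, a ≤ b ∧ Q g α j a := by
    intro j g hg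
    obtain ⟨n, hn, h1, h2⟩ := hcon (g j) (hg j le_rfl)
    have h3 : ∀ α < Λ, ∃ a < η, (∃ a < η, Q g α j a) → Q g α j a := by
      intro α hα
      by_cases h4 : ∃ a < η, Q g α j a
      · obtain ⟨a, ha, h5⟩ := h4
        exact ⟨a, ha, fun _ => h5⟩
      · exact ⟨0, hη.pos, fun h5 => absurd h5 h4⟩
    choose! a ha1 ha2 using h3
    obtain ⟨b, hb, hb'⟩ := RegUnc.uc hη Λ hΛη a ha1
    refine ⟨max (max (Order.succ (g j)) n) b, max_lt (max_lt (hη.succ_lt (hg j le_rfl)) hn) hb,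
      (Order.lt_succ _).trans_le ((le_max_left _ _).trans (le_max_left _ _)), ⟨n, h1,
        (le_max_right _ _).trans (le_max_left _ _), h2⟩, fun α hα h4 => ⟨a α, ha1 α hα,
          (hb' α hα).le.trans (le_max_right _ _), ha2 α hα h4⟩⟩
  choose! nx hnx1 hnx2 hnx3 hnx4 using hnx
  obtain ⟨ξ, hξη, hξm, hξc, hξn⟩ := exists_xiV (Λ := Λ) hη hΛη nx
    fun j g hg => ⟨hnx1 j g hg, hnx2 j g hg⟩
  have hcut : ∀ j, ∀ i ≤ j, cut j ξ i = ξ i := by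
    intro j i hi
    unfold cut
    rw [if_pos hi]
  have hQc : ∀ j α a, Q (cut j ξ) α j a ↔ Q ξ α j a := by
    intro j α a
    rw [hQ, hQ]
    have h1 : {δ | δ ∈ S ∧ ∃ v ≤ j, v < α ∧ Dv E0 ρ e α v ∧ p a δ < p (cut j ξ v) δ} =
        {δ | δ ∈ S ∧ ∃ v ≤ j, v < α ∧ Dv E0 ρ e α v ∧ p a δ < p (ξ v) δ} := by
      ext δ
      refine and_congr_right fun _ => exists_congr fun v => and_congr_right fun hv => ?_
      rw [hcut j v hv]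
    rw [h1]
  have hξ4 : ∀ j < Λ, (∃ n, ξ j ≤ n ∧ n ≤ ξ (Order.succ j) ∧
      StatL {δ | δ ∈ S ∧ p (ξ j) δ ≠ p n δ} κ) ∧
        ∀ α < Λ, (∃ a < η, Q ξ α j a) → ∃ a < η, a ≤ ξ (Order.succ j) ∧ Q ξ α j a := by
    intro j hj
    have h1 : ∀ i ≤ j, cut j ξ i < η := fun i hi => by
      rw [hcut j i hi]
      exact hξη i (hi.trans_lt hj)
    obtain ⟨n, h2, h3, h4⟩ := hnx3 j _ h1
    rw [hcut j j le_rfl] at h2 h4
    refine ⟨⟨n, h2, h3.trans (hξn j hj), h4⟩, fun α hα h5 => ?_⟩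
    obtain ⟨a, ha, h6⟩ := h5
    obtain ⟨a', ha', h7, h8⟩ := hnx4 j _ h1 α hα ⟨a, ha, (hQc j α a).2 h6⟩
    exact ⟨a', ha', h7.trans (hξn j hj), (hQc j α a').1 h8⟩
  obtain ⟨x, hx, hx1, hx2, hxc⟩ := exists_limV hη hΛr hΛη hξη hξm
  obtain ⟨C, hC1, hC2, hC3, t0, ht0, hC4⟩ := hclub Λ hΛr (hμρ.trans (hρK.trans hKΛ)) x hx hxc
  obtain ⟨E, hEs, hEc, hEm⟩ := club_idx hΛr hξm hξc hx1 hx2 hC1 hC2 hC3
  obtain ⟨α, hα, hαc, hub, hCE⟩ := hguess E hEs hEc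
  -- the guessed points
  obtain ⟨T, hT⟩ : ∃ T : Set Ordinal.{u}, T = {v | (v < α ∧ Dv E0 ρ e α v) ∨ α ≤ v} := ⟨_, rfl⟩
  have hTb : ¬ BddAbove T := by
    rintro ⟨b, hb⟩
    have h1 : Order.succ (max b α) ∈ T := by
      rw [hT]
      exact Or.inr ((le_max_right _ _).trans (Order.le_succ _))
    exact absurd ((Order.lt_succ (max b α)).trans_le (hb h1)) (not_lt.2 (le_max_left _ _))
  have hmono := Ordinal.enumOrd_strictMono hTb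
  obtain ⟨X, hX⟩ : ∃ X : Ordinal.{u} → Ordinal.{u}, X = Ordinal.enumOrd T := ⟨_, rfl⟩
  rw [← hX] at hmono
  have hXα : ∀ i < ρ, X i < α := by
    intro i
    induction i using WellFoundedLT.induction with
    | ind i ih =>
      intro hi
      obtain ⟨b, hb, hb'⟩ := hαc.uc i hi X fun j hj => ih j hj (hj.trans hi)
      obtain ⟨v, hv, h1, h2⟩ := hub b hb
      have h3 : v ∈ T := by
        rw [hT]
        exact Or.inl ⟨hv, h1⟩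
      rw [hX] at hb' ⊢
      exact (Ordinal.enumOrd_le_of_forall_lt h3 fun j hj => (hb' j hj).trans h2).trans_lt hv
  have hXD : ∀ i < ρ, Dv E0 ρ e α (X i) := by
    intro i hi
    have h1 := Ordinal.enumOrd_mem hTb i
    rw [← hX] at h1
    rw [hT] at h1
    rcases h1 with h1 | h1
    · exact h1.2
    · exact absurd h1 (not_le.2 (hXα i hi))
  have hXΛ : ∀ i < ρ, X i < Λ := fun i hi => (hXα i hi).trans hα
  have hXE : ∀ i < ρ, (∀ j < X i, Order.succ j < X i) := fun i hi =>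
    (hEm _ (hCE _ (hXα i hi) (hXD i hi))).1
  have hX2 : ∀ i < ρ, Order.succ (Order.succ (X i)) < X (Order.succ i) := by
    intro i hi
    have h1 := hXE _ (hρlim i hi)
    exact h1 _ (h1 _ (hmono (Order.lt_succ i)))
  -- the suprema
  obtain ⟨q, hq⟩ : ∃ q : Ordinal.{u} → Ordinal.{u} → Ordinal.{u}, q = fun i δ =>
      sInf {b | b ∈ B δ ∧ ∀ g ≤ X i, g < α → Dv E0 ρ e α g → p (ξ g) δ ≤ b} := ⟨_, rfl⟩
  have hq1 : ∀ i, ∀ δ ∈ S, q i δ ∈ B δ ∧ ∀ g ≤ X i, g < α → Dv E0 ρ e α g →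
      p (ξ g) δ ≤ q i δ := by
    intro i δ hδ
    have h1 := csInf_mem (s := {b | b ∈ B δ ∧ ∀ g ≤ X i, g < α → Dv E0 ρ e α g →
      p (ξ g) δ ≤ b}) ⟨top δ, (htop δ hδ).1, fun g _ hg _ =>
        (htop δ hδ).2 _ (hpB _ (hξη g (hg.trans hα)) δ hδ)⟩
    rw [hq]
    exact h1
  have hq2 : ∀ i δ b, b ∈ B δ → (∀ g ≤ X i, g < α → Dv E0 ρ e α g → p (ξ g) δ ≤ b) →
      q i δ ≤ b := by
    intro i δ b hb h1
    rw [hq]
    exact csInf_le' ⟨hb, h1⟩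
  have hqm : ∀ i j, i ≤ j → ∀ δ ∈ S, q i δ ≤ q j δ := fun i j hij δ hδ =>
    hq2 i δ _ (hq1 j δ hδ).1
      fun g hg h1 h2 => (hq1 j δ hδ).2 g (hg.trans (hmono.monotone hij)) h1 h2
  have hle : ∀ a b : Ordinal.{u}, a ≤ b → b < η → ∃ t < κ, ∀ δ ∈ S, t < δ → p a δ ≤ p b δ := by
    intro a b hab hb
    rcases hab.lt_or_eq with h1 | h1
    · obtain ⟨t, ht, h2⟩ := htail b hb a h1
      exact ⟨t, ht, fun δ hδ hδ' => hpm a (h1.trans hb) b hb _ hδ (h2 δ hδ').le⟩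
    · exact ⟨0, bot_le.trans_lt hζ, fun δ _ _ => by rw [h1]⟩
  have hstep : ∀ i < ρ, ∃ m < μ, D m ∈ S ∧ q i (D m) < q (Order.succ i) (D m) := by
    intro i hi
    have hi' := hρlim i hi
    have hXi := hXΛ i hi
    have hXs := hΛlim _ hXi
    have hXss := hΛlim _ hXs
    -- the bound at `x`
    have h1 : Q ξ α (X i) x := by
      rw [hQ]
      refine not_stat_bdd hlim ht0 fun δ hδ hΛδ h2 => ?_
      obtain ⟨hδS, g, hg, h3, h4, h5⟩ := h2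
      have hgΛ := h3.trans hα
      have h6 := hC4 _ (hEm g (hCE g h3 h4)).2 δ hΛδ
      exact absurd (hpm _ (hξη g hgΛ) x hx δ hδS h6.le) (not_le.2 h5)
    obtain ⟨a, ha, haξ, h2⟩ := (hξ4 (X i) hXi).2 α hα ⟨x, hx, h1⟩
    rw [hQ] at h2
    obtain ⟨n, hn1, hn2, h3⟩ := (hξ4 _ hXs).1
    have hn : n < η := hn2.trans_lt (hξη _ hXss)
    have h4 : StatL {δ | δ ∈ {δ | δ ∈ S ∧ p (ξ (Order.succ (X i))) δ ≠ p n δ} ∧
        ¬ ∃ g ≤ X i, g < α ∧ Dv E0 ρ e α g ∧ p a δ < p (ξ g) δ} κ := by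
      rcases statTwo hlim huc hω h3 (fun δ => ∃ g ≤ X i, g < α ∧
        Dv E0 ρ e α g ∧ p a δ < p (ξ g) δ) with h5 | h5
      · exact (h2 (h5.mono fun δ _ h6 => ⟨h6.1.1, h6.2⟩)).elim
      · exact h5
    have h5 : n ≤ ξ (X (Order.succ i)) := hn2.trans (hξm _ _ (hX2 i hi) (hXΛ _ hi')).le
    obtain ⟨t1, ht1, h6⟩ := hle _ _ haξ (hξη _ hXs)
    obtain ⟨t2, ht2, h7⟩ := hle _ _ hn1 hn
    obtain ⟨t3, ht3, h8⟩ := hle _ _ h5 (hξη _ (hXΛ _ hi'))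
    obtain ⟨δ, hδ, ⟨⟨⟨hδS, h9⟩, h10⟩, h11⟩, h12⟩ := stat_tail hlim hcf hω
      (max_lt ht1 (max_lt ht2 ht3)) h4 _ (fun z hz => (mem_sep.1 hz).1) hD
    obtain ⟨_, m, hm, h13⟩ := mem_sep.1 h12
    have h14 := Ordinal.toZFSet_injective h13
    push Not at h10
    have h15 := h6 δ hδS ((le_max_left _ _).trans_lt h11)
    have h16 := h7 δ hδS (((le_max_left _ _).trans (le_max_right _ _)).trans_lt h11)
    have h17 := h8 δ hδS (((le_max_right _ _).trans (le_max_right _ _)).trans_lt h11)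
    have h18 : q i δ ≤ p a δ := hq2 i δ _ (hpB a ha δ hδS) h10
    have h19 := (hq1 (Order.succ i) δ hδS).2 _ le_rfl (hXα _ hi') (hXD _ hi')
    refine ⟨m, hm, ?_, ?_⟩
    · rw [← h14]
      exact hδS
    · rw [← h14]
      exact (h18.trans_lt (h15.trans_lt (lt_of_le_of_ne h16 h9))).trans_le (h17.trans h19)
  choose! m hm1 hm2 hm3 using hstep
  have key : ∀ i j, i < j → j < ρ → m i = m j →
      c (D (m i)) (q i (D (m i))) = c (D (m j)) (q j (D (m j))) → False := by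
    intro i j hij hj h1 h2
    have hi := hij.trans hj
    have h3 := hm3 i hi
    rw [← h1] at h2
    rw [hc2 _ (hm2 i hi) _ (hq1 _ _ (hm2 i hi)).1 _ (hq1 _ _ (hm2 i hi)).1 h2] at h3
    exact absurd (h3.trans_le (hqm _ _ (Order.succ_le_of_lt hij) _ (hm2 i hi))) (lt_irrefl _)
  have hinj : Cardinal.mk (Set.Iio ρ) ≤
      Cardinal.mk (Set.Iio μ × Set.Iio (Order.succ ζ)) := by
    refine Cardinal.mk_le_of_injective (f := fun i => (⟨m i.1, hm1 i.1 i.2⟩,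
      ⟨c (D (m i.1)) (q i.1 (D (m i.1))), Order.lt_succ_iff.2 (hc1 _ (hm2 i.1 i.2) _
        (hq1 _ _ (hm2 i.1 i.2)).1)⟩)) ?_
    rintro ⟨i, hi⟩ ⟨j, hj⟩ hij
    have hij1 : m i = m j := congrArg (fun q => q.1.1) hij
    have hij2 : c (D (m i)) (q i (D (m i))) = c (D (m j)) (q j (D (m j))) :=
      congrArg (fun q => q.2.1) hij
    rcases lt_trichotomy i j with h3 | h3 | h3
    · exact (key i j h3 hj hij1 hij2).elim
    · exact Subtype.ext h3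
    · exact (key j i h3 hi hij1.symm hij2.symm).elim
  rw [Cardinal.mk_prod, Cardinal.lift_id, Cardinal.lift_id, Cardinal.mk_Iio_ordinal,
    Cardinal.mk_Iio_ordinal, Cardinal.mk_Iio_ordinal, ← Cardinal.lift_mul,
    Cardinal.lift_le, hρ, Cardinal.card_ord] at hinj
  have h1 : μ.card * (Order.succ ζ).card ≤ σ := by
    rw [← Cardinal.mul_eq_self hσ0]
    exact mul_le_mul' (by rw [hσ]; exact le_max_left _ _) (by rw [hσ]; exact le_max_right _ _)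
  exact absurd (hinj.trans h1) (not_le.2 (Order.lt_succ _))

end Pool.Agent.H93.SV
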