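import Pool.Agent.H93.SV.Seq

/-!
Uniform bounds below regular cardinals of `HOD`.
-/

set_option autoImplicit false
set_option linter.unusedVariables false

namespace Pool.Agent.H93.SV

open ZFSet Gss969 Pool.Agent.H310.HD Pool.Agent.H93.HM Pool.Agent.H93.SC

universe u

variable {κ η μ l δ s : Ordinal.{u}}

theorem CofN.seq {m : Ordinal.{u}} (h : CofN m.toZFSet l.toZFSet) :
    ∃ e : Ordinal.{u} → Ordinal.{u}, (∀ i < m, e i < l) ∧ ∀ x < l, ∃ i < m, x < e i := by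
  obtain ⟨f, hf, hc⟩ := h
  refine ⟨fun i => rank (app f i.toZFSet), fun i hi => ?_, fun x hx => ?_⟩
  · obtain ⟨y, hy, hy'⟩ := Ordinal.mem_toZFSet_iff.1 (app_mem hf (tz_mem.2 hi))
    simp only
    rw [← hy', Ordinal.rank_toZFSet]
    exact hy
  · obtain ⟨n, hn, y, hy, hny, hxy⟩ := hc _ (tz_mem.2 hx)
    obtain ⟨i, hi, rfl⟩ := Ordinal.mem_toZFSet_iff.1 hn
    obtain ⟨y, hy', rfl⟩ := Ordinal.mem_toZFSet_iff.1 hy
    refine ⟨i, hi, ?_⟩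
    simp only
    rw [(app_iff hf hn).1 hny, Ordinal.rank_toZFSet]
    exact tz_mem.1 hxy

/-- Monotone cofinal functions preserve cofinality. -/
theorem cf_mono {u : Ordinal.{u} → Ordinal.{u}}
    (hu : ∀ x < δ, u x < s) (hm : ∀ x y, x ≤ y → y < δ → u x ≤ u y)
    (hc : ∀ z < s, ∃ x < δ, z < u x) (θ : Ordinal.{u}) :
    Cf θ.toZFSet δ.toZFSet ↔ Cf θ.toZFSet s.toZFSet := by
  have h1 : ∀ θ : Ordinal.{u}, CofN θ.toZFSet δ.toZFSet ↔ CofN θ.toZFSet s.toZFSet := by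
    intro θ
    constructor
    · intro h
      obtain ⟨g, hg1, hg2⟩ := CofN.seq h
      refine cofN_seq (F := fun i => u (g i)) (fun i hi => hu _ (hg1 i hi)) fun z hz => ?_
      obtain ⟨x, hx, h1⟩ := hc z hz
      obtain ⟨i, hi, h2⟩ := hg2 x hx
      exact ⟨i, hi, h1.trans_le (hm _ _ h2.le (hg1 i hi))⟩
    · intro h
      obtain ⟨g, hg1, hg2⟩ := CofN.seq h
      have h2 : ∀ i < θ, ∃ x < δ, g i < u x := fun i hi => hc _ (hg1 i hi)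
      choose! v hv1 hv2 using h2
      refine cofN_seq (F := v) hv1 fun x hx => ?_
      obtain ⟨i, hi, h3⟩ := hg2 _ (hu x hx)
      refine ⟨i, hi, ?_⟩
      by_contra h4
      push Not at h4
      exact absurd ((h3.trans (hv2 i hi)).trans_le (hm _ _ h4 hx)) (lt_irrefl _)
  unfold Cf
  rw [h1 θ]
  refine and_congr_right fun _ => ⟨fun h m hm => ?_, fun h m hm => ?_⟩
  · obtain ⟨m', _, rfl⟩ := Ordinal.mem_toZFSet_iff.1 hm
    rw [← h1]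
    exact h _ hm
  · obtain ⟨m', _, rfl⟩ := Ordinal.mem_toZFSet_iff.1 hm
    rw [h1]
    exact h _ hm

/-- **Bounds below regular cardinals of `HOD`.** -/
theorem reg_bdd {θ k : Ordinal.{u}} (hθ : HODReg θ) (hk : k < θ)
    {A : ZFSet.{u} → ZFSet.{u} → (ℕ → ZFSet.{u}) → Prop}
    (hA : Dfn Gd.{u} (fun v => A (v 0) (v 1) (fun n => v (n + 2))))
    (ps : List ZFSet.{u}) (hps : ∀ p ∈ ps, OD p)
    (hex : ∀ i < k, ∃ t < θ, A (Ordinal.toZFSet i) (Ordinal.toZFSet t) (pl ps)) :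
    ∃ b < θ, ∀ i < k, ∃ t < b, A (Ordinal.toZFSet i) (Ordinal.toZFSet t) (pl ps) := by
  by_contra hcon
  push Not at hcon
  obtain ⟨G, hG⟩ : ∃ G : ZFSet.{u}, G = ZFSet.sep (fun p => ∃ x y, p = pair x y ∧
      (A x y (pl ps) ∧ ∀ z ∈ y, ¬ A x z (pl ps))) (prod k.toZFSet θ.toZFSet) := ⟨_, rfl⟩
  have hGO : HOD G := by
    rw [hG]
    refine HOD_rel (A := fun x y v => A x y v ∧ ∀ z ∈ y, ¬ A x z v) (hA.and
      (Dfn.ball Gd_Trs _ (Dfn.not ?_))) k θ ps hps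
    exact Dfn_reindex hA (fun n => if n = 0 then 1 else if n = 1 then 0 else n + 1)
  have hGm : ∀ i t : Ordinal.{u}, pair i.toZFSet t.toZFSet ∈ G ↔ i < k ∧ t < θ ∧
      A i.toZFSet t.toZFSet (pl ps) ∧ ∀ t' < t, ¬ A i.toZFSet (Ordinal.toZFSet t') (pl ps) := by
    intro i t
    rw [hG, mem_rel (B := fun x y => A x y (pl ps) ∧ ∀ z ∈ y, ¬ A x z (pl ps)), tz_mem, tz_mem]
    constructor
    · rintro ⟨h1, h2, h3, h4⟩
      exact ⟨h1, h2, h3, fun t' ht' => h4 _ (tz_mem.2 ht')⟩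
    · rintro ⟨h1, h2, h3, h4⟩
      refine ⟨h1, h2, h3, fun z hz => ?_⟩
      obtain ⟨z, hz', rfl⟩ := Ordinal.mem_toZFSet_iff.1 hz
      exact h4 z hz'
  have hmin : ∀ i < k, ∃ t < θ, A (Ordinal.toZFSet i) (Ordinal.toZFSet t) (pl ps) ∧
      ∀ t' < t, ¬ A (Ordinal.toZFSet i) (Ordinal.toZFSet t') (pl ps) := by
    intro i hi
    obtain ⟨t, ⟨ht, h1⟩, h2⟩ := WellFounded.has_min (wellFounded_lt (α := Ordinal.{u}))
      {t | t < θ ∧ A (Ordinal.toZFSet i) (Ordinal.toZFSet t) (pl ps)} (hex i hi)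
    exact ⟨t, ht, h1, fun t' ht' h3 => h2 t' ⟨ht'.trans ht, h3⟩ ht'⟩
  refine hθ.2.2 ⟨k.toZFSet, tz_mem.2 hk, G, hGO, ⟨fun p hp => ?_, fun x hx => ?_⟩,
    fun y hy => ?_⟩
  · rw [hG] at hp
    exact (mem_sep.1 hp).1
  · obtain ⟨i, hi, rfl⟩ := Ordinal.mem_toZFSet_iff.1 hx
    obtain ⟨t, ht, h1, h2⟩ := hmin i hi
    refine ⟨t.toZFSet, (hGm _ _).2 ⟨hi, ht, h1, h2⟩, fun y hy => ?_⟩
    have h3 : y ∈ θ.toZFSet := by
      have hy' := hy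
      rw [hG] at hy'
      exact (mem_rel.1 hy').2.1
    obtain ⟨t', _, rfl⟩ := Ordinal.mem_toZFSet_iff.1 h3
    obtain ⟨_, _, h4, h5⟩ := (hGm _ _).1 hy
    rcases lt_trichotomy t t' with h6 | h6 | h6
    · exact absurd h1 (h5 t h6)
    · rw [h6]
    · exact absurd h4 (h2 t' h6)
  · obtain ⟨y, hy', rfl⟩ := Ordinal.mem_toZFSet_iff.1 hy
    obtain ⟨i, hi, h1⟩ := hcon _ (hθ.2.1 y hy')
    obtain ⟨t, ht, h2, h3⟩ := hmin i hi
    refine ⟨_, tz_mem.2 hi, _, tz_mem.2 ht, (hGm _ _).2 ⟨hi, ht, h2, h3⟩, tz_mem.2 ?_⟩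
    by_contra h4
    push Not at h4
    exact h1 t (Order.lt_succ_iff.2 h4) h2

end Pool.Agent.H93.SV
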